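import Pool.Agent.P.MP_a67bd8_gt.N4.PDeg

/-!
Assembly: the four dimensional torus and its products with circles.
-/

namespace Pool.Agent.P.MP_a67bd8_gt.N4

open MeasureTheory Set Matrix Real
open scoped ContDiff Matrix.Norms.Operator Quaternion

theorem lp_ell : Lp ell := fun k => by
  funext i
  fin_cases k <;> fin_cases i <;> simp [cov, PDeg.ell_apply]

theorem od_four {κ : ℂ} (hκ : Link κ) (h1 : S_Sus) (h2 : S_Lag) (h3 : S_Imm) (h4 : S_Gap)
    (h5 : S_Inj) (hA : ExA PP gg HH) (hB : ExB PP gg HH) (hC : ExC PP gg) : Od κ 4 := by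
  obtain ⟨δ, d0, d1, hi⟩ := h5 _ _ _ hA hB (h4 _ _ _ hA hB)
  obtain ⟨f, hf, hw⟩ := h1 3 _ _ (h2 _ _ _ hA δ) (h3 _ _ _ hA δ d0 d1) hi
  obtain ⟨a, e⟩ := hw ell lp_ell
  exact ⟨f, hf, ell, lp_ell, e ▸ p_deg κ hκ _ _ _ hA hC δ d0 a⟩

theorem od_succ {κ : ℂ} (h1 : S_Sus) {n : ℕ} (h : Od κ n) : Od κ (n + 1) := by
  obtain ⟨f, hf, ℓ, hℓ, hw⟩ := h
  let T : (Fin (n + 1) → ℝ) →L[ℝ] Fin n → ℝ :=
    ContinuousLinearMap.pi fun j => ContinuousLinearMap.proj j.succ
  have hT : ∀ (m : Fin n) (t : ℝ), T (Pi.single m.succ t) = Pi.single m t := fun m t => by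
    funext j
    simp [T, Pi.single_apply]
  have hd : ∀ a y, pd (fun y => f (cov (T y))) a y =
      fderiv ℝ (fun x => f (cov x)) (T y) (T (Pi.single a 1)) := fun a y =>
    PDeg.pd_lin (S := fun x => f (cov x)) T (hf.smooth.differentiable (by simp) _) a
  obtain ⟨f', hf', hw'⟩ := h1 n (fun y => f (cov (T y))) (fun _ => 0)
    ⟨hf.smooth.comp T.contDiff, contDiff_const, fun k x => by
      refine congrArg f (funext fun j => ?_)
      by_cases e : j.succ = k <;> simp [cov, T, e], fun _ _ => rfl,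
      fun y a b => by
        rw [hd, hd, hf.lag]
        simp [pd]⟩
    (fun y v hv => hf.imm (T y) (by
      simp only [hd, hT] at hv
      rw [clm_eq_sum _ v, hv, map_zero]))
    fun y y' e0 _ e => funext fun j => Fin.cases e0 (fun j => congrFun (hf.inj e) j) j
  let ℓ' : (Fin 3 → ℝ) →L[ℝ] Fin (n + 1) → ℝ :=
    ContinuousLinearMap.pi fun j => Fin.cases 0 (fun j => (ContinuousLinearMap.proj j).comp ℓ) j
  have hℓ' : Lp ℓ' := fun k => funext fun j =>
    Fin.cases Circle.exp_zero (fun j => congrFun (hℓ k) j) j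
  have e : (fun b => fib (fun y => f (cov (T y))) (ℓ' b)) =
      fun b => frame (fun x => f (cov x)) (ℓ b) := by
    funext b
    ext j m
    rw [fib, of_apply, hd, hT]
    rfl
  exact ⟨f', hf', ℓ', hℓ', by rwa [(hw' ℓ' hℓ').2, e]⟩

theorem not_iso {κ : ℂ} (hκ : κ ≠ 0) (h1 : S_Iso) {n : ℕ} (hE : Ev κ n) (hO : Od κ n) :
    ∃ f : (Fin n → Circle) → Fin n → ℂ,
      IsLagTorus f ∧ ¬LagIsotopic (range f) (clifford (Fin n)) := by
  obtain ⟨f, hf, ℓ, hℓ, hw⟩ := hO
  refine ⟨f, hf, fun hI => ?_⟩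
  obtain ⟨m, hm⟩ := h1 κ n hE f hf hI ℓ hℓ
  rw [hm] at hw
  rcases hw with hw | hw
  · have : ((2 * m : ℤ) : ℂ) = (1 : ℤ) := mul_left_cancel₀ hκ (by
      push_cast
      linear_combination hw / 2)
    have := Int.cast_injective this
    omega
  · have : ((2 * m : ℤ) : ℂ) = (-1 : ℤ) := mul_left_cancel₀ hκ (by
      push_cast
      linear_combination hw / 2)
    have := Int.cast_injective this
    omega

end Pool.Agent.P.MP_a67bd8_gt.N4
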