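import Pool.Agent.P.MP_a67bd8_gt.N4.Stmt

/-!
The signed count of nondegenerate zeros.
-/

namespace Pool.Agent.P.MP_a67bd8_gt.N4

open MeasureTheory Set Matrix Real
open scoped ContDiff Matrix.Norms.Operator Quaternion Topology

namespace PCount

theorem local_chart {H : (Fin 4 → ℝ) → Fin 4 → ℝ} (hH : ContDiff ℝ ∞ H) {z : Fin 4 → ℝ}
    (hz : (fderiv ℝ H z).det ≠ 0) {N : Set (Fin 4 → ℝ)} (hN : N ∈ 𝓝 z) :
    ∃ (U : Set (Fin 4 → ℝ)) (σ : ℤ), IsOpen U ∧ z ∈ U ∧ U ⊆ N ∧ InjOn H U ∧ (σ = 1 ∨ σ = -1) ∧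
      (∀ p ∈ U, |(fderiv ℝ H p).det| = σ * (fderiv ℝ H p).det) ∧ H '' U ∈ 𝓝 (H z) := by
  have hs : HasStrictFDerivAt H
      ((fderiv ℝ H z).toContinuousLinearEquivOfDetNeZero hz : _ →L[ℝ] _) z := by
    rw [ContinuousLinearMap.coe_toContinuousLinearEquivOfDetNeZero]
    exact hH.contDiffAt.hasStrictFDerivAt (by simp)
  have hc : Continuous fun p => (fderiv ℝ H p).det :=
    ContinuousLinearMap.continuous_det.comp (hH.continuous_fderiv (by simp))
  obtain ⟨σ, h1, h2⟩ : ∃ σ : ℤ, (σ = 1 ∨ σ = -1) ∧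
      ∀ᶠ p in 𝓝 z, |(fderiv ℝ H p).det| = σ * (fderiv ℝ H p).det := by
    rcases lt_or_gt_of_ne hz with h | h
    · exact ⟨-1, Or.inr rfl, (hc.continuousAt.eventually_lt continuousAt_const h).mono
        fun p hp => by simp [abs_of_neg hp]⟩
    · exact ⟨1, Or.inl rfl, (continuousAt_const.eventually_lt hc.continuousAt h).mono
        fun p hp => by simp [abs_of_pos hp]⟩
  have h3 := (hs.toOpenPartialHomeomorph H).open_source.mem_nhds
    hs.mem_toOpenPartialHomeomorph_source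
  obtain ⟨U, u1, u2, u3⟩ := mem_nhds_iff.mp (Filter.inter_mem hN (Filter.inter_mem h3 h2))
  refine ⟨U, σ, u2, u3, fun p hp => (u1 hp).1,
    (hs.toOpenPartialHomeomorph H).injOn.mono fun p hp => (u1 hp).2.1, h1,
    fun p hp => (u1 hp).2.2, ?_⟩
  rw [← hs.map_nhds_eq_of_equiv]
  exact Filter.image_mem_map (u2.mem_nhds u3)

end PCount

theorem p_count : S_Count := by
  classical
  intro η hη hη0 H hH K hK hz
  have hd : Differentiable ℝ H := hH.differentiable (by simp)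
  have hfin : {p | p ∈ K ∧ H p = 0}.Finite := by
    have hZ : IsCompact {p | p ∈ K ∧ H p = 0} :=
      hK.inter_right (isClosed_eq hH.continuous continuous_const)
    choose! U σ u1 u2 _ u4 _ using fun p (hp : p ∈ K ∧ H p = 0) =>
      PCount.local_chart hH (hz p hp.1 hp.2).2 Filter.univ_mem
    obtain ⟨t, t1, t2⟩ := hZ.elim_nhds_subcover U fun p hp => (u1 p hp).mem_nhds (u2 p hp)
    refine t.finite_toSet.subset fun p hp => ?_
    obtain ⟨q, q1, q2⟩ := mem_iUnion₂.mp (t2 hp)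
    rw [u4 q (t1 q q1) q2 (u2 q (t1 q q1)) (hp.2.trans (t1 q q1).2.symm)]
    exact q1
  obtain ⟨W, w1, w2⟩ := hfin.t2_separation
  choose! U σ u1 u2 u3 u4 u5 u6 u7 using fun p (hp : p ∈ K ∧ H p = 0) =>
    PCount.local_chart hH (hz p hp.1 hp.2).2 (Filter.inter_mem ((w1 p).2.mem_nhds (w1 p).1)
      (mem_interior_iff_mem_nhds.mp (hz p hp.1 hp.2).1))
  set s := hfin.toFinset with hs
  have hs' : ∀ p, p ∈ s ↔ p ∈ K ∧ H p = 0 := fun p => hfin.mem_toFinset
  have hopen : IsOpen (⋃ p ∈ s, U p) := isOpen_biUnion fun p hp => u1 p ((hs' p).mp hp)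
  have hn1 : (H '' (K \ ⋃ p ∈ s, U p))ᶜ ∈ 𝓝 (0 : Fin 4 → ℝ) := by
    refine ((hK.diff hopen).image hH.continuous).isClosed.isOpen_compl.mem_nhds ?_
    rintro ⟨p, hp, h0⟩
    exact hp.2 (mem_iUnion₂.mpr ⟨p, (hs' p).mpr ⟨hp.1, h0⟩, u2 p ⟨hp.1, h0⟩⟩)
  have hn2 : (⋂ p ∈ s, H '' U p) ∈ 𝓝 (0 : Fin 4 → ℝ) := by
    refine (Filter.biInter_finset_mem s).mpr fun p hp => ?_
    have := u7 p ((hs' p).mp hp)
    rwa [((hs' p).mp hp).2] at this
  obtain ⟨r, r0, hr⟩ := Metric.mem_nhds_iff.mp (Filter.inter_mem hn1 hn2)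
  refine ⟨s, σ, r⁻¹, hs', fun p hp => u5 p ((hs' p).mp hp), fun c c0 hc => ?_⟩
  have hcr : 1 ≤ c * r := by
    rw [← div_le_iff₀ r0, one_div]
    exact hc
  have hf : ∀ p, HasFDerivAt (fun q => c • H q) (c • fderiv ℝ H p) p :=
    fun p => (hd p).hasFDerivAt.const_smul c
  have hdet : ∀ p, (c • fderiv ℝ H p).det = c ^ 4 * (fderiv ℝ H p).det := fun p => by
    simp [ContinuousLinearMap.det]
  have hcont : Continuous fun p => η (c • H p) * (fderiv ℝ (fun q => c • H q) p).det :=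
    (hη.comp (hH.continuous.const_smul c)).mul (ContinuousLinearMap.continuous_det.comp
      ((hH.const_smul c).continuous_fderiv (by simp)))
  have hsub : ∀ p ∈ s, U p ⊆ K := fun p hp q hq => (u3 p ((hs' p).mp hp) hq).2
  rw [setIntegral_eq_of_subset_of_forall_sdiff_eq_zero hK.measurableSet
    (iUnion₂_subset hsub) fun p hp => ?_, integral_biUnion_finset s
      (fun p hp => (u1 p ((hs' p).mp hp)).measurableSet) (fun p hp q hq hpq => ?_)
      fun p hp => (hcont.continuousOn.integrableOn_compact hK).mono_set (hsub p hp)]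
  · rw [Int.cast_sum, Finset.mul_sum]
    refine Finset.sum_congr rfl fun p hp => ?_
    have hp' := (hs' p).mp hp
    have e1 := integral_image_eq_integral_abs_det_fderiv_smul volume (u1 p hp').measurableSet
      (fun q _ => (hf q).hasFDerivWithinAt)
      (fun a ha b hb hab => u4 p hp' ha hb (smul_right_injective _ c0.ne' hab)) η
    rw [setIntegral_eq_integral_of_forall_compl_eq_zero fun y hy => hη0 y ?_] at e1
    · rw [e1, ← integral_mul_const]
      refine setIntegral_congr_fun (u1 p hp').measurableSet fun q hq => ?_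
      have e2 : (σ p : ℝ) * σ p = 1 := by rcases u5 p hp' with h | h <;> simp [h]
      simp only [(hf q).fderiv, hdet, abs_mul, abs_of_pos (pow_pos c0 4), u6 p hp' q hq,
        smul_eq_mul]
      linear_combination (-(η (c • H q) * (c ^ 4 * (fderiv ℝ H q).det))) * e2
    · by_contra hcon
      have h1 : c⁻¹ • y ∈ Metric.ball (0 : Fin 4 → ℝ) r := by
        rw [mem_ball_zero_iff, norm_smul, norm_inv, Real.norm_of_nonneg c0.le,
          inv_mul_lt_iff₀ c0]
        linarith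
      obtain ⟨q, q1, q2⟩ := mem_iInter₂.mp (hr h1).2 p hp
      exact hy ⟨q, q1, by simp only [q2, smul_inv_smul₀ c0.ne']⟩
  · exact (w2 ((hs' p).mp hp) ((hs' q).mp hq) hpq).mono
      (fun a ha => (u3 p ((hs' p).mp hp) ha).1) fun a ha => (u3 q ((hs' q).mp hq) ha).1
  · have h1 : r ≤ ‖H p‖ := by
      by_contra hcon
      exact (hr (mem_ball_zero_iff.mpr (not_le.mp hcon))).1 ⟨p, hp, rfl⟩
    rw [hη0, zero_mul]
    rw [norm_smul, Real.norm_of_nonneg c0.le]
    exact hcr.trans (mul_le_mul_of_nonneg_left h1 c0.le)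

end Pool.Agent.P.MP_a67bd8_gt.N4
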