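import Pool.Agent.P.MP_a67bd8_gt.N4.Stmt

/-!
Real four by four matrix valued maps have even winding number.
-/

namespace Pool.Agent.P.MP_a67bd8_gt.N4

open MeasureTheory Set Matrix Real
open scoped ContDiff Matrix.Norms.Operator Quaternion

namespace PEv4

/-- a quaternion from the real parts of four complex numbers -/
noncomputable def mkL : (Fin 4 → ℂ) →L[ℝ] ℍ :=
  LinearMap.toContinuousLinearMap
    { toFun := fun u => ⟨(u 0).re, (u 1).re, (u 2).re, (u 3).re⟩
      map_add' := fun a b => by ext <;> simp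
      map_smul' := fun c a => by ext <;> simp }

theorem vec_mkL (u : Fin 4 → ℂ) (h : ∀ i, (u i).im = 0) : vec (mkL u) = u := by
  funext i
  fin_cases i <;> apply Complex.ext <;> simp [vec, mkL, h]

/-- the real part -/
noncomputable def reL : ℍ →L[ℝ] ℝ :=
  LinearMap.toContinuousLinearMap
    { toFun := fun a => a.re
      map_add' := fun a b => by simp
      map_smul' := fun c a => by simp }

/-- the imaginary part -/
noncomputable def imL : ℍ →L[ℝ] ℍ :=
  LinearMap.toContinuousLinearMap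
    { toFun := fun a => a.im
      map_add' := fun a b => by simp
      map_smul' := fun c a => by simp }

theorem contDiff_nrm {a : (Fin 3 → ℝ) → ℍ} (h : ContDiff ℝ ∞ a) (h0 : ∀ x, a x ≠ 0) :
    ContDiff ℝ ∞ fun x => ‖a x‖⁻¹ • a x :=
  ((h.norm ℝ h0).inv fun x => norm_ne_zero_iff.2 (h0 x)).smul h

theorem sq_re {e : ℍ} (h0 : e.re = 0) (h1 : ‖e‖ = 1) : (e * e).re = -1 := by
  have h2 := Quaternion.normSq_eq_norm_mul_self e
  rw [h1, Quaternion.normSq_def', h0] at h2
  rw [Quaternion.re_mul, h0]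
  linarith

theorem gram {a b : (Fin 3 → ℝ) → ℍ} (ha : ContDiff ℝ ∞ a) (hb : ContDiff ℝ ∞ b) (pa : Per a)
    (pb : Per b) (ra : ∀ x, (a x).re = 0) (rb : ∀ x, (b x).re = 0)
    (ind : ∀ x (s t : ℝ), s • a x + t • b x = 0 → s = 0 ∧ t = 0) :
    ∃ e₁ e₂ : (Fin 3 → ℝ) → ℍ, ContDiff ℝ ∞ e₁ ∧ ContDiff ℝ ∞ e₂ ∧ Per e₁ ∧ Per e₂ ∧
      (∀ x, (e₁ x).re = 0) ∧ (∀ x, (e₂ x).re = 0) ∧ (∀ x, ‖e₁ x‖ = 1) ∧ (∀ x, ‖e₂ x‖ = 1) ∧
      (∀ x, (e₁ x * e₂ x).re = 0) ∧
      ∀ x, ∃ s t u : ℝ, a x = s • e₁ x ∧ b x = t • e₁ x + u • e₂ x := by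
  have a0 : ∀ x, a x ≠ 0 := fun x h => one_ne_zero (ind x 1 0 (by simp [h])).1
  let e₁ : (Fin 3 → ℝ) → ℍ := fun x => ‖a x‖⁻¹ • a x
  have s1 : ContDiff ℝ ∞ e₁ := contDiff_nrm ha a0
  have p1 : Per e₁ := fun k x => by simp only [e₁, pa k x]
  have r1 : ∀ x, (e₁ x).re = 0 := fun x => by simp [e₁, ra x]
  have n1 : ∀ x, ‖e₁ x‖ = 1 := fun x => norm_smul_inv_norm (a0 x)
  let c : (Fin 3 → ℝ) → ℍ := fun x => b x + (e₁ x * b x).re • e₁ x
  have sc : ContDiff ℝ ∞ c := hb.add ((reL.contDiff.comp (s1.mul hb)).smul s1)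
  have c0 : ∀ x, c x ≠ 0 := fun x h => one_ne_zero (ind x ((e₁ x * b x).re * ‖a x‖⁻¹) 1 (by
    rw [one_smul, add_comm, ← smul_smul]
    exact h)).2
  refine ⟨e₁, fun x => ‖c x‖⁻¹ • c x, s1, contDiff_nrm sc c0, p1,
    fun k x => by simp only [c, pb k x, p1 k x], r1, fun x => by simp [c, rb x, r1 x], n1,
    fun x => norm_smul_inv_norm (c0 x), fun x => ?_,
    fun x => ⟨‖a x‖, -(e₁ x * b x).re, ‖c x‖, ?_, ?_⟩⟩
  · simp only [c, mul_smul_comm, mul_add, Quaternion.re_smul, Quaternion.re_add,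
      sq_re (r1 x) (n1 x), smul_eq_mul]
    ring
  · rw [smul_smul, mul_inv_cancel₀ (norm_ne_zero_iff.2 (a0 x)), one_smul]
  · rw [smul_inv_smul₀ (norm_ne_zero_iff.2 (c0 x))]
    simp only [c]
    module

/-- the rotation in the last two coordinates -/
noncomputable def rotM (θ : ℝ) : Matrix (Fin 4) (Fin 4) ℂ :=
  !![1, 0, 0, 0; 0, 1, 0, 0; 0, 0, cos θ, sin θ; 0, 0, -sin θ, cos θ]

theorem rot_ad (m : Fin 3 → ℤ) :
    Ad (fun x : Fin 3 → ℝ => rotM (∑ k, m k * x k)) ∧
      wm (fun x : Fin 3 → ℝ => rotM (∑ k, m k * x k)) = 0 := by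
  have st : ContDiff ℝ ∞ fun x : Fin 3 → ℝ => ∑ k, (m k : ℝ) * x k := by fun_prop
  have sc : ContDiff ℝ ∞ fun x : Fin 3 → ℝ => ((cos (∑ k, (m k : ℝ) * x k) : ℝ) : ℂ) :=
    Complex.ofRealCLM.contDiff.comp (contDiff_cos.comp st)
  have ss : ContDiff ℝ ∞ fun x : Fin 3 → ℝ => ((sin (∑ k, (m k : ℝ) * x k) : ℝ) : ℂ) :=
    Complex.ofRealCLM.contDiff.comp (contDiff_sin.comp st)
  have pt : ∀ (j : Fin 3) (x : Fin 3 → ℝ),
      ∑ k, (m k : ℝ) * (x + Pi.single j (2 * π) : Fin 3 → ℝ) k =
        ∑ k, (m k : ℝ) * x k + m j * (2 * π) := fun j x => by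
    simp [mul_add, Finset.sum_add_distrib, Pi.single_apply]
  have e1 : ∀ θ : ℝ, ((cos θ : ℝ) : ℂ) * cos θ + (sin θ : ℝ) * (sin θ : ℝ) = 1 := fun θ => by
    have := Real.cos_sq_add_sin_sq θ
    exact_mod_cast (by linarith : cos θ * cos θ + sin θ * sin θ = 1)
  have a1 : Ad fun x : Fin 3 → ℝ => rotM (∑ k, m k * x k) := by
    refine ⟨contDiff_mat.mpr fun i j => ?_, fun x => ?_, fun j x => ?_⟩
    · fin_cases i <;> fin_cases j <;>
        first | exact contDiff_const | exact sc | exact ss | exact ss.neg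
    · refine IsUnit.of_mul_eq_one (rotM (∑ k, m k * x k))ᵀ ?_
      have := e1 (∑ k, m k * x k)
      generalize (∑ k, (m k : ℝ) * x k) = θ at this
      ext i j
      fin_cases i <;> fin_cases j <;>
        simp [rotM, mul_apply, Fin.sum_univ_four, -Complex.ofReal_cos, -Complex.ofReal_sin] <;>
        first | ring1 | linear_combination this
    · simp only [pt, rotM, cos_add_int_mul_two_pi, sin_add_int_mul_two_pi]
  let D : ℝ → Matrix (Fin 4) (Fin 4) ℂ := fun θ =>
    diagonal ![1, 1, cos θ + sin θ * Complex.I, cos θ - sin θ * Complex.I]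
  have a2 : Ad fun x : Fin 3 → ℝ => D (∑ k, m k * x k) := by
    refine ⟨contDiff_mat.mpr fun i j => ?_, fun x => ?_, fun j x => ?_⟩
    · simp only [D, diagonal_apply]
      split_ifs
      · fin_cases i
        exacts [contDiff_const, contDiff_const, sc.add (ss.mul contDiff_const),
          sc.sub (ss.mul contDiff_const)]
      · exact contDiff_const
    · have := e1 (∑ k, m k * x k)
      generalize (∑ k, (m k : ℝ) * x k) = θ at this
      refine IsUnit.of_mul_eq_one
        (diagonal ![1, 1, cos θ - sin θ * Complex.I, cos θ + sin θ * Complex.I]) ?_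
      simp only [D, diagonal_mul_diagonal, ← diagonal_one]
      congr 1
      funext i
      fin_cases i <;> simp [-Complex.ofReal_cos, -Complex.ofReal_sin] <;>
        linear_combination this - (sin θ : ℝ) ^ 2 * Complex.I_sq
    · simp only [pt, D, cos_add_int_mul_two_pi, sin_add_int_mul_two_pi]
  let P : Matrix (Fin 4) (Fin 4) ℂ :=
    !![1, 0, 0, 0; 0, 1, 0, 0; 0, 0, 1, 1; 0, 0, Complex.I, -Complex.I]
  have aP : Ad fun _ : Fin 3 → ℝ => P := ad_const (IsUnit.of_mul_eq_one
    !![1, 0, 0, 0; 0, 1, 0, 0; 0, 0, 1 / 2, -Complex.I / 2; 0, 0, 1 / 2, Complex.I / 2] (by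
      ext i j
      fin_cases i <;> fin_cases j <;> simp [P, mul_apply, Fin.sum_univ_four] <;>
        first | ring1 | linear_combination -Complex.I_sq))
  have e : ∀ θ, rotM θ * P = P * D θ := fun θ => by
    ext i j
    fin_cases i <;> fin_cases j <;>
      simp [rotM, P, D, mul_apply, Fin.sum_univ_four, diagonal_apply, -Complex.ofReal_cos,
        -Complex.ofReal_sin] <;>
      first | ring1 | linear_combination (-(sin θ : ℝ) : ℂ) * Complex.I_sq
  have h1 := wm_mul a1 aP
  simp only [e] at h1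
  rw [wm_mul aP a2, wm_const, wm_diag a2 fun x => isDiag_diagonal _] at h1
  exact ⟨a1, by simpa using h1.symm⟩

/-- quaternionic conjugation -/
def cj : Matrix (Fin 4) (Fin 4) ℂ := diagonal ![1, -1, -1, -1]

theorem cj_vec (w : ℍ) : cj *ᵥ vec w = vec (star w) := by
  funext i
  fin_cases i <;> simp [cj, vec, mulVec_diagonal]

theorem cj_unit : IsUnit cj := IsUnit.of_mul_eq_one cj (by
  simp only [cj, diagonal_mul_diagonal, ← diagonal_one]
  congr 1
  funext i
  fin_cases i <;> simp)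

end PEv4

open PEv4 in
theorem p_ev4 (κ : ℂ) (h : Link κ) (hs : S_Spin) : Ev κ 4 := by
  intro A hA hr
  let col : Fin 4 → (Fin 3 → ℝ) → ℍ := fun j x => mkL fun i => A x i j
  have hv : ∀ j x, vec (col j x) = fun i => A x i j := fun j x => vec_mkL _ fun i => hr x i j
  have sc : ∀ j, ContDiff ℝ ∞ (col j) := fun j =>
    mkL.contDiff.comp (contDiff_pi.mpr fun i => contDiff_mat.mp hA.sm i j)
  have pc : ∀ j, Per (col j) := fun j k x => by simp only [col, hA.per k x]
  have ind : ∀ x (r s t : ℝ), r • col 0 x + s • col 1 x + t • col 2 x = 0 →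
      r = 0 ∧ s = 0 ∧ t = 0 := by
    intro x r s t h0
    have h1 : A x *ᵥ ![(r : ℂ), s, t, 0] = A x *ᵥ 0 := by
      have h2 : vec (r • col 0 x + s • col 1 x + t • col 2 x) =
          (r : ℂ) • vec (col 0 x) + (s : ℂ) • vec (col 1 x) + (t : ℂ) • vec (col 2 x) := by
        funext i
        fin_cases i <;> simp [vec]
      rw [h0, hv, hv, hv] at h2
      funext i
      have h3 := congrFun h2 i
      have h4 : vec 0 i = 0 := by fin_cases i <;> simp [vec]
      simp only [h4, Pi.add_apply, Pi.smul_apply, smul_eq_mul] at h3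
      simp only [mulVec, dotProduct, Fin.sum_univ_four, cons_val_zero, cons_val_one, cons_val,
        Pi.zero_apply]
      linear_combination -h3
    have h2 := mulVec_injective_iff_isUnit.mpr (hA.un x) h1
    exact ⟨by simpa using congrFun h2 0, by simpa using congrFun h2 1, by simpa using congrFun h2 2⟩
  have v0 : ∀ x, col 0 x ≠ 0 := fun x h0 => one_ne_zero (ind x 1 0 0 (by simp [h0])).1
  have av : Ad (col 0) := ⟨sc 0, fun x => (v0 x).isUnit, pc 0⟩
  have au := av.inv
  set u : (Fin 3 → ℝ) → ℍ := fun x => Ring.inverse (col 0 x) with hu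
  have vu : ∀ x, col 0 x * u x = 1 := fun x => Ring.mul_inverse_cancel _ (av.un x)
  have uv : ∀ x, u x * col 0 x = 1 := fun x => Ring.inverse_mul_cancel _ (av.un x)
  obtain ⟨e₁, e₂, s1, s2, p1, p2, r1, r2, n1, n2, o12, hdec⟩ :=
    gram (a := fun x => (u x * col 1 x).im) (b := fun x => (u x * col 2 x).im)
      (imL.contDiff.comp (au.sm.mul (sc 1))) (imL.contDiff.comp (au.sm.mul (sc 2)))
      (fun k x => by simp only [au.per k x, pc 1 k x])
      (fun k x => by simp only [au.per k x, pc 2 k x]) (fun x => rfl) (fun x => rfl)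
      (fun x s t h0 => by
        refine (ind x (-(s * (u x * col 1 x).re + t * (u x * col 2 x).re)) s t ?_).2
        have e : ∀ j, col j x = col 0 x * (((u x * col j x).re : ℍ) + (u x * col j x).im) :=
          fun j => by rw [Quaternion.re_add_im, ← mul_assoc, vu, one_mul]
        have h1 := congrArg (fun z => col 0 x * z) h0
        simp only [mul_add, mul_smul_comm, mul_zero] at h1
        have e1 := e 1
        have e2 := e 2
        rw [mul_add, Quaternion.mul_coe_eq_smul] at e1 e2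
        generalize (u x * col 1 x).re = a at *
        generalize (u x * col 2 x).re = b at *
        generalize col 0 x * (u x * col 1 x).im = y at *
        generalize col 0 x * (u x * col 2 x).im = z at *
        rw [e1, e2]
        linear_combination (norm := module) h1)
  obtain ⟨q, m, aq, nq, q1, q2⟩ := hs e₁ e₂ s1 s2 p1 p2 r1 r2 n1 n2 o12
  have qq : ∀ x, star (q x) * q x = 1 := fun x => by
    rw [Quaternion.star_mul_self, Quaternion.normSq_eq_norm_mul_self, nq]
    simp
  have ap := aq.inv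
  have pq : ∀ x, Ring.inverse (q x) = star (q x) := fun x => by
    rw [← one_mul (Ring.inverse (q x)), ← qq x, mul_assoc, Ring.mul_inverse_cancel _ (aq.un x),
      mul_one]
  simp only [pq] at ap
  obtain ⟨aR, wR⟩ := rot_ad m
  obtain ⟨aL, wL⟩ := wm_LR ap
  obtain ⟨aU, wU⟩ := wm_LR au
  have aC : Ad fun _ : Fin 3 → ℝ => cj := ad_const cj_unit
  have aT := aR.mul (aL.mul (aC.mul (aL.mul (aC.mul (aU.mul hA)))))
  have hT := wm_upper aT (by
    intro x i j hij
    have e : (rotM (∑ k, m k * x k) * (LR (star (q x)) * (cj * (LR (star (q x)) *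
        (cj * (LR (u x) * A x)))))) i j =
        (rotM (∑ k, m k * x k) *ᵥ vec (star (q x) * (u x * col j x) * q x)) i := by
      have : ∀ M : Matrix (Fin 4) (Fin 4) ℂ, (M * A x) i j = (M *ᵥ vec (col j x)) i := fun M => by
        rw [hv]; rfl
      simp only [← Matrix.mul_assoc]
      rw [this]
      simp only [← mulVec_mulVec, LR_vec, cj_vec, star_mul, star_star, mul_assoc]
    rw [e]
    obtain ⟨s, t, w, d1, d2⟩ := hdec x
    have c1 : star (q x) * e₁ x * q x = ⟨0, 1, 0, 0⟩ := by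
      rw [← q1 x]
      simp only [← mul_assoc, qq x, one_mul]
      rw [mul_assoc, qq x, mul_one]
    have c2 : star (q x) * e₂ x * q x =
        ⟨0, 0, cos (∑ k, m k * x k), sin (∑ k, m k * x k)⟩ := by
      rw [← q2 x]
      simp only [← mul_assoc, qq x, one_mul]
      rw [mul_assoc, qq x, mul_one]
    have c0 : ∀ z : ℍ, star (q x) * z * q x = (z.re : ℍ) + star (q x) * z.im * q x := fun z => by
      conv_lhs => rw [← Quaternion.re_add_im z]
      rw [mul_add, add_mul, Quaternion.mul_coe_eq_smul, smul_mul_assoc, qq x,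
        ← Quaternion.mul_coe_eq_smul, one_mul]
    have f0 : star (q x) * (u x * col 0 x) * q x = 1 := by rw [uv, mul_one, qq]
    have f1 : star (q x) * (u x * col 1 x) * q x = ⟨(u x * col 1 x).re, s, 0, 0⟩ := by
      rw [c0, d1, mul_smul_comm, smul_mul_assoc, c1]
      ext <;> simp
    have f2 : star (q x) * (u x * col 2 x) * q x = ⟨(u x * col 2 x).re, t,
        w * cos (∑ k, m k * x k), w * sin (∑ k, m k * x k)⟩ := by
      rw [c0, d2, mul_add, add_mul, mul_smul_comm, smul_mul_assoc, c1, mul_smul_comm,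
        smul_mul_assoc, c2]
      ext <;> simp
    generalize (∑ k, (m k : ℝ) * x k) = θ at f2 ⊢
    fin_cases i <;> fin_cases j <;> first
      | exact absurd hij (by decide)
      | (simp only [Fin.zero_eta, Fin.mk_one, Fin.reduceFinMk, f0, f1, f2]
         simp [rotM, vec, mulVec, dotProduct, Fin.sum_univ_four, -Complex.ofReal_cos,
          -Complex.ofReal_sin]
         try ring))
  rw [wm_mul aR (aL.mul (aC.mul (aL.mul (aC.mul (aU.mul hA))))),
    wm_mul aL (aC.mul (aL.mul (aC.mul (aU.mul hA)))), wm_mul aC (aL.mul (aC.mul (aU.mul hA))),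
    wm_mul aL (aC.mul (aU.mul hA)), wm_mul aC (aU.mul hA), wm_mul aU hA, wR, wL, wU,
    wm_const] at hT
  obtain ⟨m1, h1⟩ := h.int _ ap
  obtain ⟨m2, h2⟩ := h.int _ au
  refine ⟨-2 * m1 - m2, ?_⟩
  rw [h1, h2] at hT
  push_cast
  linear_combination hT

end Pool.Agent.P.MP_a67bd8_gt.N4
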