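import Pool.Agent.P.MP_a67bd8_gt.N4.Stmt

/-!
Stabilisation: real matrix valued maps of size `n + 1` reduce to size `n` when `n ≥ 4`.
-/

namespace Pool.Agent.P.MP_a67bd8_gt.N4

open MeasureTheory Set Matrix Real
open scoped ContDiff Matrix.Norms.Operator Quaternion

namespace PEvS

/-- a real admissible map with given first column -/
structure Good {n : ℕ} (A : (Fin 3 → ℝ) → Matrix (Fin (n + 1)) (Fin (n + 1)) ℂ)
    (v : (Fin 3 → ℝ) → Fin (n + 1) → ℝ) : Prop where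
  ad : Ad A
  re : ∀ x i j, (A x i j).im = 0
  col : ∀ x i, A x i 0 = (v x i : ℂ)

theorem Good.sm {n : ℕ} {A : (Fin 3 → ℝ) → Matrix (Fin (n + 1)) (Fin (n + 1)) ℂ}
    {v : (Fin 3 → ℝ) → Fin (n + 1) → ℝ} (h : Good A v) (i : Fin (n + 1)) :
    ContDiff ℝ ∞ fun x => v x i := by
  have e : (fun x => v x i) = fun x => Complex.reCLM (A x i 0) := funext fun x => by
    simp [h.col]
  rw [e]
  exact Complex.reCLM.contDiff.comp (contDiff_mat.mp h.ad.sm i 0)

theorem Good.per {n : ℕ} {A : (Fin 3 → ℝ) → Matrix (Fin (n + 1)) (Fin (n + 1)) ℂ}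
    {v : (Fin 3 → ℝ) → Fin (n + 1) → ℝ} (h : Good A v) : Per v := fun k x => by
  funext i
  have := h.col (x + Pi.single k (2 * π)) i
  rw [h.ad.per k x, h.col] at this
  exact_mod_cast this.symm

theorem Good.ne {n : ℕ} {A : (Fin 3 → ℝ) → Matrix (Fin (n + 1)) (Fin (n + 1)) ℂ}
    {v : (Fin 3 → ℝ) → Fin (n + 1) → ℝ} (h : Good A v) (x : Fin 3 → ℝ) : v x ≠ 0 := fun h0 => by
  have h1 := (isUnit_iff_isUnit_det _).mp (h.ad.un x)
  rw [det_eq_zero_of_column_eq_zero 0 fun i => by simp [h.col, h0]] at h1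
  exact not_isUnit_zero h1

theorem step {n : ℕ} {A : (Fin 3 → ℝ) → Matrix (Fin (n + 1)) (Fin (n + 1)) ℂ}
    {v : (Fin 3 → ℝ) → Fin (n + 1) → ℝ} (h : Good A v)
    (a b : (Fin 3 → ℝ) → Fin (n + 1) → ℝ) (ha : ∀ i, ContDiff ℝ ∞ fun x => a x i)
    (hb : ∀ i, ContDiff ℝ ∞ fun x => b x i) (pa : Per a) (pb : Per b)
    (hab : ∀ x, b x ⬝ᵥ a x = 0) :
    ∃ B, Good B (fun x => v x + (b x ⬝ᵥ v x) • a x) ∧ wm B = wm A := by
  let N : (Fin 3 → ℝ) → Matrix (Fin (n + 1)) (Fin (n + 1)) ℂ := fun x =>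
    Matrix.of fun i j => ((a x i * b x j : ℝ) : ℂ)
  have hN : ContDiff ℝ ∞ N := contDiff_mat.mpr fun i j =>
    Complex.ofRealCLM.contDiff.comp ((ha i).mul (hb j))
  have pN : Per N := fun k x => by simp only [N, pa k x, pb k x]
  have h2 : ∀ x, N x * N x = 0 := fun x => by
    ext i j
    have e : (N x * N x) i j = ((a x i * (b x ⬝ᵥ a x) * b x j : ℝ) : ℂ) := by
      simp only [N, mul_apply, of_apply, dotProduct, Finset.mul_sum, Finset.sum_mul]
      push_cast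
      exact Finset.sum_congr rfl fun k _ => by ring
    rw [e, hab]
    simp
  obtain ⟨u1, u2⟩ := wind3_unip (trL (Fin (n + 1))) trL_comm hN pN h2
  refine ⟨fun x => (1 + N x) * A x, ⟨u1.mul h.ad, fun x i j => ?_, fun x i => ?_⟩, ?_⟩
  · rw [add_mul, one_mul, Matrix.add_apply, Complex.add_im, h.re, zero_add, mul_apply, Complex.im_sum]
    refine Finset.sum_eq_zero fun k _ => ?_
    rw [Complex.mul_im, h.re]
    simp only [N, of_apply, Complex.ofReal_im]
    ring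
  · rw [add_mul, one_mul, Matrix.add_apply, mul_apply]
    simp only [N, of_apply, h.col, Pi.add_apply, Pi.smul_apply, smul_eq_mul, dotProduct,
      Finset.sum_mul]
    push_cast
    congr 1
    exact Finset.sum_congr rfl fun k _ => by ring
  · rw [wm_mul u1 h.ad, show wm (fun x => 1 + N x) = 0 from u2, zero_add]

theorem avoid {n : ℕ} (hn : 4 ≤ n) {v : (Fin 3 → ℝ) → Fin (n + 1) → ℝ}
    (hv : ∀ i, ContDiff ℝ ∞ fun x => v x i) :
    ∃ y : Fin (n + 1) → ℝ, y 0 ≠ 0 ∧ ∀ (t : ℝ) x, t • v x ≠ y := by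
  have hc : ContDiff ℝ 1 fun p : ℝ × (Fin 3 → ℝ) => p.1 • v p.2 :=
    (contDiff_fst.smul ((contDiff_pi.mpr hv).comp contDiff_snd)).of_le (by simp)
  have hd := hc.dense_compl_range_of_finrank_lt_finrank (by
    simp only [Module.finrank_prod, Module.finrank_self, Module.finrank_fin_fun]
    omega)
  obtain ⟨y, hy, hy'⟩ := hd.exists_mem_open (U := {y : Fin (n + 1) → ℝ | y 0 ≠ 0})
    (isOpen_ne_fun (continuous_apply 0) continuous_const) ⟨fun _ => 1, one_ne_zero⟩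
  exact ⟨y, hy', fun t x e => hy ⟨(t, x), e⟩⟩

end PEvS

open PEvS in
theorem p_evS (κ : ℂ) (n : ℕ) (hn : 4 ≤ n) (h : Ev κ n) : Ev κ (n + 1) := by
  intro A hA hr
  have g0 : Good A fun x i => (A x i 0).re := ⟨hA, hr, fun x i => by
    apply Complex.ext <;> simp [hr]⟩
  generalize (fun x i => (A x i 0).re) = v at g0
  obtain ⟨y, hy0, hy⟩ := avoid hn g0.sm
  let e : Fin (n + 1) → ℝ := Pi.single 0 1
  have he : ∀ u : Fin (n + 1) → ℝ, e ⬝ᵥ u = u 0 := fun u => by simp [e]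
  obtain ⟨B1, g1, w1⟩ := step g0 (fun _ => e - (y 0)⁻¹ • y) (fun _ => e)
    (fun _ => contDiff_const) (fun _ => contDiff_const) (fun _ _ => rfl) (fun _ _ => rfl)
    fun x => by simp [he, e, hy0]
  have t1 : ∀ x, ∃ i : Fin n, (v x + (e ⬝ᵥ v x) • (e - (y 0)⁻¹ • y)) i.succ ≠ 0 := fun x => by
    by_contra hc
    push Not at hc
    have e1 : v x = (v x 0 * (y 0)⁻¹) • y := by
      funext i
      refine Fin.cases ?_ (fun j => ?_) i
      · simp [hy0]
      · have := hc j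
        simp only [he, Pi.add_apply, Pi.smul_apply, Pi.sub_apply, smul_eq_mul, e,
          Pi.single_eq_of_ne (Fin.succ_ne_zero j)] at this ⊢
        linarith
    by_cases h0 : v x 0 = 0
    · exact g0.ne x (by rw [e1, h0, zero_mul, zero_smul])
    · refine hy (y 0 * (v x 0)⁻¹) x ?_
      rw [e1, smul_smul]
      simp only [Pi.smul_apply, smul_eq_mul]
      rw [show y 0 * (v x 0 * (y 0)⁻¹ * y 0)⁻¹ * (v x 0 * (y 0)⁻¹) = 1 by field_simp, one_smul]
  obtain ⟨v1, g1, t1⟩ : ∃ v1, Good B1 v1 ∧ ∀ x, ∃ i : Fin n, v1 x i.succ ≠ 0 := ⟨_, g1, t1⟩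
  let w : (Fin 3 → ℝ) → Fin (n + 1) → ℝ := fun x => v1 x - v1 x 0 • e
  have w0 : ∀ x, w x 0 = 0 := fun x => by simp [w, e]
  have ws : ∀ x (i : Fin n), w x i.succ = v1 x i.succ := fun x i => by simp [w, e]
  have sw : ∀ i, ContDiff ℝ ∞ fun x => w x i := fun i =>
    (g1.sm i).sub ((g1.sm 0).mul contDiff_const)
  have pw : Per w := fun k x => by simp only [w, g1.per k x]
  have nw : ∀ x, w x ⬝ᵥ w x ≠ 0 := fun x h0 => by
    obtain ⟨i, hi⟩ := t1 x
    rw [dotProduct_self_eq_zero] at h0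
    exact hi (by rw [← ws, h0]; rfl)
  have we : ∀ x, w x ⬝ᵥ e = 0 := fun x => by rw [dotProduct_comm, he, w0]
  have wv : ∀ x, w x ⬝ᵥ v1 x = w x ⬝ᵥ w x := fun x => by
    conv_rhs => rw [show w x ⬝ᵥ w x = w x ⬝ᵥ (v1 x - v1 x 0 • e) from rfl]
    rw [dotProduct_sub, dotProduct_smul, we, smul_zero, sub_zero]
  have sq : ContDiff ℝ ∞ fun x => w x ⬝ᵥ w x := ContDiff.sum fun i _ => (sw i).mul (sw i)
  obtain ⟨B2, g2, w2⟩ := step g1 (fun x => (1 - v1 x 0) • e) (fun x => (w x ⬝ᵥ w x)⁻¹ • w x)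
    (fun _ => (contDiff_const.sub (g1.sm 0)).mul contDiff_const)
    (fun i => (sq.inv nw).mul (sw i)) (fun k x => by simp only [g1.per k x])
    (fun k x => by simp only [pw k x])
    fun x => by rw [smul_dotProduct, dotProduct_smul, we, smul_zero, smul_zero]
  simp only [smul_dotProduct, wv, smul_eq_mul, inv_mul_cancel₀ (nw _), one_smul] at g2
  obtain ⟨B3, g3, w3⟩ := step g2 (fun x => -w x) (fun _ => e) (fun i => (sw i).neg)
    (fun _ => contDiff_const) (fun k x => by simp only [pw k x]) (fun _ _ => rfl)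
    fun x => by rw [he, Pi.neg_apply, w0, neg_zero]
  obtain ⟨a4, w4⟩ := wm_col0 g3.ad fun x i => by
    rw [g3.col]
    simp [he, ws, e]
  obtain ⟨m, hm⟩ := h _ a4 fun x i j => g3.re x _ _
  exact ⟨m, by rw [← w1, ← w2, ← w3, w4, hm]⟩

end Pool.Agent.P.MP_a67bd8_gt.N4
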