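import Pool.Agent.P.MP_a67bd8_gt.N4.Stmt

/-!
Differential properties of the explicit two valued cubic.
-/

namespace Pool.Agent.P.MP_a67bd8_gt.N4

open MeasureTheory Set Matrix Real
open scoped ContDiff Matrix.Norms.Operator Quaternion

namespace PExA

section Calc

variable {f g : (Fin 3 → ℝ) → ℝ} {p : Fin 3 → ℝ}

theorem d_add (hf : DifferentiableAt ℝ f p) (hg : DifferentiableAt ℝ g p) (k : Fin 3) :
    pd (fun q => f q + g q) k p = pd f k p + pd g k p := by
  unfold pd
  rw [fderiv_fun_add hf hg]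
  rfl

theorem d_sub (hf : DifferentiableAt ℝ f p) (hg : DifferentiableAt ℝ g p) (k : Fin 3) :
    pd (fun q => f q - g q) k p = pd f k p - pd g k p := by
  unfold pd
  rw [fderiv_fun_sub hf hg]
  rfl

theorem d_neg (k : Fin 3) : pd (fun q => -f q) k p = -pd f k p := by
  unfold pd
  rw [fderiv_fun_neg]
  rfl

theorem d_mul (hf : DifferentiableAt ℝ f p) (hg : DifferentiableAt ℝ g p) (k : Fin 3) :
    pd (fun q => f q * g q) k p = pd f k p * g p + f p * pd g k p := pd_mul hf hg k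

theorem d_const (c : ℝ) (k : Fin 3) : pd (fun _ : Fin 3 → ℝ => c) k p = 0 := by
  simp [pd]

theorem d_sin (j k : Fin 3) :
    pd (fun q : Fin 3 → ℝ => sin (q j)) k p = if j = k then cos (p j) else 0 := by
  have h := ((hasDerivAt_sin (p j)).comp_hasFDerivAt p (hasFDerivAt_apply (𝕜 := ℝ) j p)).fderiv
  refine (congrArg (fun T => T (Pi.single k 1)) h).trans ?_
  by_cases e : j = k <;> simp [e]

theorem d_cos (j k : Fin 3) :
    pd (fun q : Fin 3 → ℝ => cos (q j)) k p = if j = k then -sin (p j) else 0 := by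
  have h := ((hasDerivAt_cos (p j)).comp_hasFDerivAt p (hasFDerivAt_apply (𝕜 := ℝ) j p)).fderiv
  refine (congrArg (fun T => T (Pi.single k 1)) h).trans ?_
  by_cases e : j = k <;> simp [e]

theorem cd_vec {f g h : (Fin 3 → ℝ) → ℝ} (hf : ContDiff ℝ ∞ f) (hg : ContDiff ℝ ∞ g)
    (hh : ContDiff ℝ ∞ h) : ContDiff ℝ ∞ fun q => ![f q, g q, h q] :=
  contDiff_pi.2 fun i => by
    fin_cases i
    exacts [hf, hg, hh]

theorem d_vec {f g h : (Fin 3 → ℝ) → ℝ} (hf : DifferentiableAt ℝ f p)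
    (hg : DifferentiableAt ℝ g p) (hh : DifferentiableAt ℝ h p) (k : Fin 3) :
    pd (fun q => ![f q, g q, h q]) k p = ![pd f k p, pd g k p, pd h k p] := by
  have hd : DifferentiableAt ℝ (fun q => ![f q, g q, h q]) p :=
    differentiableAt_pi.2 fun i => by
      fin_cases i
      exacts [hf, hg, hh]
  funext i
  refine (pd_clm (ContinuousLinearMap.proj (R := ℝ) (φ := fun _ : Fin 3 => ℝ) i) hd k).symm.trans ?_
  fin_cases i <;> rfl

theorem vec_eq {a b c a' b' c' : ℝ} (h1 : a = a') (h2 : b = b') (h3 : c = c') :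
    ![a, b, c] = ![a', b', c'] := by rw [h1, h2, h3]

end Calc

theorem smP : ContDiff ℝ ∞ PP := by
  unfold PP
  apply cd_vec <;> fun_prop

theorem smg : ContDiff ℝ ∞ gg := by
  unfold gg a1 b1 a2 b2
  apply cd_vec <;> fun_prop

theorem HH_eq : HH = fun z => 3⁻¹ * (gg z 0 * PP z 0 + gg z 1 * PP z 1 + gg z 2 * PP z 2) := by
  funext z
  simp only [HH, dotProduct, Fin.sum_univ_three]
  ring

theorem smH : ContDiff ℝ ∞ HH := by
  have h1 := smP
  have h2 := smg
  rw [HH_eq]
  fun_prop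

theorem dP1 : pd PP 1 = fun z => ![-sin (z 1), 0, cos (z 1) * sin (z 2)] := by
  funext z
  unfold PP
  simp (disch := fun_prop) [d_vec, d_mul, d_sin, d_cos]

theorem dP2 : pd PP 2 = fun z => ![0, -sin (z 2), sin (z 1) * cos (z 2)] := by
  funext z
  unfold PP
  simp (disch := fun_prop) [d_vec, d_mul, d_sin, d_cos]

/-- the first derivative of the gradient -/
noncomputable def G1 (z : Fin 3 → ℝ) : Fin 3 → ℝ :=
  ![-(-sin (z 1) * a1 z + cos (z 1) * ((1 + cos (z 0)) * (cos (z 1) * cos (z 2)))) -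
      ((cos (z 1) + sin (z 1) * sin (z 2)) * cos (z 1) + a2 z * -sin (z 1) +
        ((cos (z 1) - sin (z 1) * sin (z 2)) * (sin (z 1) * sin (z 2)) +
          b2 z * (cos (z 1) * sin (z 2)))),
    (1 + cos (z 0)) * (cos (z 1) * cos (z 2)) * cos (z 2) -
      ((1 + sin (z 0)) * (cos (z 1) * cos (z 2)) * (sin (z 1) * sin (z 2)) +
        b1 z * (cos (z 1) * sin (z 2))) + (cos (z 1) + sin (z 1) * sin (z 2)) * cos (z 2),
    -((1 + cos (z 0)) * (cos (z 1) * cos (z 2)) * (sin (z 1) * sin (z 2)) +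
        a1 z * (cos (z 1) * sin (z 2)) + (1 + sin (z 0)) * (cos (z 1) * cos (z 2)) * cos (z 2)) -
      ((cos (z 1) - sin (z 1) * sin (z 2)) * cos (z 1) + b2 z * -sin (z 1) -
        ((cos (z 1) + sin (z 1) * sin (z 2)) * (sin (z 1) * sin (z 2)) +
          a2 z * (cos (z 1) * sin (z 2))))]

/-- the derivative of `a1` in the last angle -/
noncomputable def da (z : Fin 3 → ℝ) : ℝ :=
  -((1 + cos (z 0)) * (sin (z 1) * sin (z 2))) - (1 + sin (z 0)) * cos (z 2)

/-- the derivative of `b1` in the last angle -/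
noncomputable def db (z : Fin 3 → ℝ) : ℝ :=
  (1 + cos (z 0)) * cos (z 2) - (1 + sin (z 0)) * (sin (z 1) * sin (z 2))

/-- the second derivative of the gradient -/
noncomputable def G2 (z : Fin 3 → ℝ) : Fin 3 → ℝ :=
  ![-(cos (z 1) * da z) - (-(cos (z 1) * cos (z 2)) * cos (z 1) +
      (cos (z 1) * cos (z 2) * (sin (z 1) * sin (z 2)) + b2 z * (sin (z 1) * cos (z 2)))),
    da z * cos (z 2) + a1 z * -sin (z 2) -
      (db z * (sin (z 1) * sin (z 2)) + b1 z * (sin (z 1) * cos (z 2))) +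
      (-(cos (z 1) * cos (z 2)) * cos (z 2) + a2 z * -sin (z 2)),
    -(da z * (sin (z 1) * sin (z 2)) + a1 z * (sin (z 1) * cos (z 2)) +
        (db z * cos (z 2) + b1 z * -sin (z 2))) -
      (cos (z 1) * cos (z 2) * cos (z 1) -
        (-(cos (z 1) * cos (z 2)) * (sin (z 1) * sin (z 2)) + a2 z * (sin (z 1) * cos (z 2))))]

theorem dg1 : pd gg 1 = G1 := by
  funext z
  unfold gg G1 a1 b1 a2 b2
  simp (disch := fun_prop) only [d_vec, d_add, d_sub, d_neg, d_mul, d_const, d_sin, d_cos]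
  simp only [Fin.reduceEq, if_true, if_false]
  apply vec_eq <;> ring

theorem dg2 : pd gg 2 = G2 := by
  funext z
  unfold gg G2 da db a1 b1 a2 b2
  simp (disch := fun_prop) only [d_vec, d_add, d_sub, d_neg, d_mul, d_const, d_sin, d_cos]
  simp only [Fin.reduceEq, if_true, if_false]
  apply vec_eq <;> ring

theorem dH (k : Fin 3) (z : Fin 3 → ℝ) :
    pd HH k z = 3⁻¹ * (pd gg k z ⬝ᵥ PP z + gg z ⬝ᵥ pd PP k z) := by
  have h1 : DifferentiableAt ℝ PP z := smP.differentiable (by simp) z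
  have h2 : DifferentiableAt ℝ gg z := smg.differentiable (by simp) z
  have e1 : ∀ i, pd (fun q => PP q i) k z = pd PP k z i := fun i =>
    pd_clm (ContinuousLinearMap.proj (R := ℝ) (φ := fun _ : Fin 3 => ℝ) i) h1 k
  have e2 : ∀ i, pd (fun q => gg q i) k z = pd gg k z i := fun i =>
    pd_clm (ContinuousLinearMap.proj (R := ℝ) (φ := fun _ : Fin 3 => ℝ) i) h2 k
  rw [HH_eq]
  simp (disch := fun_prop) only [d_add, d_mul, d_const, e1, e2, dotProduct, Fin.sum_univ_three]
  ring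

theorem per_cos (j k : Fin 3) (x : Fin 3 → ℝ) :
    cos ((x + Pi.single k (2 * π) : Fin 3 → ℝ) j) = cos (x j) := by
  by_cases e : j = k <;> simp [e]

theorem per_sin (j k : Fin 3) (x : Fin 3 → ℝ) :
    sin ((x + Pi.single k (2 * π) : Fin 3 → ℝ) j) = sin (x j) := by
  by_cases e : j = k <;> simp [e]

theorem perP : Per PP := fun k x => by
  simp only [PP, per_cos, per_sin]

theorem perg : Per gg := fun k x => by
  simp only [gg, a1, b1, a2, b2, per_cos, per_sin]

theorem br_G1 {z : Fin 3 → ℝ} (h : Br z) : G1 z =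
    ![-cos (z 2) * (1 + cos (z 2) + cos (z 0)), cos (z 1) * (1 + cos (z 2) + cos (z 0)),
      -cos (z 1) * (1 + cos (z 1) + sin (z 0))] := by
  have h1 := sin_sq_add_cos_sq (z 1)
  have h2 := sin_sq_add_cos_sq (z 2)
  rw [h.1] at h1
  rw [h.2] at h2
  funext i
  fin_cases i <;> simp [G1, a1, b1, a2, b2, h.1, h.2] <;> grind

theorem br_G2 {z : Fin 3 → ℝ} (h : Br z) : G2 z =
    ![cos (z 1) * cos (z 2) * (1 + cos (z 1) + sin (z 0)), -(1 + cos (z 1) + sin (z 0)),
      -(1 + cos (z 2) + cos (z 0))] := by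
  have h1 := sin_sq_add_cos_sq (z 1)
  have h2 := sin_sq_add_cos_sq (z 2)
  rw [h.1] at h1
  rw [h.2] at h2
  funext i
  fin_cases i <;> simp [G2, da, db, a1, b1, a2, b2, h.1, h.2] <;> grind

theorem pm {s c : ℝ} (h : s ^ 2 + c ^ 2 = 1) (hs : s = 0) : c = 1 ∨ c = -1 := by
  have : (c - 1) * (c + 1) = 0 := by
    rw [hs] at h
    linear_combination h
  rcases mul_eq_zero.1 this with k | k
  · exact Or.inl (by linarith)
  · exact Or.inr (by linarith)

theorem br_ctr : Br ctr := ⟨sin_pi, sin_pi⟩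

theorem br_zero {z : Fin 3 → ℝ} (h : Br z) : Br ![0, z 1, z 2] := h

theorem eq_pi {x : ℝ} (h0 : 0 ≤ x) (h1 : x ≤ 2 * π) (h : cos x = -1) : x = π := by
  have := (cos_eq_one_iff_of_lt_of_lt (x := x - π) (by linarith [pi_pos])
    (by linarith [pi_pos])).1 (by rw [cos_sub_pi, h, neg_neg])
  linarith

theorem d0G1 : pd G1 0 ctr = ![0, 0, -1] := by
  unfold G1 a1 b1 a2 b2
  simp (disch := fun_prop) only [d_vec, d_add, d_sub, d_neg, d_mul, d_const, d_sin, d_cos]
  simp [ctr]

end PExA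

open PExA

theorem p_exA : ExA PP gg HH where
  smP := smP
  smg := smg
  smH := smH
  perP := perP
  perg := perg
  perH := fun k x => by simp only [HH, perP k x, perg k x]
  ne := fun z h => by
    have h0 : cos (z 1) = 0 := congrFun h 0
    have h1 : cos (z 2) = 0 := congrFun h 1
    have h2 : sin (z 1) * sin (z 2) = 0 := congrFun h 2
    have h3 := sin_sq_add_cos_sq (z 1)
    have h4 := sin_sq_add_cos_sq (z 2)
    rcases mul_eq_zero.1 h2 with k | k
    · simp [h0, k] at h3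
    · simp [h1, k] at h4
  ind := fun z z' h1 h2 => by simp only [PP, h1, h2]
  gP := fun z => by
    unfold HH
    ring
  g1 := fun z => by
    have h1 := sin_sq_add_cos_sq (z 1)
    have h2 := sin_sq_add_cos_sq (z 2)
    rw [dH, dg1, dP1]
    simp [dotProduct, Fin.sum_univ_three, G1, gg, PP, a1, b1, a2, b2]
    grind
  g2 := fun z => by
    have h1 := sin_sq_add_cos_sq (z 1)
    have h2 := sin_sq_add_cos_sq (z 2)
    rw [dH, dg2, dP2]
    simp [dotProduct, Fin.sum_univ_three, G2, da, db, gg, PP, a1, b1, a2, b2]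
    grind
  reg := fun z a b c h => by
    have h1 := sin_sq_add_cos_sq (z 1)
    have h2 := sin_sq_add_cos_sq (z 2)
    rw [dP1, dP2] at h
    have e0 : a * -sin (z 1) + b * 0 = c * cos (z 1) := congrFun h 0
    have e1 : a * 0 + b * -sin (z 2) = c * cos (z 2) := congrFun h 1
    have e2 : a * (cos (z 1) * sin (z 2)) + b * (sin (z 1) * cos (z 2)) =
        c * (sin (z 1) * sin (z 2)) := congrFun h 2
    by_cases hJ : sin (z 2) ^ 2 + (cos (z 2) * sin (z 1)) ^ 2 = 0
    · have k2 : sin (z 2) = 0 := by nlinarith [sq_nonneg (sin (z 2)), sq_nonneg (cos (z 2) * sin (z 1))]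
      have k1 : sin (z 1) ^ 2 = 0 := by grind
      exact Or.inr ⟨pow_eq_zero_iff two_ne_zero |>.1 k1, k2⟩
    · have ka : a * (sin (z 2) ^ 2 + (cos (z 2) * sin (z 1)) ^ 2) = 0 := by grind
      have kb : b * (sin (z 2) ^ 2 + (cos (z 2) * sin (z 1)) ^ 2) = 0 := by grind
      exact Or.inl ⟨(mul_eq_zero.1 ka).resolve_right hJ, (mul_eq_zero.1 kb).resolve_right hJ⟩
  br0 := fun z h => by
    funext i
    fin_cases i <;> simp [gg, a1, b1, a2, b2, h.1, h.2]
  br1 := fun z a b c hb h => by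
    have h0 := sin_sq_add_cos_sq (z 0)
    rw [dg1, dg2, br_G1 hb, br_G2 hb] at h
    have e0 := congrFun h 0
    have e1 := congrFun h 1
    have e2 := congrFun h 2
    simp [PP, hb.1] at e0 e1 e2
    rcases pm (sin_sq_add_cos_sq (z 1)) hb.1 with k1 | k1 <;>
      rcases pm (sin_sq_add_cos_sq (z 2)) hb.2 with k2 | k2 <;> rw [k1, k2] at e0 e1 e2
    · have hJ : 0 < (2 + cos (z 0)) ^ 2 + (2 + sin (z 0)) ^ 2 := by
        nlinarith [neg_one_le_cos (z 0), neg_one_le_sin (z 0)]
      exact ⟨(mul_eq_zero.1 (by grind)).resolve_right hJ.ne',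
        (mul_eq_zero.1 (by grind)).resolve_right hJ.ne'⟩
    · have hJ : 0 < cos (z 0) ^ 2 + (2 + sin (z 0)) ^ 2 := by
        nlinarith [neg_one_le_cos (z 0), neg_one_le_sin (z 0)]
      exact ⟨(mul_eq_zero.1 (by grind)).resolve_right hJ.ne',
        (mul_eq_zero.1 (by grind)).resolve_right hJ.ne'⟩
    · have hJ : 0 < (2 + cos (z 0)) ^ 2 + sin (z 0) ^ 2 := by
        nlinarith [neg_one_le_cos (z 0), neg_one_le_sin (z 0)]
      exact ⟨(mul_eq_zero.1 (by grind)).resolve_right hJ.ne',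
        (mul_eq_zero.1 (by grind)).resolve_right hJ.ne'⟩
    · constructor <;> grind

theorem p_exC : ExC PP gg where
  deg1 := fun z hz t c hb ht h => by
    have h0 := sin_sq_add_cos_sq (z 0)
    rw [dg1, br_G1 hb, br_G1 (br_zero hb)] at h
    have e0 := congrFun h 0
    have e1 := congrFun h 1
    have e2 := congrFun h 2
    simp [PP, hb.1] at e0 e1 e2
    have b0 := mul_nonneg ht.le (neg_le_iff_add_nonneg.1 (neg_one_le_cos (z 0)))
    have b1 := mul_nonneg ht.le (neg_le_iff_add_nonneg.1 (neg_one_le_sin (z 0)))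
    have key : cos (z 0) = -1 ∧ cos (z 1) = -1 ∧ cos (z 2) = -1 := by
      rcases pm (sin_sq_add_cos_sq (z 1)) hb.1 with k1 | k1 <;>
        rcases pm (sin_sq_add_cos_sq (z 2)) hb.2 with k2 | k2 <;> rw [k1, k2] at e0 e1 <;>
        rw [k1] at e2
      · exfalso
        nlinarith
      · exfalso
        nlinarith
      · exfalso
        nlinarith
      · have s0 : sin (z 0) = 0 := (mul_eq_zero.1 (by linarith : t * sin (z 0) = 0)).resolve_left ht.ne'
        refine ⟨(pm h0 s0).resolve_left fun k => ?_, k1, k2⟩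
        rw [k] at e0 e1
        linarith
    funext i
    refine eq_pi (hz.1 i) (hz.2 i) ?_
    fin_cases i
    exacts [key.1, key.2.1, key.2.2]
  deg2 := by
    refine ⟨?_, ?_, ?_⟩
    · rw [dg1, br_G1 br_ctr, br_G1 (z := ![0, π, π]) ⟨sin_pi, sin_pi⟩]
      funext i
      fin_cases i <;> simp [ctr]
    · rw [dP1]
      funext i
      fin_cases i <;> simp [ctr]
    · rw [dP2]
      funext i
      fin_cases i <;> simp [ctr]
  deg3 := fun a b c h => by
    rw [dP1] at h
    simp (disch := fun_prop) only [d_vec, d_neg, d_mul, d_const, d_sin, d_cos] at h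
    have e0 := congrFun h 0
    have e1 := congrFun h 1
    have e2 := congrFun h 2
    simp [PP, ctr] at e0 e1 e2
    exact ⟨by linarith, e2⟩
  deg4 := fun a b c h => by
    rw [dg1, d0G1, br_G1 (z := ![0, π, π]) ⟨sin_pi, sin_pi⟩] at h
    have e0 := congrFun h 0
    have e1 := congrFun h 1
    have e2 := congrFun h 2
    simp [PP, ctr] at e0 e1 e2
    exact ⟨by linarith, e2⟩

end Pool.Agent.P.MP_a67bd8_gt.N4
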