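import Pool.Agent.P.MP_a67bd8_gt.N4.Stmt

/-!
A smoothing of the fundamental field, and the winding number of a quaternion valued map as the
integral of a determinant.
-/

namespace Pool.Agent.P.MP_a67bd8_gt.N4

open MeasureTheory Set Matrix Real
open scoped ContDiff Matrix.Norms.Operator Quaternion

namespace PField

/-- the bump -/
noncomputable def ph (s : ℝ) : ℝ := expNegInvGlue (1 - s)

theorem ph_smooth : ContDiff ℝ ∞ ph :=
  expNegInvGlue.contDiff.comp (contDiff_const.sub contDiff_id)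

theorem ph_nonneg (s : ℝ) : 0 ≤ ph s := expNegInvGlue.nonneg _

theorem ph_zero {s : ℝ} (h : 1 ≤ s) : ph s = 0 := expNegInvGlue.zero_of_nonpos (by linarith)

theorem ph_pos {s : ℝ} (h : s < 1) : 0 < ph s := expNegInvGlue.pos_of_pos (by linarith)

theorem ph_anti : Antitone ph := fun a b h => expNegInvGlue.monotone (by linarith)

theorem dph_zero {s : ℝ} (h : 1 ≤ s) : deriv ph s = 0 :=
  IsLocalMin.deriv_eq_zero (Filter.Eventually.of_forall fun t => by
    rw [ph_zero h]; exact ph_nonneg t)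

theorem m_pos {s : ℝ} (h : 0 ≤ s) : 0 < s + ph s := by
  rcases lt_or_ge s 1 with h1 | h1
  · linarith [ph_pos h1]
  · linarith [ph_nonneg s]

theorem dot_nonneg (y : Fin 4 → ℝ) : 0 ≤ y ⬝ᵥ y :=
  Finset.sum_nonneg fun i _ => mul_self_nonneg (y i)

theorem dot_smooth : ContDiff ℝ ∞ fun y : Fin 4 → ℝ => y ⬝ᵥ y := by
  unfold dotProduct
  fun_prop

/-- the radial factor -/
noncomputable def cc (y : Fin 4 → ℝ) : ℝ := ((y ⬝ᵥ y + ph (y ⬝ᵥ y)) ^ 2)⁻¹

theorem cc_smooth : ContDiff ℝ ∞ cc :=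
  ((dot_smooth.add (ph_smooth.comp dot_smooth)).pow 2).inv fun y =>
    pow_ne_zero 2 (m_pos (dot_nonneg y)).ne'

/-- the field -/
noncomputable def VV (y : Fin 4 → ℝ) : Fin 4 → ℝ := cc y • y

theorem VV_smooth : ContDiff ℝ ∞ VV := cc_smooth.smul contDiff_id

theorem pd_coord (i j : Fin 4) (y : Fin 4 → ℝ) :
    pd (fun q : Fin 4 → ℝ => q j) i y = (Pi.single i 1 : Fin 4 → ℝ) j := by
  unfold pd
  exact congrArg (fun T => T (Pi.single i 1))
    (ContinuousLinearMap.proj (R := ℝ) (φ := fun _ : Fin 4 => ℝ) j).hasFDerivAt.fderiv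

theorem pd_line {f : (Fin 4 → ℝ) → ℝ} {y : Fin 4 → ℝ} (hf : DifferentiableAt ℝ f y) (i : Fin 4)
    {d : ℝ} (h : HasDerivAt (fun t : ℝ => f (y + t • Pi.single i 1)) d 0) : pd f i y = d := by
  have h1 : HasDerivAt (fun t : ℝ => y + t • (Pi.single i 1 : Fin 4 → ℝ)) (Pi.single i 1) 0 := by
    simpa using ((hasDerivAt_id (0 : ℝ)).smul_const (Pi.single i 1 : Fin 4 → ℝ)).const_add y
  have h2 : HasFDerivAt f (fderiv ℝ f y) (y + (0 : ℝ) • (Pi.single i 1 : Fin 4 → ℝ)) := by
    simpa using hf.hasFDerivAt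
  exact (h2.comp_hasDerivAt (0 : ℝ) h1).unique h

theorem pd_cc (i : Fin 4) (y : Fin 4 → ℝ) : pd cc i y =
    -(2 * (1 + deriv ph (y ⬝ᵥ y)) * (2 * y i)) / (y ⬝ᵥ y + ph (y ⬝ᵥ y)) ^ 3 := by
  have hm := (m_pos (dot_nonneg y)).ne'
  have e : ∀ t : ℝ, (y + t • (Pi.single i 1 : Fin 4 → ℝ)) ⬝ᵥ (y + t • Pi.single i 1) =
      y ⬝ᵥ y + (2 * y i * t + t * t) := fun t => by
    simp [add_dotProduct, dotProduct_add]
    ring
  have h1 : HasDerivAt (fun t : ℝ => y ⬝ᵥ y + (2 * y i * t + t * t)) (2 * y i) 0 := by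
    simpa using (((hasDerivAt_id (0 : ℝ)).const_mul (2 * y i)).add
      ((hasDerivAt_id (0 : ℝ)).mul (hasDerivAt_id (0 : ℝ)))).const_add (y ⬝ᵥ y)
  have h2 : HasDerivAt ph (deriv ph (y ⬝ᵥ y)) (y ⬝ᵥ y + (2 * y i * 0 + 0 * 0)) := by
    simpa using (ph_smooth.differentiable (by simp) (y ⬝ᵥ y)).hasDerivAt
  have h3 := ((h1.add (h2.comp (0 : ℝ) h1)).pow 2).inv (by simpa using hm)
  refine pd_line (cc_smooth.differentiable (by simp) y) i ?_
  simp only [cc, e]
  refine h3.congr_deriv ?_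
  simp only [Pi.pow_apply, Pi.add_apply, Function.comp_apply, mul_zero, add_zero]
  norm_num
  field_simp

theorem dv_VV (y : Fin 4 → ℝ) : dv VV y =
    4 * (ph (y ⬝ᵥ y) - y ⬝ᵥ y * deriv ph (y ⬝ᵥ y)) / (y ⬝ᵥ y + ph (y ⬝ᵥ y)) ^ 3 := by
  have hm := (m_pos (dot_nonneg y)).ne'
  have e : ∀ i, pd VV i y i = pd cc i y * y i + cc y := fun i => by
    have h1 := pd_clm (ContinuousLinearMap.proj (R := ℝ) (φ := fun _ : Fin 4 => ℝ) i)
      (VV_smooth.differentiable (by simp) y) i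
    have h2 := pd_mul (cc_smooth.differentiable (by simp) y)
      (differentiableAt_apply (𝕜 := ℝ) i y) i
    rw [pd_coord] at h2
    simp only [Pi.single_eq_same, mul_one] at h2
    exact h1.symm.trans h2
  have hs : y ⬝ᵥ y = y 0 * y 0 + y 1 * y 1 + y 2 * y 2 + y 3 * y 3 := by
    simp [dotProduct, Fin.sum_univ_four]
  simp only [dv, e, pd_cc, cc, Fin.sum_univ_four]
  generalize deriv ph (y ⬝ᵥ y) = d at *
  generalize ph (y ⬝ᵥ y) = p at *
  field_simp
  rw [hs]
  ring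

theorem dv_zero {y : Fin 4 → ℝ} (h : 1 ≤ y ⬝ᵥ y) : dv VV y = 0 := by
  rw [dv_VV, ph_zero h, dph_zero h]
  simp

theorem dv_nonneg (y : Fin 4 → ℝ) : 0 ≤ dv VV y := by
  rw [dv_VV]
  have h1 : deriv ph (y ⬝ᵥ y) ≤ 0 := ph_anti.deriv_nonpos
  have h2 := mul_nonpos_of_nonneg_of_nonpos (dot_nonneg y) h1
  exact div_nonneg (by linarith [ph_nonneg (y ⬝ᵥ y)]) (pow_pos (m_pos (dot_nonneg y)) 3).le

theorem dv_cont : Continuous (dv VV) :=
  continuous_finsetSum _ fun i _ =>
    (continuous_apply i).comp (contDiff_pd VV_smooth i).continuous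

theorem dv_supp : HasCompactSupport (dv VV) := by
  refine HasCompactSupport.intro (isCompact_closedBall 0 1) fun y hy => dv_zero ?_
  by_contra h
  refine hy (mem_closedBall_zero_iff.mpr ((pi_norm_le_iff_of_nonneg zero_le_one).mpr fun i => ?_))
  have h1 : y i * y i ≤ y ⬝ᵥ y :=
    Finset.single_le_sum (fun j _ => mul_self_nonneg (y j)) (Finset.mem_univ i)
  rw [Real.norm_eq_abs]
  exact abs_le_one_iff_mul_self_le_one.mpr (by linarith [not_le.mp h])

theorem alg (a b c d : ℍ) :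
    (star a * b * (star a * c) * (star a * d)).re - (star a * b * (star a * d) * (star a * c)).re =
      -2 * (a.re ^ 2 + a.imI ^ 2 + a.imJ ^ 2 + a.imK ^ 2) *
        (Matrix.of ![![a.re, a.imI, a.imJ, a.imK], ![b.re, b.imI, b.imJ, b.imK],
          ![c.re, c.imI, c.imJ, c.imK], ![d.re, d.imI, d.imJ, d.imK]]).det := by
  simp [det_succ_row_zero, Fin.sum_univ_succ, Fin.succAbove]
  ring

/-- the coordinates -/
noncomputable def co : ℍ →L[ℝ] Fin 4 → ℝ :=
  LinearMap.toContinuousLinearMap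
    { toFun := fun a => ![a.re, a.imI, a.imJ, a.imK]
      map_add' := fun a b => by
        funext i
        fin_cases i <;> simp
      map_smul' := fun c a => by
        funext i
        fin_cases i <;> simp }

theorem co_apply (a : ℍ) : co a = ![a.re, a.imI, a.imJ, a.imK] := rfl

end PField

open PField

theorem p_field : S_Field := by
  refine ⟨VV, VV_smooth, fun y h => ?_, fun y h => dv_zero h, ne_of_gt ?_⟩
  · rw [VV, cc, ph_zero h, add_zero]
  · refine dv_cont.integral_pos_of_hasCompactSupport_nonneg_nonzero (x := 0) dv_supp dv_nonneg ?_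
    have h := ph_pos zero_lt_one
    rw [dv_VV]
    simp [h.ne']

theorem p_jac : S_Jac := by
  intro v hv u hu
  have hu' : u = fun x => co (v x) := funext hu
  rw [wq, wind3, ← integral_complex_ofReal, ← integral_const_mul]
  refine integral_congr_ae (Filter.Eventually.of_forall fun x => ?_)
  have hp : ∀ k, pd u k x = co (pd v k x) := fun k => by
    rw [hu']
    exact pd_clm co (hv.1.differentiable (by simp) x) k
  have h0 : v x ≠ 0 := (hv.un x).ne_zero
  have hN : Quaternion.normSq (v x) ≠ 0 := Quaternion.normSq_ne_zero.mpr h0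
  have hm : ∀ k, mc v k x = (Quaternion.normSq (v x))⁻¹ • (star (v x) * pd v k x) := fun k => by
    rw [mc, Ring.inverse_eq_inv', Quaternion.inv_def, smul_mul_assoc]
  have hd : u x ⬝ᵥ u x = Quaternion.normSq (v x) := by
    rw [hu, Quaternion.normSq_def']
    simp [dotProduct, Fin.sum_univ_four]
    ring
  have ha := alg (v x) (pd v 0 x) (pd v 1 x) (pd v 2 x)
  rw [← Quaternion.normSq_def'] at ha
  simp only [om3, t3, reQ_apply, hm, hp, hd, smul_mul_assoc, mul_smul_comm, Quaternion.re_smul,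
    smul_eq_mul, co_apply]
  rw [hu]
  generalize (Matrix.of _ : Matrix (Fin 4) (Fin 4) ℝ).det = D at ha ⊢
  rw [← Complex.ofReal_sub, show (-2 : ℂ) = ((-2 : ℝ) : ℂ) by norm_num, ← Complex.ofReal_mul,
    Complex.ofReal_inj]
  field_simp
  linear_combination ha

end Pool.Agent.P.MP_a67bd8_gt.N4
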