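import Pool.Agent.P.MP_a67bd8_gt.N4.Stmt

/-!
Critical values stay away from zero.
-/

namespace Pool.Agent.P.MP_a67bd8_gt.N4

open MeasureTheory Set Matrix Real Filter Topology
open scoped ContDiff Matrix.Norms.Operator Quaternion

namespace PGapB

variable {P g : (Fin 3 → ℝ) → Fin 3 → ℝ} {H : (Fin 3 → ℝ) → ℝ}

theorem loc (h : ExA P g H) {z₀ : Fin 3 → ℝ} (hz : Br z₀) :
    ∀ᶠ p : (Fin 3 → ℝ) × ℝ in 𝓝 (z₀, 0), g p.1 = p.2 • P p.1 → Br p.1 := by
  let Φ : (Fin 3 → ℝ) × ℝ → (Fin 3 → ℝ) × ℝ := fun p => (g p.1 - p.2 • P p.1, p.1 0)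
  have hc : ContDiff ℝ ∞ Φ :=
    ((h.smg.comp contDiff_fst).sub (contDiff_snd.smul (h.smP.comp contDiff_fst))).prodMk
      ((contDiff_apply ℝ ℝ 0).comp contDiff_fst)
  have df : HasFDerivAt (Prod.fst : (Fin 3 → ℝ) × ℝ → Fin 3 → ℝ)
      (ContinuousLinearMap.fst ℝ (Fin 3 → ℝ) ℝ) (z₀, (0 : ℝ)) := hasFDerivAt_fst
  have dg := HasFDerivAt.comp (z₀, (0 : ℝ)) (h.smg.differentiable (by simp) z₀).hasFDerivAt df
  have dP := HasFDerivAt.comp (z₀, (0 : ℝ)) (h.smP.differentiable (by simp) z₀).hasFDerivAt df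
  have d0 := HasFDerivAt.comp (z₀, (0 : ℝ)) (hasFDerivAt_apply (𝕜 := ℝ) 0 z₀) df
  have hd := (dg.sub ((hasFDerivAt_snd (𝕜 := ℝ) (p := (z₀, (0 : ℝ)))).smul dP)).prodMk d0
  have hi : Function.Injective (fderiv ℝ Φ (z₀, 0)) := by
    refine (injective_iff_map_eq_zero _).mpr fun u hu => ?_
    rw [show fderiv ℝ Φ (z₀, 0) = _ from hd.fderiv] at hu
    have h1 : u.1 0 = 0 := by simpa using congrArg Prod.snd hu
    have h2 : fderiv ℝ g z₀ u.1 = u.2 • P z₀ := by
      simpa [sub_eq_zero] using congrArg Prod.fst hu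
    rw [clm_eq_sum, Fin.sum_univ_three, h1, zero_smul, zero_add] at h2
    obtain ⟨a, b⟩ := h.br1 z₀ _ _ _ hz h2
    rw [a, b, zero_smul, zero_smul, zero_add, eq_comm, smul_eq_zero] at h2
    refine Prod.ext (funext fun i => ?_) (h2.resolve_right (h.ne _))
    fin_cases i
    exacts [h1, a, b]
  let e := (LinearEquiv.ofInjectiveEndo (fderiv ℝ Φ (z₀, 0)).toLinearMap hi).toContinuousLinearEquiv
  have hs : HasStrictFDerivAt Φ (e : _ →L[ℝ] _) (z₀, 0) :=
    hc.contDiffAt.hasStrictFDerivAt (by simp)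
  have hl := hs.eventually_left_inverse
  let r : (Fin 3 → ℝ) × ℝ → (Fin 3 → ℝ) × ℝ := fun p => (![p.1 0, z₀ 1, z₀ 2], 0)
  have hr : Tendsto r (𝓝 (z₀, 0)) (𝓝 (z₀, 0)) := by
    have c : Continuous r := by
      refine Continuous.prodMk (continuous_pi fun i => ?_) continuous_const
      have c0 : Continuous fun p : (Fin 3 → ℝ) × ℝ => p.1 0 := by fun_prop
      fin_cases i
      exacts [c0, continuous_const, continuous_const]
    refine c.tendsto' _ _ (Prod.ext (funext fun i => ?_) rfl)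
    fin_cases i <;> rfl
  filter_upwards [hl, hr.eventually hl] with p h1 h2 h3
  have e1 : Φ (r p) = Φ p := by
    simp only [Φ, r, h3, sub_self, zero_smul, h.br0 ![p.1 0, z₀ 1, z₀ 2] hz]
    rfl
  rw [e1, h1] at h2
  rw [h2]
  exact hz

end PGapB

theorem p_gapB : S_Gap := fun P g H h hB => by
  let U : Set ((Fin 3 → ℝ) × ℝ) := interior {p | g p.1 = p.2 • P p.1 → pd H 0 p.1 = 0 → Br p.1}
  have hU : ∀ z, (z, (0 : ℝ)) ∈ U := fun z => by
    rw [mem_interior_iff_mem_nhds]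
    by_cases hz : Br z
    · filter_upwards [PGapB.loc h hz] with p hp h1 _ using hp h1
    · have c1 : Continuous fun p : (Fin 3 → ℝ) × ℝ => (g p.1 - p.2 • P p.1, pd H 0 p.1) :=
        ((h.smg.continuous.comp continuous_fst).sub (continuous_snd.smul
          (h.smP.continuous.comp continuous_fst))).prodMk
          ((contDiff_pd h.smH 0).continuous.comp continuous_fst)
      filter_upwards [(c1.continuousAt (x := (z, 0))).eventually_ne (y := 0) fun e => hz (hB.crit z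
        (by simpa using congrArg Prod.fst e) (congrArg Prod.snd e))] with p hp h1 h2
      exact absurd (Prod.ext (sub_eq_zero.mpr h1) h2) hp
  obtain ⟨u, v, -, hv, h1, h2, h3⟩ := generalized_tube_lemma
    (isCompact_Icc (a := fun _ : Fin 3 => -π) (b := fun _ => π)) (isCompact_singleton (x := (0 : ℝ)))
    isOpen_interior (n := U) fun p hp => by
      rw [show p = (p.1, 0) from Prod.ext rfl hp.2]
      exact hU _
  obtain ⟨ε, hε, hb⟩ := Metric.isOpen_iff.mp hv 0 (h2 rfl)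
  refine ⟨ε, hε, fun z μ e1 e2 e3 => ?_⟩
  let z' : Fin 3 → ℝ := fun j => Complex.arg (cov z j)
  have hz : cov z' = cov z := D.cov_arg _
  have := interior_subset (h3 (a := (z', μ)) ⟨h1 ⟨fun j => (Complex.neg_pi_lt_arg _).le,
    fun j => Complex.arg_le_pi _⟩, hb (by simpa using e3)⟩)
    (by rw [D.per_cov h.perg hz, D.per_cov h.perP hz, e1])
    (by rw [D.per_cov (fun k x => pd_shift (h.perH k) 0 x) hz, e2])
  have hs : ∀ j, sin (z' j) = sin (z j) := fun j => by
    simpa [cov, Complex.exp_ofReal_mul_I_im] using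
      congrArg (fun c : Circle => (c : ℂ).im) (congrFun hz j)
  exact ⟨(hs 1).symm.trans this.1, (hs 2).symm.trans this.2⟩

end Pool.Agent.P.MP_a67bd8_gt.N4
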