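import Pool.Agent.P.MP_a67bd8_gt.N4.Stmt

/-!
The members of the loop are immersions.
-/

namespace Pool.Agent.P.MP_a67bd8_gt.N4

open MeasureTheory Set Matrix Real
open scoped ContDiff Matrix.Norms.Operator Quaternion

namespace PImm

theorem line {κ V : Type} [Fintype κ] [NormedAddCommGroup V] [NormedSpace ℝ V]
    {S : (κ → ℝ) → V} {y : κ → ℝ} (h : DifferentiableAt ℝ S y) (u : κ → ℝ) :
    HasDerivAt (fun s : ℝ => S (y + s • u)) (fderiv ℝ S y u) 0 := by
  have h1 : HasDerivAt (fun s : ℝ => y + s • u) u 0 := by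
    simpa using ((hasDerivAt_id (0 : ℝ)).smul_const u).const_add y
  have h2 : HasFDerivAt S (fderiv ℝ S y) (y + (0 : ℝ) • u) := by
    simpa using h.hasFDerivAt
  exact h2.comp_hasDerivAt (0 : ℝ) h1

theorem dir {V : Type} [NormedAddCommGroup V] [NormedSpace ℝ V] (S : (Fin 3 → ℝ) → V)
    (z : Fin 3 → ℝ) (a b : ℝ) : fderiv ℝ S z ![0, a, b] = a • pd S 1 z + b • pd S 2 z := by
  rw [clm_eq_sum, Fin.sum_univ_three]
  simp [pd]

theorem dot_pos {x : Fin 3 → ℝ} (h : x ≠ 0) : 0 < x ⬝ᵥ x :=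
  lt_of_le_of_ne (Finset.sum_nonneg fun i _ => mul_self_nonneg (x i))
    fun e => h (dotProduct_self_eq_zero.mp e.symm)

theorem diff_zz : Differentiable ℝ zz := by
  refine differentiable_pi.mpr fun i => ?_
  fin_cases i <;> simp only [zz] <;> simp <;> fun_prop

theorem diff_mu {P : (Fin 3 → ℝ) → Fin 3 → ℝ} (h : Differentiable ℝ P) (hne : ∀ z, P z ≠ 0) :
    Differentiable ℝ (mu P) := fun z => by
  have h1 : DifferentiableAt ℝ (fun z => P z ⬝ᵥ P z) z := by
    simp only [dotProduct]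
    fun_prop
  exact (h1.sqrt (dot_pos (hne z)).ne').inv (sqrt_pos.mpr (dot_pos (hne z))).ne'

theorem mu_sq {P : (Fin 3 → ℝ) → Fin 3 → ℝ} (hne : ∀ z, P z ≠ 0) (z : Fin 3 → ℝ) :
    mu P z * mu P z * (P z ⬝ᵥ P z) = 1 := by
  rw [mu, ← mul_inv, mul_self_sqrt (dot_pos (hne z)).le, inv_mul_cancel₀ (dot_pos (hne z)).ne']

theorem diff_ww {P g : (Fin 3 → ℝ) → Fin 3 → ℝ} (hP : Differentiable ℝ P)
    (hg : Differentiable ℝ g) (hne : ∀ z, P z ≠ 0) (δ : ℝ) : Differentiable ℝ (ww P g δ) := by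
  refine differentiable_pi.mpr fun j => ?_
  have h1 := diff_mu hP hne
  have h2 := diff_zz
  have e : (fun y => ww P g δ y j) = fun y => Complex.equivRealProdCLM.symm
      (δ * sin (y 1) * mu P (zz y) * P (zz y) j +
        ((1 + δ * cos (y 1)) * mu P (zz y)) ^ 2 * g (zz y) j,
        (1 + δ * cos (y 1)) * mu P (zz y) * P (zz y) j) := rfl
  rw [e]
  fun_prop

end PImm

open PImm in
theorem p_imm : S_Imm := by
  intro P g H h δ h0 h1 y v hv
  have hP := h.smP.differentiable (by simp)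
  have hg := h.smg.differentiable (by simp)
  set u : Fin 4 → ℝ := ![0, v 0, v 1, v 2] with hu
  have e0 : fderiv ℝ (ww P g δ) y u = 0 := by
    rw [clm_eq_sum, Fin.sum_univ_succ, ← hv, Fin.sum_univ_three, Fin.sum_univ_three]
    simp [hu, pd]
  have d0 := line (diff_ww hP hg h.ne δ y) u
  rw [e0] at d0
  set z := zz y with hz
  have ez : ∀ s : ℝ, zz (y + s • u) = z + s • ![0, v 1, v 2] := fun s => by
    funext i
    fin_cases i <;> simp [zz, hu, hz]
  have ey : ∀ s : ℝ, (y + s • u) 1 = y 1 + s * v 0 := fun s => by simp [hu]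
  have dP := line (hP z) ![0, v 1, v 2]
  have dg := line (hg z) ![0, v 1, v 2]
  have dm := line (diff_mu hP h.ne z) ![0, v 1, v 2]
  rw [dir] at dP dg
  generalize fderiv ℝ (mu P) z ![0, v 1, v 2] = m' at dm
  generalize (![0, v 1, v 2] : Fin 3 → ℝ) = u' at dm dP dg ez
  set P' := v 1 • pd P 1 z + v 2 • pd P 2 z with hP'
  set g' := v 1 • pd g 1 z + v 2 • pd g 2 z with hg'
  have dt : HasDerivAt (fun s : ℝ => y 1 + s * v 0) (v 0) 0 := by
    simpa using ((hasDerivAt_id (0 : ℝ)).mul_const (v 0)).const_add (y 1)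
  have dr := ((dt.cos.const_mul δ).const_add 1).mul dm
  have dPj := hasDerivAt_pi.mp dP
  have dgj := hasDerivAt_pi.mp dg
  have him : ∀ j, (δ * (-sin (y 1) * v 0) * mu P z + (1 + δ * cos (y 1)) * m') * P z j +
      (1 + δ * cos (y 1)) * mu P z * P' j = 0 := fun j => by
    have a1 := Complex.imCLM.hasFDerivAt.comp_hasDerivAt (0 : ℝ) (hasDerivAt_pi.mp d0 j)
    have a2 := dr.mul (dPj j)
    have a3 := a2.unique (a1.congr_of_eventuallyEq (Filter.Eventually.of_forall fun s => by
      simp only [Function.comp, Complex.imCLM_apply, ww, lam, ez, ey, Pi.mul_apply]))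
    simpa using a3
  have hre : ∀ j, ((δ * (cos (y 1) * v 0) * mu P z + δ * sin (y 1) * m') * P z j +
      δ * sin (y 1) * mu P z * P' j) + (2 * ((1 + δ * cos (y 1)) * mu P z) *
        (δ * (-sin (y 1) * v 0) * mu P z + (1 + δ * cos (y 1)) * m') * g z j +
        ((1 + δ * cos (y 1)) * mu P z) ^ 2 * g' j) = 0 := fun j => by
    have a1 := Complex.reCLM.hasFDerivAt.comp_hasDerivAt (0 : ℝ) (hasDerivAt_pi.mp d0 j)
    have a2 := (((dt.sin.const_mul δ).mul dm).mul (dPj j)).add ((dr.pow 2).mul (dgj j))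
    have a3 := a2.unique (a1.congr_of_eventuallyEq (Filter.Eventually.of_forall fun s => by
      simp only [Function.comp, Complex.reCLM_apply, ww, lam, ez, ey, Pi.mul_apply, Pi.add_apply,
        Pi.pow_apply]))
    simpa using a3
  have hn : (m' * mu P z + mu P z * m') * (P z ⬝ᵥ P z) +
      mu P z * mu P z * (2 * (P z ⬝ᵥ P')) = 0 := by
    have a1 : HasDerivAt (fun s : ℝ => P (z + s • u') ⬝ᵥ P (z + s • u'))
        (2 * (P z ⬝ᵥ P')) 0 := by
      simp only [dotProduct, Fin.sum_univ_three]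
      refine ((((dPj 0).mul (dPj 0)).add ((dPj 1).mul (dPj 1))).add
        ((dPj 2).mul (dPj 2))).congr_deriv ?_
      simp only [zero_smul, add_zero]
      ring
    have a3 := ((dm.mul dm).mul a1).unique ((hasDerivAt_const (0 : ℝ) (1 : ℝ)).congr_of_eventuallyEq
      (Filter.Eventually.of_forall fun s => mu_sq h.ne _))
    simpa using a3
  have hm := mu_sq h.ne z
  have hm0 : mu P z ≠ 0 := fun e => by simp [e] at hm
  have hr : 1 + δ * cos (y 1) ≠ 0 := by nlinarith [neg_one_le_cos (y 1)]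
  have hs : sin (y 1) * v 0 = 0 := by
    have a1 : δ * (sin (y 1) * v 0) * 2 = 0 := by
      simp only [dotProduct, Fin.sum_univ_three] at hn hm
      linear_combination (-2 * mu P z * P z 0) * him 0 + (-2 * mu P z * P z 1) * him 1 +
        (-2 * mu P z * P z 2) * him 2 + (1 + δ * cos (y 1)) * hn -
        (2 * δ * (sin (y 1) * v 0)) * hm
    simpa [h0.ne'] using a1
  have hj : ∀ j, m' * P z j + mu P z * P' j = 0 := fun j =>
    mul_left_cancel₀ hr (by linear_combination him j + (δ * mu P z * P z j) * hs)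
  have hab : v 1 = 0 ∧ v 2 = 0 := by
    rcases h.reg z (v 1) (v 2) (-m' / mu P z) (funext fun j => by
      rw [← hP', Pi.smul_apply, smul_eq_mul]
      field_simp
      linear_combination hj j) with h2 | h2
    · exact h2
    · refine h.br1 z (v 1) (v 2)
        (-(δ * (cos (y 1) * v 0) * mu P z) / ((1 + δ * cos (y 1)) * mu P z) ^ 2) h2
        (funext fun j => ?_)
      have a1 := hre j
      rw [h.br0 z h2, Pi.zero_apply] at a1
      rw [← hg', Pi.smul_apply, smul_eq_mul, div_mul_eq_mul_div,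
        eq_div_iff (pow_ne_zero 2 (mul_ne_zero hr hm0))]
      linear_combination a1 - (δ * sin (y 1)) * hj j
  obtain ⟨j, hj0⟩ := Function.ne_iff.mp (h.ne z)
  have eP : P' j = 0 := by simp [hP', hab.1, hab.2]
  have eg : g' j = 0 := by simp [hg', hab.1, hab.2]
  have em : m' = 0 := by
    have a1 := hj j
    rw [eP, mul_zero, add_zero] at a1
    exact (mul_eq_zero.mp a1).resolve_right hj0
  have hc : cos (y 1) * v 0 = 0 := by
    have a1 := hre j
    rw [eP, eg, em] at a1
    have a2 : δ * (cos (y 1) * v 0) * mu P z * P z j = 0 := by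
      linear_combination a1 +
        (2 * ((1 + δ * cos (y 1)) * mu P z) * δ * mu P z * g z j) * hs
    simpa [h0.ne', hm0, show P z j ≠ 0 from hj0] using a2
  have h3 : v 0 = 0 := by
    linear_combination sin (y 1) * hs + cos (y 1) * hc - v 0 * sin_sq_add_cos_sq (y 1)
  funext i
  fin_cases i
  exacts [h3, hab.1, hab.2]

end Pool.Agent.P.MP_a67bd8_gt.N4
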