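import Pool.Agent.P.MP_a67bd8_gt.N4.Stmt

/-!
Injectivity of the suspension for a thin circle.
-/

namespace Pool.Agent.P.MP_a67bd8_gt.N4

open MeasureTheory Set Matrix Real
open scoped ContDiff Matrix.Norms.Operator Quaternion

namespace PInj

theorem exp_eq {a b : ℝ} (hc : cos a = cos b) (hs : sin a = sin b) :
    Circle.exp a = Circle.exp b := by
  apply Subtype.ext
  rw [Circle.coe_exp, Circle.coe_exp]
  apply Complex.ext
  · rw [Complex.exp_ofReal_mul_I_re, Complex.exp_ofReal_mul_I_re, hc]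
  · rw [Complex.exp_ofReal_mul_I_im, Complex.exp_ofReal_mul_I_im, hs]

theorem cancel {v : Fin 3 → ℝ} (hv : v ≠ 0) {a b : ℝ} (h : ∀ j, a * v j = b * v j) : a = b := by
  obtain ⟨j, hj⟩ := Function.ne_iff.1 hv
  exact mul_right_cancel₀ hj (h j)

theorem sqrt_pos' {v : Fin 3 → ℝ} (hv : v ≠ 0) : 0 < √(v ⬝ᵥ v) :=
  Real.sqrt_pos.2 (lt_of_le_of_ne (Finset.sum_nonneg fun i _ => mul_self_nonneg (v i))
    fun h => hv (dotProduct_self_eq_zero.1 h.symm))

end PInj

open PInj in
theorem p_inj : S_Inj := by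
  rintro P g H hA hB ⟨μ₀, hμ₀, hG⟩
  obtain ⟨C, hC⟩ := D.per_bdd (φ := fun z => √(P z ⬝ᵥ P z)) (fun k x => by
    simp only [hA.perP k x])
    (hA.smP.continuous.dotProduct hA.smP.continuous).sqrt
  have hC0 : 0 ≤ C := (abs_nonneg _).trans (hC 0)
  obtain ⟨δ, h0, h1, h2⟩ : ∃ δ : ℝ, 0 < δ ∧ δ ≤ 1 / 2 ∧ 4 * δ * C < μ₀ := by
    refine ⟨min (1 / 2) (μ₀ / (4 * (C + 1))), by positivity, min_le_left _ _, ?_⟩
    have h3 : min (1 / 2) (μ₀ / (4 * (C + 1))) * (4 * (C + 1)) ≤ μ₀ :=
      (le_div_iff₀ (by positivity)).1 (min_le_right _ _)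
    have h4 : 0 < min (1 / 2) (μ₀ / (4 * (C + 1))) := by positivity
    nlinarith
  refine ⟨δ, h0, by linarith, fun y y' e0 et ew => ?_⟩
  have hr : ∀ a : ℝ, 1 / 2 ≤ 1 + δ * cos a := fun a => by nlinarith [neg_one_le_cos a]
  have hmu : ∀ z, 0 < mu P z := fun z => inv_pos.2 (sqrt_pos' (hA.ne z))
  have hl : ∀ y, 0 < lam P δ y := fun y => mul_pos (by linarith [hr (y 1)]) (hmu _)
  have him : ∀ j, lam P δ y * P (zz y) j = lam P δ y' * P (zz y') j := fun j =>
    congrArg Complex.im (congrFun ew j)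
  have hre : ∀ j, δ * sin (y 1) * mu P (zz y) * P (zz y) j + lam P δ y ^ 2 * g (zz y) j =
      δ * sin (y' 1) * mu P (zz y') * P (zz y') j + lam P δ y' ^ 2 * g (zz y') j := fun j =>
    congrArg Complex.re (congrFun ew j)
  obtain ⟨c1, c2, hs⟩ := hB.two (zz y) (zz y') (lam P δ y' / lam P δ y)
    (div_pos (hl _) (hl _)) (funext fun j => by
      have := (hl y).ne'
      rw [Pi.smul_apply, smul_eq_mul]
      field_simp
      linear_combination him j)
  have hlam : P (zz y) = P (zz y') → mu P (zz y) = mu P (zz y') ∧ lam P δ y = lam P δ y' :=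
    fun h => ⟨by unfold mu; rw [h], cancel (hA.ne (zz y')) fun j => by rw [← him j, h]⟩
  have caseA : sin (zz y 1) = sin (zz y' 1) ∧ sin (zz y 2) = sin (zz y' 2) → cov y = cov y' := by
    rintro ⟨s1, s2⟩
    have hz : cov (zz y) = cov (zz y') := by
      funext j
      fin_cases j
      exacts [e0, exp_eq c1 s1, exp_eq c2 s2]
    have hP := D.per_cov hA.perP hz
    obtain ⟨m1, m2⟩ := hlam hP
    have hc : cos (y 1) = cos (y' 1) := by
      unfold lam at m2
      rw [m1] at m2
      exact mul_left_cancel₀ h0.ne' (by linarith [mul_right_cancel₀ (hmu _).ne' m2])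
    have hs : δ * sin (y 1) * mu P (zz y') = δ * sin (y' 1) * mu P (zz y') :=
      cancel (hA.ne (zz y')) fun j => by
        have := hre j
        rw [m1, m2, hP, D.per_cov hA.perg hz] at this
        linarith
    funext j
    fin_cases j
    exacts [e0, exp_eq hc (mul_left_cancel₀ h0.ne' (mul_right_cancel₀ (hmu _).ne' hs)),
      exp_eq c1 s1, exp_eq c2 s2]
  rcases hs with hs | ⟨s1, s2⟩
  · exact caseA hs
  have hz : cov (zz y) = cov ![zz y' 0, -zz y' 1, -zz y' 2] := by
    funext j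
    fin_cases j
    exacts [e0, exp_eq (c1.trans (cos_neg _).symm) (s1.trans (sin_neg _).symm),
      exp_eq (c2.trans (cos_neg _).symm) (s2.trans (sin_neg _).symm)]
  have hP := (D.per_cov hA.perP hz).trans (hB.evP _)
  have hg := (D.per_cov hA.perg hz).trans (hB.odg _)
  have hH := (D.per_cov (φ := pd H 0) (fun k x => pd_shift (hA.perH k) 0 x) hz).trans (hB.odH _)
  obtain ⟨m1, m2⟩ := hlam hP
  have hH0 : pd H 0 (zz y) = 0 := by
    unfold tt at et
    rw [m2] at et
    linarith [mul_left_cancel₀ (pow_pos (hl y') 3).ne' et]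
  have hb := hG (zz y) (δ * (sin (y' 1) - sin (y 1)) * mu P (zz y) / (2 * lam P δ y ^ 2))
    (funext fun j => by
      have h3 := hre j
      have h4 : g (zz y') j = -g (zz y) j := by rw [hg, Pi.neg_apply, neg_neg]
      have := (hl y).ne'
      rw [← m1, ← m2, ← hP, h4] at h3
      rw [Pi.smul_apply, smul_eq_mul]
      field_simp
      linear_combination h3) hH0 (by
      have h3 : |sin (y' 1) - sin (y 1)| ≤ 2 := abs_le.2
        ⟨by linarith [neg_one_le_sin (y' 1), sin_le_one (y 1)],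
          by linarith [neg_one_le_sin (y 1), sin_le_one (y' 1)]⟩
      have h4 := sqrt_pos' (hA.ne (zz y))
      have h5 := (le_abs_self _).trans (hC (zz y))
      have h6 := hr (y 1)
      have h7 : δ * (sin (y' 1) - sin (y 1)) * mu P (zz y) / (2 * lam P δ y ^ 2) =
          δ * √(P (zz y) ⬝ᵥ P (zz y)) / (2 * (1 + δ * cos (y 1)) ^ 2) *
            (sin (y' 1) - sin (y 1)) := by
        have : 1 + δ * cos (y 1) ≠ 0 := by linarith
        unfold lam mu
        field_simp
      rw [h7, abs_mul, abs_of_nonneg (by positivity)]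
      refine lt_of_le_of_lt ?_ h2
      calc _ ≤ δ * C / (2 * (1 / 2) ^ 2) * 2 := by gcongr
        _ = 4 * δ * C := by ring)
  exact caseA ⟨by linarith [hb.1], by linarith [hb.2]⟩

end Pool.Agent.P.MP_a67bd8_gt.N4
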