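import Pool.Agent.P.MP_a67bd8_gt.N4.Stmt

/-!
The winding number of the frame is even on tori isotopic to the Clifford torus.
-/

namespace Pool.Agent.P.MP_a67bd8_gt.N4

open MeasureTheory Set Matrix Real Filter Topology
open scoped ContDiff Matrix.Norms.Operator Quaternion

set_option linter.unusedSectionVars false

namespace PIso

variable {ι : Type} [Fintype ι] [DecidableEq ι]

theorem frame_lift {f g : (ι → Circle) → ι → ℂ} (hf : IsLagTorus f) (hg : IsLagTorus g)
    {c : (ι → ℝ) → ι → ℝ} (hc : ∀ x, g (cov (c x)) = f (cov x)) (x : ι → ℝ) (i j : ι) :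
    ((Ring.inverse (frame (fun x => g (cov x)) (c x)) * frame (fun x => f (cov x)) x :
      Matrix ι ι ℂ) i j).im = 0 := by
  obtain ⟨d, hd, he⟩ := local_lift hf hg hc x
  have e : frame (fun x => f (cov x)) x = frame (fun x => g (cov x)) (d x) *
      Matrix.of fun a b => ((fderiv ℝ d x (Pi.single b 1) a : ℝ) : ℂ) := by
    have h1 : (fun x => f (cov x)) =ᶠ[𝓝 x] (fun x => g (cov x)) ∘ d := by
      filter_upwards [he] with y hy
      rw [← hc, ← hy]
      rfl
    ext j b
    rw [mul_apply, frame, of_apply, pd, h1.fderiv_eq, fderiv_comp x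
      (hg.smooth.differentiable (by simp) _) (hd.differentiableAt (by simp)),
      ContinuousLinearMap.comp_apply, clm_eq_sum, Finset.sum_apply]
    exact Finset.sum_congr rfl fun a _ => mul_comm _ _
  rw [e, frame_congr g he.self_of_nhds, ← mul_assoc, Ring.inverse_mul_cancel _ (hg.unit _),
    one_mul]
  simp

theorem cl_norm {g : (ι → Circle) → ι → ℂ} (h : range g = clifford ι) (x : ι → ℝ) (j : ι) :
    g (cov x) j * star (g (cov x) j) = ((1 / (Fintype.card ι : ℝ) : ℝ) : ℂ) := by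
  rw [← (h ▸ mem_range_self (cov x) : g (cov x) ∈ clifford ι) j, Complex.star_def,
    Complex.mul_conj, Complex.normSq_apply]
  congr 1
  ring

theorem cl_ne {g : (ι → Circle) → ι → ℂ} (h : range g = clifford ι) (x : ι → ℝ) (j : ι) :
    Complex.I * g (cov x) j ≠ 0 := by
  refine mul_ne_zero Complex.I_ne_zero fun h0 => ?_
  have := cl_norm h x j
  have hc : Fintype.card ι ≠ 0 := (Fintype.card_pos_iff.mpr ⟨j⟩).ne'
  rw [h0, zero_mul, eq_comm] at this
  simp [hc] at this

theorem cl_unit {g : (ι → Circle) → ι → ℂ} (h : range g = clifford ι) (x : ι → ℝ) :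
    IsUnit (diagonal fun j => Complex.I * g (cov x) j) := by
  rw [isUnit_iff_isUnit_det, det_diagonal, isUnit_iff_ne_zero]
  exact Finset.prod_ne_zero_iff.mpr fun j _ => cl_ne h x j

theorem frame_diag {g : (ι → Circle) → ι → ℂ} (hg : IsLagTorus g) (h : range g = clifford ι)
    (y : ι → ℝ) (j a : ι) :
    ((Ring.inverse (diagonal fun j => Complex.I * g (cov y) j) * frame (fun x => g (cov x)) y :
      Matrix ι ι ℂ) j a).im = 0 := by
  have e : frame (fun x => g (cov x)) y = (diagonal fun j => Complex.I * g (cov y) j) *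
      Matrix.of fun j a => (Complex.I * g (cov y) j)⁻¹ * frame (fun x => g (cov x)) y j a := by
    ext j a
    rw [diagonal_mul, of_apply, ← mul_assoc, mul_inv_cancel₀ (cl_ne h y j), one_mul]
  rw [e, ← mul_assoc, Ring.inverse_mul_cancel _ (cl_unit h y), one_mul, of_apply]
  have d := hg.smooth.differentiable (by simp) y
  have d1 : DifferentiableAt ℝ (fun x => g (cov x) j) y := differentiableAt_pi.mp d j
  have p1 : pd (fun x => g (cov x) j) a y = pd (fun x => g (cov x)) a y j :=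
    pd_clm (ContinuousLinearMap.proj (R := ℝ) (φ := fun _ : ι => ℂ) j) d a
  have p2 : pd (fun x => star (g (cov x) j)) a y = star (pd (fun x => g (cov x) j) a y) :=
    pd_clm (Complex.conjCLE : ℂ →L[ℝ] ℂ) d1 a
  have h3 := pd_mul d1 d1.star a
  rw [funext fun x => cl_norm h x j, p2, p1, pd, fderiv_fun_const] at h3
  change 0 = _ at h3
  have h4 := congrArg Complex.re h3
  rw [frame, of_apply]
  generalize pd (fun x => g (cov x)) a y j = u at h4
  generalize g (cov y) j = z at h4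
  simp only [Complex.zero_re, Complex.add_re, Complex.mul_re, Complex.star_def, Complex.conj_re,
    Complex.conj_im] at h4
  simp only [Complex.mul_im, Complex.inv_re, Complex.inv_im, Complex.mul_re, Complex.I_re,
    Complex.I_im]
  linear_combination (1 / 2) * (Complex.normSq (Complex.I * z))⁻¹ * h4

theorem contDiff_frame {F : ℝ → (ι → Circle) → ι → ℂ}
    (hF : ContDiff ℝ ∞ fun z : ℝ × (ι → ℝ) => F z.1 (cov z.2)) :
    ContDiff ℝ ∞ fun z : ℝ × (ι → ℝ) => frame (fun x => F z.1 (cov x)) z.2 :=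
  contDiff_mat.mpr fun j _ => contDiff_pi.mp
    ((ContDiff.fderiv (f := fun (z : ℝ × (ι → ℝ)) x => F z.1 (cov x))
      (hF.comp (contDiff_fst.fst.prodMk contDiff_snd)) contDiff_snd le_rfl).clm_apply
        contDiff_const) j

theorem contDiff_lift {f g : (ι → Circle) → ι → ℂ} (hf : IsLagTorus f) (hg : IsLagTorus g)
    {c : (ι → ℝ) → ι → ℝ} (hc : ∀ x, g (cov (c x)) = f (cov x))
    {V : Type} [NormedAddCommGroup V] [NormedSpace ℝ V] {Φ : ℝ → (ι → ℝ) → V}
    (h : ContDiff ℝ ∞ fun z : ℝ × (ι → ℝ) => Φ z.1 z.2)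
    (h' : ∀ t y y', cov y = cov y' → Φ t y = Φ t y') (ℓ : (Fin 3 → ℝ) →L[ℝ] ι → ℝ) :
    ContDiff ℝ ∞ fun z : ℝ × (Fin 3 → ℝ) => Φ z.1 (c (ℓ z.2)) :=
  contDiff_iff_contDiffAt.mpr fun z => by
    obtain ⟨d, hd, he⟩ := local_lift hf hg hc (ℓ z.2)
    have hl : ContDiffAt ℝ ∞ (fun z : ℝ × (Fin 3 → ℝ) => ℓ z.2) z :=
      (ℓ.contDiff.comp contDiff_snd).contDiffAt
    refine (h.contDiffAt.comp z
      (contDiffAt_fst.prodMk (hd.comp z hl))).congr_of_eventuallyEq ?_
    filter_upwards [hl.continuousAt he] with w hw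
    exact h' _ _ _ (Eq.symm hw)

theorem iso {κ : ℂ} {n : ℕ} (hE : Ev κ n) {f : (Fin n → Circle) → Fin n → ℂ} (hf : IsLagTorus f)
    {F : ℝ → (Fin n → Circle) → Fin n → ℂ}
    (hF : ContDiff ℝ ∞ fun z : ℝ × (Fin n → ℝ) => F z.1 (cov z.2))
    (hL : ∀ t, IsLagTorus (F t)) (h0 : range (F 0) = range f) (h1 : range (F 1) = clifford (Fin n))
    (ℓ : (Fin 3 → ℝ) →L[ℝ] Fin n → ℝ) (hℓ : Lp ℓ) :
    ∃ m : ℤ, wm (fun b => frame (fun x => f (cov x)) (ℓ b)) = 4 * κ * m := by
  have hc : ∀ x, ∃ y, F 0 (cov y) = f (cov x) := fun x => by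
    obtain ⟨z, hz⟩ : f (cov x) ∈ range (F 0) := h0 ▸ mem_range_self _
    obtain ⟨y, rfl⟩ := isOpenQuotientMap_cov.surjective z
    exact ⟨y, hz⟩
  choose c hc using hc
  have hl : ∀ k x, cov (ℓ (x + Pi.single k (2 * π))) = cov (ℓ x) := fun k x => by
    rw [map_add, cov_add, hℓ, mul_one]
  have hcc : ∀ k x, cov (c (ℓ (x + Pi.single k (2 * π)))) = cov (c (ℓ x)) := fun k x =>
    (hL 0).inj (by rw [hc, hc, hl])
  have hH := contDiff_lift hf (hL 0) hc (Φ := fun t y => frame (fun x => F t (cov x)) y)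
    (contDiff_frame hF) (fun t _ _ e => frame_congr _ e) ℓ
  have hu : ∀ t b, IsUnit (frame (fun x => F t (cov x)) (c (ℓ b))) := fun t x => (hL _).unit _
  have hp : ∀ t, Per fun b => frame (fun x => F t (cov x)) (c (ℓ b)) := fun t k x =>
    frame_congr _ (hcc k x)
  have aG : ∀ t, Ad fun b => frame (fun x => F t (cov x)) (c (ℓ b)) := fun t =>
    ⟨hH.comp (f := fun b => (t, b)) (contDiff_const.prodMk contDiff_id), hu t, hp t⟩
  have key := wm_homotopy (fun t b => frame (fun x => F t (cov x)) (c (ℓ b))) hH hu hp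
  have aS : Ad fun b => frame (fun x => f (cov x)) (ℓ b) :=
    ⟨(contDiff_frame (F := fun _ => f) (hf.smooth.comp contDiff_snd)).comp
      (f := fun b => ((0 : ℝ), ℓ b)) (contDiff_const.prodMk ℓ.contDiff),
      fun x => hf.unit _, fun k x => frame_congr _ (hl k x)⟩
  have hD := contDiff_lift hf (hL 0) hc (Φ := fun t y => F t (cov y)) hF
    (fun t _ _ e => by rw [e]) ℓ
  have aD : Ad fun b => (diagonal fun j => Complex.I * F 1 (cov (c (ℓ b))) j) :=
    ⟨contDiff_mat.mpr fun i j => by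
      by_cases e : i = j
      · subst e
        simp only [diagonal_apply_eq]
        exact contDiff_const.mul (contDiff_pi.mp (hD.comp (f := fun b => ((1 : ℝ), b))
          (contDiff_const.prodMk contDiff_id)) i)
      · simp only [diagonal_apply_ne _ e]
        exact contDiff_const,
      fun x => cl_unit h1 _, fun k x => by simp only [hcc k x]⟩
  obtain ⟨m₀, e₀⟩ := hE _ ((aG 0).inv.mul aS) fun x => frame_lift hf (hL 0) hc (ℓ x)
  obtain ⟨m₁, e₁⟩ := hE _ (aD.inv.mul (aG 1)) fun x => frame_diag (hL 1) h1 (c (ℓ x))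
  rw [wm_mul (aG 0).inv aS, wm_inv (aG 0)] at e₀
  rw [wm_mul aD.inv (aG 1), wm_inv aD, wm_diag aD fun x => isDiag_diagonal _] at e₁
  refine ⟨m₀ + m₁, ?_⟩
  push_cast
  linear_combination e₀ + e₁ + key

end PIso

theorem p_iso : S_Iso := by
  rintro κ n hE f hf ⟨F, hF, hL, h0, h1⟩ ℓ hℓ
  have hm : ∀ t, Real.smoothTransition t ∈ Icc (0 : ℝ) 1 := fun t =>
    ⟨Real.smoothTransition.nonneg t, Real.smoothTransition.le_one t⟩
  exact PIso.iso hE hf (F := fun t => F (Real.smoothTransition t))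
    (hF.comp_contDiff (f := fun z : ℝ × (Fin n → ℝ) => (Real.smoothTransition z.1, z.2))
      ((Real.smoothTransition.contDiff.comp contDiff_fst).prodMk contDiff_snd)
      fun _ => ⟨hm _, trivial⟩) (fun t => hL _ (hm t))
    (by rw [Real.smoothTransition.zero, h0]) (by rw [Real.smoothTransition.one, h1]) ℓ hℓ

end Pool.Agent.P.MP_a67bd8_gt.N4
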