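import Pool.Agent.P.MP_a67bd8_gt.N4.Stmt

/-!
The explicit loop is an exact loop of Lagrangian maps.
-/

namespace Pool.Agent.P.MP_a67bd8_gt.N4

open MeasureTheory Set Matrix Real
open scoped ContDiff Matrix.Norms.Operator Quaternion

set_option linter.unusedSectionVars false

namespace PLag

variable {κ : Type} [Fintype κ] [DecidableEq κ]

theorem dif {V : Type} [NormedAddCommGroup V] [NormedSpace ℝ V] {f : (κ → ℝ) → V}
    (h : ContDiff ℝ ∞ f) (p : κ → ℝ) : DifferentiableAt ℝ f p :=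
  h.differentiable (by simp) p

theorem pd_add {f g : (κ → ℝ) → ℝ} (hf : ContDiff ℝ ∞ f) (hg : ContDiff ℝ ∞ g) (a : κ)
    (p : κ → ℝ) : pd (fun q => f q + g q) a p = pd f a p + pd g a p := by
  unfold pd
  rw [fderiv_fun_add (dif hf p) (dif hg p)]
  rfl

theorem pd_sub {f g : (κ → ℝ) → ℝ} (hf : ContDiff ℝ ∞ f) (hg : ContDiff ℝ ∞ g) (a : κ)
    (p : κ → ℝ) : pd (fun q => f q - g q) a p = pd f a p - pd g a p := by
  unfold pd
  rw [fderiv_fun_sub (dif hf p) (dif hg p)]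
  rfl

theorem pd_mul' {f g : (κ → ℝ) → ℝ} (hf : ContDiff ℝ ∞ f) (hg : ContDiff ℝ ∞ g) (a : κ)
    (p : κ → ℝ) : pd (fun q => f q * g q) a p = pd f a p * g p + f p * pd g a p :=
  pd_mul (dif hf p) (dif hg p) a

theorem pd_const (c : ℝ) (a : κ) (p : κ → ℝ) : pd (fun _ => c) a p = 0 := by
  unfold pd
  simp

theorem pd_sum {f : Fin 3 → (κ → ℝ) → ℝ} (hf : ∀ j, ContDiff ℝ ∞ (f j)) (a : κ)
    (p : κ → ℝ) : pd (fun q => ∑ j, f j q) a p = ∑ j, pd (f j) a p := by
  unfold pd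
  rw [fderiv_fun_sum fun j _ => dif (hf j) p]
  simp

theorem sm_mk {q p : Fin 3 → (κ → ℝ) → ℝ} (hq : ∀ j, ContDiff ℝ ∞ (q j))
    (hp : ∀ j, ContDiff ℝ ∞ (p j)) :
    ContDiff ℝ ∞ fun (y : κ → ℝ) (j : Fin 3) => (⟨q j y, p j y⟩ : ℂ) := by
  refine contDiff_pi.mpr fun j => ?_
  have e : (fun y : κ → ℝ => (⟨q j y, p j y⟩ : ℂ)) =
      fun y => Complex.equivRealProdCLM.symm (q j y, p j y) := by
    funext y
    rfl
  rw [e]
  exact Complex.equivRealProdCLM.symm.contDiff.comp ((hq j).prodMk (hp j))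

theorem sympl_theta {q p : Fin 3 → (κ → ℝ) → ℝ} (hq : ∀ j, ContDiff ℝ ∞ (q j))
    (hp : ∀ j, ContDiff ℝ ∞ (p j)) (a b : κ) (y : κ → ℝ) :
    sympl (pd (fun (y : κ → ℝ) (j : Fin 3) => (⟨q j y, p j y⟩ : ℂ)) a y)
      (pd (fun (y : κ → ℝ) (j : Fin 3) => (⟨q j y, p j y⟩ : ℂ)) b y) =
      pd (fun y => ∑ j, q j y * pd (p j) a y) b y - pd (fun y => ∑ j, q j y * pd (p j) b y) a y := by
  have hre : ∀ c j, (pd (fun (y : κ → ℝ) (j : Fin 3) => (⟨q j y, p j y⟩ : ℂ)) c y j).re =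
      pd (q j) c y := fun c j =>
    (pd_clm (Complex.reCLM.comp (ContinuousLinearMap.proj (R := ℝ) (φ := fun _ : Fin 3 => ℂ) j))
      (dif (sm_mk hq hp) y) c).symm
  have him : ∀ c j, (pd (fun (y : κ → ℝ) (j : Fin 3) => (⟨q j y, p j y⟩ : ℂ)) c y j).im =
      pd (p j) c y := fun c j =>
    (pd_clm (Complex.imCLM.comp (ContinuousLinearMap.proj (R := ℝ) (φ := fun _ : Fin 3 => ℂ) j))
      (dif (sm_mk hq hp) y) c).symm
  rw [pd_sum (f := fun j y => q j y * pd (p j) a y) fun j => (hq j).mul (contDiff_pd (hp j) a),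
    pd_sum (f := fun j y => q j y * pd (p j) b y) fun j => (hq j).mul (contDiff_pd (hp j) b),
    ← Finset.sum_sub_distrib, sympl]
  refine Finset.sum_congr rfl fun j _ => ?_
  rw [hre, hre, him, him, pd_mul' (hq j) (contDiff_pd (hp j) a),
    pd_mul' (hq j) (contDiff_pd (hp j) b), pd_comm (hp j) a b]
  ring

/-- the projection as a linear map -/
noncomputable def zL : (Fin 4 → ℝ) →L[ℝ] Fin 3 → ℝ :=
  ContinuousLinearMap.pi ![ContinuousLinearMap.proj 0, ContinuousLinearMap.proj 2,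
    ContinuousLinearMap.proj 3]

theorem zL_apply (y : Fin 4 → ℝ) : zL y = zz y := by
  funext k
  fin_cases k <;> rfl

theorem sm_zz : ContDiff ℝ ∞ zz := by
  rw [← funext zL_apply]
  exact zL.contDiff

theorem pd_zz {f : (Fin 3 → ℝ) → ℝ} (hf : ContDiff ℝ ∞ f) (a : Fin 4) (y : Fin 4 → ℝ) :
    pd (fun y => f (zz y)) a y = fderiv ℝ f (zz y) (zz (Pi.single a 1)) := by
  have h := ((dif hf (zL y)).hasFDerivAt.comp y zL.hasFDerivAt).fderiv
  have e : (fun y => f (zz y)) = f ∘ zL := funext fun y => by rw [Function.comp_apply, zL_apply]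
  rw [pd, e, h, ContinuousLinearMap.comp_apply, zL_apply, zL_apply]

theorem zz0 (c : ℝ) : zz (Pi.single 0 c) = Pi.single 0 c := by
  funext k
  fin_cases k <;> simp [zz]

theorem zz1 (c : ℝ) : zz (Pi.single 1 c) = 0 := by
  funext k
  fin_cases k <;> simp [zz]

theorem zz2 (c : ℝ) : zz (Pi.single 2 c) = Pi.single 1 c := by
  funext k
  fin_cases k <;> simp [zz]

theorem zz3 (c : ℝ) : zz (Pi.single 3 c) = Pi.single 2 c := by
  funext k
  fin_cases k <;> simp [zz]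

theorem per_zz {V : Type} {f : (Fin 3 → ℝ) → V} (hf : Per f) (k : Fin 4) (y : Fin 4 → ℝ) :
    f (zz (y + Pi.single k (2 * π))) = f (zz y) := by
  rw [← zL_apply, map_add, zL_apply, zL_apply]
  fin_cases k
  · exact (congrArg (fun u => f (zz y + u)) (zz0 _)).trans (hf 0 _)
  · exact (congrArg (fun u => f (zz y + u)) (zz1 _)).trans (by rw [add_zero])
  · exact (congrArg (fun u => f (zz y + u)) (zz2 _)).trans (hf 1 _)
  · exact (congrArg (fun u => f (zz y + u)) (zz3 _)).trans (hf 2 _)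

theorem per_cos (k : Fin 4) (y : Fin 4 → ℝ) :
    cos ((y + Pi.single k (2 * π) : Fin 4 → ℝ) 1) = cos (y 1) := by
  by_cases h : k = 1
  · subst h
    simp
  · simp [Pi.single_eq_of_ne' h]

theorem per_sin (k : Fin 4) (y : Fin 4 → ℝ) :
    sin ((y + Pi.single k (2 * π) : Fin 4 → ℝ) 1) = sin (y 1) := by
  by_cases h : k = 1
  · subst h
    simp
  · simp [Pi.single_eq_of_ne' h]

theorem pd_one {f : ℝ → ℝ} (hf : ContDiff ℝ ∞ f) {a : Fin 4} (ha : a ≠ 1) (y : Fin 4 → ℝ) :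
    pd (fun y : Fin 4 → ℝ => f (y 1)) a y = 0 := by
  have h := ((hf.differentiable (by simp) (y 1)).hasFDerivAt.comp y
    (ContinuousLinearMap.proj (R := ℝ) (φ := fun _ : Fin 4 => ℝ) 1).hasFDerivAt).fderiv
  have e : (fun y : Fin 4 → ℝ => f (y 1)) =
      f ∘ (ContinuousLinearMap.proj (R := ℝ) (φ := fun _ : Fin 4 => ℝ) 1) := rfl
  rw [pd, e, h]
  simp [Pi.single_eq_of_ne' ha]

variable {P g : (Fin 3 → ℝ) → Fin 3 → ℝ} {H : (Fin 3 → ℝ) → ℝ}

theorem pos (h : ExA P g H) (z : Fin 3 → ℝ) : 0 < P z ⬝ᵥ P z :=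
  lt_of_le_of_ne (Finset.sum_nonneg fun _ _ => mul_self_nonneg _)
    fun e => h.ne z (dotProduct_self_eq_zero.mp e.symm)

theorem sm_mu (h : ExA P g H) : ContDiff ℝ ∞ (mu P) := by
  have h1 : ContDiff ℝ ∞ fun z => P z ⬝ᵥ P z :=
    ContDiff.sum fun j _ => (contDiff_pi.mp h.smP j).mul (contDiff_pi.mp h.smP j)
  exact (h1.sqrt fun z => (pos h z).ne').inv fun z => (sqrt_pos.mpr (pos h z)).ne'

theorem mu_sq (h : ExA P g H) (z : Fin 3 → ℝ) :
    ∑ j, mu P z * P z j * (mu P z * P z j) = 1 := by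
  have h1 : mu P z * mu P z * (P z ⬝ᵥ P z) = 1 := by
    rw [mu, ← mul_inv, mul_self_sqrt (pos h z).le, inv_mul_cancel₀ (pos h z).ne']
  rw [← h1, dotProduct, Finset.mul_sum]
  exact Finset.sum_congr rfl fun j _ => by ring

theorem pd_comp (h : ExA P g H) (k j : Fin 3) (z : Fin 3 → ℝ) :
    fderiv ℝ (fun z => P z j) z (Pi.single k 1) = pd P k z j :=
  pd_clm (ContinuousLinearMap.proj (R := ℝ) (φ := fun _ : Fin 3 => ℝ) j) (dif h.smP z) k

theorem pd_P0 (h : ExA P g H) (z : Fin 3 → ℝ) : pd P 0 z = 0 := by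
  have h1 := (dif h.smP z).hasFDerivAt.hasLineDerivAt (Pi.single 0 1)
  have h2 : HasLineDerivAt ℝ P 0 z (Pi.single 0 1) := by
    have e : (fun t : ℝ => P (z + t • (Pi.single 0 1 : Fin 3 → ℝ))) = fun _ => P z :=
      funext fun t => h.ind _ _ (by simp) (by simp)
    rw [HasLineDerivAt, e]
    exact hasDerivAt_const _ _
  exact h1.unique h2

theorem gdP (h : ExA P g H) (a : Fin 4) (y : Fin 4 → ℝ) :
    ∑ j, g (zz y) j * pd (fun y => P (zz y) j) a y =
      pd (fun y => H (zz y)) a y - if a = 0 then pd H 0 (zz y) else 0 := by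
  have e : ∀ j, pd (fun y => P (zz y) j) a y =
      fderiv ℝ (fun z => P z j) (zz y) (zz (Pi.single a 1)) := fun j =>
    pd_zz (f := fun z => P z j) (contDiff_pi.mp h.smP j) a y
  simp only [e, pd_zz h.smH]
  obtain rfl | rfl | rfl | rfl : a = 0 ∨ a = 1 ∨ a = 2 ∨ a = 3 := by fin_cases a <;> simp
  · simp only [zz0, pd_comp h, pd_P0 h, if_true]
    simp [pd]
  · simp [zz1]
  · simp only [zz2, pd_comp h]
    rw [if_neg (by decide), sub_zero]
    exact h.g1 _
  · simp only [zz3, pd_comp h]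
    rw [if_neg (by decide), sub_zero]
    exact h.g2 _

end PLag

open PLag in
theorem p_lag : S_Lag := by
  intro P g H h δ
  have hm : ContDiff ℝ ∞ fun y => mu P (zz y) := (sm_mu h).comp sm_zz
  have hP : ∀ j, ContDiff ℝ ∞ fun y => P (zz y) j := fun j => (contDiff_pi.mp h.smP j).comp sm_zz
  have hg : ∀ j, ContDiff ℝ ∞ fun y => g (zz y) j := fun j => (contDiff_pi.mp h.smg j).comp sm_zz
  have hH : ContDiff ℝ ∞ fun y => H (zz y) := h.smH.comp sm_zz
  have hr0 : ContDiff ℝ ∞ fun t : ℝ => 1 + δ * cos t :=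
    contDiff_const.add (contDiff_const.mul contDiff_cos)
  have hρ0 : ContDiff ℝ ∞ fun t : ℝ => δ * sin t := contDiff_const.mul contDiff_sin
  have hr : ContDiff ℝ ∞ fun y : Fin 4 → ℝ => 1 + δ * cos (y 1) := hr0.comp (contDiff_apply ℝ ℝ 1)
  have hρ : ContDiff ℝ ∞ fun y : Fin 4 → ℝ => δ * sin (y 1) := hρ0.comp (contDiff_apply ℝ ℝ 1)
  have hl : ContDiff ℝ ∞ (lam P δ) := hr.mul hm
  have ht : ContDiff ℝ ∞ (tt P H δ) := (hl.pow 3).mul ((contDiff_pd h.smH 0).comp sm_zz)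
  have hq : ∀ j, ContDiff ℝ ∞ fun y : Fin 4 → ℝ =>
      δ * sin (y 1) * mu P (zz y) * P (zz y) j + lam P δ y ^ 2 * g (zz y) j := fun j =>
    ((hρ.mul hm).mul (hP j)).add ((hl.pow 2).mul (hg j))
  have hp : ∀ j, ContDiff ℝ ∞ fun y => lam P δ y * P (zz y) j := fun j => hl.mul (hP j)
  have hK : ContDiff ℝ ∞ fun y => lam P δ y * lam P δ y * lam P δ y * H (zz y) :=
    ((hl.mul hl).mul hl).mul hH
  have pmu : Per (mu P) := fun k x => by rw [mu, mu, h.perP]
  have plam : Per (lam P δ) := fun k x => by rw [lam, lam, per_cos, per_zz pmu]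
  have hθ : ∀ (a : Fin 4) (y : Fin 4 → ℝ),
      ∑ j, (δ * sin (y 1) * mu P (zz y) * P (zz y) j + lam P δ y ^ 2 * g (zz y) j) *
        pd (fun y => lam P δ y * P (zz y) j) a y =
      pd (fun y => lam P δ y * lam P δ y * lam P δ y * H (zz y)) a y -
        (if a = 0 then 1 else 0) * tt P H δ y +
        δ * sin (y 1) * pd (fun y : Fin 4 → ℝ => 1 + δ * cos (y 1)) a y := fun a y => by
    have e1 := gdP h a y
    have e2 := mu_sq h (zz y)
    have e3 : pd (fun y => ∑ j, mu P (zz y) * P (zz y) j * (mu P (zz y) * P (zz y) j)) a y = 0 := by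
      simp only [mu_sq h, pd_const]
    rw [pd_sum (f := fun j y => mu P (zz y) * P (zz y) j * (mu P (zz y) * P (zz y) j))
      fun j => (hm.mul (hP j)).mul (hm.mul (hP j))] at e3
    simp only [pd_mul' (hm.mul (hP _)) (hm.mul (hP _)), pd_mul' hm (hP _)] at e3
    have e4 := h.gP (zz y)
    have e5 : pd (lam P δ) a y = pd (fun y : Fin 4 → ℝ => 1 + δ * cos (y 1)) a y * mu P (zz y) +
        (1 + δ * cos (y 1)) * pd (fun y => mu P (zz y)) a y := pd_mul' hr hm a y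
    have e6 : lam P δ y = (1 + δ * cos (y 1)) * mu P (zz y) := rfl
    rw [pd_mul' ((hl.mul hl).mul hl) hH, pd_mul' (hl.mul hl) hl, pd_mul' hl hl, tt]
    simp only [pd_mul' hl (hP _)]
    simp only [Fin.sum_univ_three, dotProduct] at e1 e2 e3 e4 ⊢
    rw [e5, e6]
    set r := 1 + δ * cos (y 1)
    set dr := pd (fun y : Fin 4 → ℝ => 1 + δ * cos (y 1)) a y
    set m := mu P (zz y)
    set dm := pd (fun y => mu P (zz y)) a y
    split_ifs at e1 ⊢
    all_goals
      linear_combination (r * m) ^ 3 * e1 + δ * sin (y 1) * dr * e2 +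
        δ * sin (y 1) * r / 2 * e3 + (r * m) ^ 2 * (dr * m + r * dm) * e4
  refine ⟨sm_mk hq hp, ht, fun k y => ?_, fun k y => ?_, fun y a b => ?_⟩
  · funext j
    simp only [ww, plam k y, per_zz pmu, per_zz h.perP, per_zz h.perg]
    rw [← per_sin k y]
  · rw [tt, tt, plam, per_zz (f := pd H 0) fun k x => pd_shift (h.perH k) 0 x]
  · have e := sympl_theta hq hp a b y
    simp only [hθ] at e
    have key : ∀ a b : Fin 4, pd (fun y => pd (fun y => lam P δ y * lam P δ y * lam P δ y *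
        H (zz y)) a y - (if a = 0 then 1 else 0) * tt P H δ y +
        δ * sin (y 1) * pd (fun y : Fin 4 → ℝ => 1 + δ * cos (y 1)) a y) b y =
        pd (pd (fun y => lam P δ y * lam P δ y * lam P δ y * H (zz y)) a) b y -
        (if a = 0 then pd (tt P H δ) b y else 0) +
        (pd (fun y : Fin 4 → ℝ => δ * sin (y 1)) b y *
          pd (fun y : Fin 4 → ℝ => 1 + δ * cos (y 1)) a y +
          δ * sin (y 1) * pd (pd (fun y : Fin 4 → ℝ => 1 + δ * cos (y 1)) a) b y) := fun a b => by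
      rw [pd_add ((contDiff_pd hK a).sub (contDiff_const.mul ht)) (hρ.mul (contDiff_pd hr a)),
        pd_sub (contDiff_pd hK a) (contDiff_const.mul ht), pd_mul' contDiff_const ht, pd_const,
        pd_mul' hρ (contDiff_pd hr a)]
      split_ifs <;> ring
    have k2 : pd (fun y : Fin 4 → ℝ => δ * sin (y 1)) b y *
        pd (fun y : Fin 4 → ℝ => 1 + δ * cos (y 1)) a y =
        pd (fun y : Fin 4 → ℝ => δ * sin (y 1)) a y *
        pd (fun y : Fin 4 → ℝ => 1 + δ * cos (y 1)) b y := by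
      by_cases ha : a = 1
      · by_cases hb : b = 1
        · rw [ha, hb]
        · rw [pd_one hρ0 hb, pd_one hr0 hb, zero_mul, mul_zero]
      · rw [pd_one hρ0 ha, pd_one hr0 ha, zero_mul, mul_zero]
    rw [key, key, pd_comm hK a b, pd_comm hr a b, k2] at e
    refine Eq.trans e ?_
    ring

end Pool.Agent.P.MP_a67bd8_gt.N4
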