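import Pool.Agent.P.MP_a67bd8_gt.N4.Stmt

/-!
Integrality of the winding number of quaternion valued maps.
-/

namespace Pool.Agent.P.MP_a67bd8_gt.N4

open MeasureTheory Set Matrix Real
open scoped ContDiff Matrix.Norms.Operator Quaternion

namespace PLink

/-- the last three coordinates -/
noncomputable def tl : (Fin 4 → ℝ) →L[ℝ] Fin 3 → ℝ :=
  ContinuousLinearMap.pi fun k : Fin 3 => ContinuousLinearMap.proj k.succ

theorem tl_apply (p : Fin 4 → ℝ) (k : Fin 3) : tl p k = p k.succ := rfl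

theorem tl_cons (t : ℝ) (x : Fin 3 → ℝ) : tl (Fin.cons t x) = x := by
  funext k
  simp [tl_apply]

theorem tl_zero (a : ℝ) : tl (Pi.single 0 a) = 0 := by
  funext k
  simp [tl_apply]

theorem tl_succ (k : Fin 3) (a : ℝ) : tl (Pi.single k.succ a) = Pi.single k a := by
  funext j
  simp [tl_apply, Pi.single_apply]

/-- the determinant of a map and its derivatives -/
noncomputable def DD (u : (Fin 3 → ℝ) → Fin 4 → ℝ) (x : Fin 3 → ℝ) : ℝ :=
  (Matrix.of ![u x, pd u 0 x, pd u 1 x, pd u 2 x]).det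

theorem det_fd (H : (Fin 4 → ℝ) → Fin 4 → ℝ) (p : Fin 4 → ℝ) :
    (fderiv ℝ H p).det = (Matrix.of ![pd H 0 p, pd H 1 p, pd H 2 p, pd H 3 p]).det := by
  rw [ContinuousLinearMap.det, ← LinearMap.det_toMatrix', ← det_transpose]
  congr 1
  ext i j
  fin_cases i <;> simp [pd]

theorem det_scale (a b : ℝ) (w x y z : Fin 4 → ℝ) :
    (Matrix.of ![a • w, b • x, b • y, b • z]).det =
      a * b ^ 3 * (Matrix.of ![w, x, y, z]).det := by
  have e : Matrix.of ![a • w, b • x, b • y, b • z] =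
      diagonal ![a, b, b, b] * Matrix.of ![w, x, y, z] := by
    ext i j
    fin_cases i <;> simp
  rw [e, det_mul, det_diagonal, Fin.prod_univ_four]
  simp only [cons_val_zero, cons_val_one, cons_val]
  ring

/-- the homotopy -/
noncomputable def HH (u : (Fin 3 → ℝ) → Fin 4 → ℝ) (χ : ℝ → ℝ) (y : Fin 4 → ℝ)
    (p : Fin 4 → ℝ) : Fin 4 → ℝ := p 0 • u (tl p) - χ (p 0) • y

theorem HH_sm {u : (Fin 3 → ℝ) → Fin 4 → ℝ} {χ : ℝ → ℝ} (hu : ContDiff ℝ ∞ u)
    (hχ : ContDiff ℝ ∞ χ) (y : Fin 4 → ℝ) : ContDiff ℝ ∞ (HH u χ y) :=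
  ((contDiff_apply ℝ ℝ 0).smul (hu.comp tl.contDiff)).sub
    ((hχ.comp (contDiff_apply ℝ ℝ 0)).smul contDiff_const)

theorem HH_fd {u : (Fin 3 → ℝ) → Fin 4 → ℝ} {χ : ℝ → ℝ} (hu : ContDiff ℝ ∞ u)
    (hχ : ContDiff ℝ ∞ χ) (y : Fin 4 → ℝ) (p w : Fin 4 → ℝ) :
    fderiv ℝ (HH u χ y) p w =
      p 0 • fderiv ℝ u (tl p) (tl w) + w 0 • u (tl p) - (w 0 * deriv χ (p 0)) • y := by
  have h0 : HasFDerivAt (fun q : Fin 4 → ℝ => q 0)
      (ContinuousLinearMap.proj 0 : (Fin 4 → ℝ) →L[ℝ] ℝ) p := hasFDerivAt_apply 0 p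
  have h1 := (hu.differentiable (by simp) (tl p)).hasFDerivAt.comp p tl.hasFDerivAt
  have h2 := (hχ.differentiable (by simp) (p 0)).hasDerivAt.comp_hasFDerivAt p h0
  have h3 := (h0.smul h1).sub (h2.smul_const y)
  have e : fderiv ℝ (HH u χ y) p = _ := h3.fderiv
  rw [e]
  simp [mul_comm]

theorem HH_zero {u : (Fin 3 → ℝ) → Fin 4 → ℝ} {χ : ℝ → ℝ} (hu : ContDiff ℝ ∞ u)
    (hχ : ContDiff ℝ ∞ χ) (y : Fin 4 → ℝ) (p : Fin 4 → ℝ) :
    pd (HH u χ y) 0 p = u (tl p) - deriv χ (p 0) • y := by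
  rw [pd, HH_fd hu hχ, tl_zero]
  simp

theorem HH_succ {u : (Fin 3 → ℝ) → Fin 4 → ℝ} {χ : ℝ → ℝ} (hu : ContDiff ℝ ∞ u)
    (hχ : ContDiff ℝ ∞ χ) (y : Fin 4 → ℝ) (p : Fin 4 → ℝ) (k : Fin 3) :
    pd (HH u χ y) k.succ p = p 0 • pd u k (tl p) := by
  rw [pd, HH_fd hu hχ, tl_succ]
  simp [pd]

theorem HH_det {u : (Fin 3 → ℝ) → Fin 4 → ℝ} {χ : ℝ → ℝ} (hu : ContDiff ℝ ∞ u)
    (hχ : ContDiff ℝ ∞ χ) (y : Fin 4 → ℝ) (p : Fin 4 → ℝ) (h : deriv χ (p 0) = 0) :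
    (fderiv ℝ (HH u χ y) p).det = p 0 ^ 3 * DD u (tl p) := by
  have e1 := HH_succ hu hχ y p 0
  have e2 := HH_succ hu hχ y p 1
  have e3 := HH_succ hu hχ y p 2
  rw [det_fd, HH_zero hu hχ, h, zero_smul, sub_zero, show pd (HH u χ y) 1 p = _ from e1,
    show pd (HH u χ y) 2 p = _ from e2, show pd (HH u χ y) 3 p = _ from e3, DD]
  have := det_scale 1 (p 0) (u (tl p)) (pd u 0 (tl p)) (pd u 1 (tl p)) (pd u 2 (tl p))
  rwa [one_smul, one_mul] at this

theorem one_le_dot {y : Fin 4 → ℝ} (h : 1 ≤ ‖y‖) : 1 ≤ y ⬝ᵥ y := by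
  by_contra hc
  have h1 : ‖y‖ < 1 := by
    refine (pi_norm_lt_iff one_pos).2 fun i => ?_
    have h2 : y i * y i ≤ y ⬝ᵥ y :=
      Finset.single_le_sum (f := fun j => y j * y j) (fun j _ => mul_self_nonneg _)
        (Finset.mem_univ i)
    rw [Real.norm_eq_abs, ← sq_lt_one_iff_abs_lt_one]
    nlinarith
  linarith

theorem pd_smul {H : (Fin 4 → ℝ) → Fin 4 → ℝ} (h : ContDiff ℝ ∞ H) (c : ℝ) (i : Fin 4)
    (p : Fin 4 → ℝ) : pd (fun q => c • H q) i p = c • pd H i p := by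
  have := ((h.differentiable (by simp) p).hasFDerivAt.const_smul c).fderiv
  exact congrArg (fun T => T (Pi.single i 1)) this

theorem key (h1 : S_Piola) (h2 : S_Count) {V : (Fin 4 → ℝ) → Fin 4 → ℝ} (hV : ContDiff ℝ ∞ V)
    (hV1 : ∀ y, 1 ≤ y ⬝ᵥ y → V y = ((y ⬝ᵥ y) ^ 2)⁻¹ • y) (hV2 : ∀ y, 1 ≤ y ⬝ᵥ y → dv V y = 0)
    {u : (Fin 3 → ℝ) → Fin 4 → ℝ} (hu : ContDiff ℝ ∞ u) (hp : Per u) (hne : ∀ x, u x ≠ 0)
    {y : Fin 4 → ℝ} (hy : y ≠ 0)
    (hreg : ∀ t : ℝ, 0 < t → ∀ x ∈ cube, t • u x = y → (∀ k, x k ∈ Ioo 0 (2 * π)) ∧ DD u x ≠ 0) :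
    ∃ (s : Finset (Fin 4 → ℝ)) (σ : (Fin 4 → ℝ) → ℤ),
      (∀ p, p ∈ s ↔ 0 < p 0 ∧ tl p ∈ cube ∧ p 0 • u (tl p) = y) ∧
      (∀ p ∈ s, σ p = 1 ∨ σ p = -1) ∧
      ∫ x in cube, DD u x / (u x ⬝ᵥ u x) ^ 2 = (∫ z, dv V z) * ((∑ p ∈ s, σ p : ℤ) : ℝ) := by
  have hc0 : (0 : Fin 3 → ℝ) ∈ cube := ⟨le_rfl, fun _ => by simp; positivity⟩
  obtain ⟨x₁, -, hx₁⟩ := (isCompact_Icc : IsCompact cube).exists_isMinOn ⟨0, hc0⟩
    hu.continuous.norm.continuousOn
  set m := ‖u x₁‖ with hm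
  have m0 : 0 < m := norm_pos_iff.2 (hne _)
  have hmin : ∀ x ∈ cube, m ≤ ‖u x‖ := fun x hx => hx₁ hx
  set T := ‖y‖ / m + 1 with hT
  have hTm : ‖y‖ < T * m := by
    rw [hT, add_mul, div_mul_cancel₀ _ m0.ne']
    linarith
  have T0 : 0 < T := by positivity
  set χ : ℝ → ℝ := fun t => smoothTransition (T + 1 - t) with hχ
  have χsm : ContDiff ℝ ∞ χ := smoothTransition.contDiff.comp (contDiff_const.sub contDiff_id)
  have χ1 : ∀ t, t ≤ T → χ t = 1 := fun t ht => smoothTransition.one_of_one_le (by linarith)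
  have χ0 : χ (T + 1) = 0 := smoothTransition.zero_of_nonpos (by linarith)
  have χd : ∀ t, t < T → deriv χ t = 0 := fun t ht => by
    have : χ =ᶠ[nhds t] fun _ => 1 := by
      filter_upwards [Iio_mem_nhds ht] with r hr using χ1 r (le_of_lt hr)
    rw [this.deriv_eq, deriv_const]
  have hlt : ∀ t, 0 ≤ t → ∀ x ∈ cube, ∀ r : ℝ, 0 ≤ r → r ≤ 1 → t • u x = r • y → t < T := by
    intro t ht x hx r r0 r1 e
    by_contra hc
    have e1 := congrArg norm e
    rw [norm_smul, norm_smul, Real.norm_of_nonneg ht, Real.norm_of_nonneg r0] at e1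
    have := hmin x hx
    have := norm_nonneg y
    nlinarith
  have hbox : ∀ p : Fin 4 → ℝ, p ∈ box 0 (T + 1) ↔ (0 ≤ p 0 ∧ p 0 ≤ T + 1) ∧ tl p ∈ cube := by
    intro p
    simp only [box, cube, mem_Icc, Pi.le_def, Fin.forall_fin_succ (n := 3), Fin.cons_zero,
      Fin.cons_succ, tl_apply]
    tauto
  have hz : ∀ p, (p ∈ box 0 (T + 1) ∧ HH u χ y p = 0) ↔
      0 < p 0 ∧ tl p ∈ cube ∧ p 0 • u (tl p) = y := by
    intro p
    rw [hbox, HH, sub_eq_zero]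
    constructor
    · rintro ⟨⟨⟨a, -⟩, c⟩, e⟩
      have h3 := hlt _ a _ c _ (smoothTransition.nonneg _) (smoothTransition.le_one _) e
      rw [χ1 _ h3.le, one_smul] at e
      refine ⟨lt_of_le_of_ne a fun h => hy ?_, c, e⟩
      rw [← e, ← h, zero_smul]
    · rintro ⟨a, c, e⟩
      have h3 := hlt _ a.le _ c 1 zero_le_one le_rfl (by rw [e, one_smul])
      exact ⟨⟨⟨a.le, by linarith⟩, c⟩, by rw [χ1 _ h3.le, one_smul, e]⟩
  have Hsm := HH_sm hu χsm y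
  have dvc : Continuous (dv V) :=
    continuous_finsetSum _ fun i _ => (continuous_apply i).comp (contDiff_pd hV i).continuous
  obtain ⟨s, σ, c₀, hs, hσ, hint⟩ := h2 (dv V) dvc (fun z hz => hV2 z (one_le_dot hz))
    (HH u χ y) Hsm (box 0 (T + 1)) isCompact_Icc (by
      intro p hpK hp0
      obtain ⟨a, c, e⟩ := (hz p).1 ⟨hpK, hp0⟩
      have h3 := hlt _ a.le _ c 1 zero_le_one le_rfl (by rw [e, one_smul])
      obtain ⟨h4, h5⟩ := hreg _ a _ c e
      refine ⟨mem_interior_iff_mem_nhds.2 (pi_Icc_mem_nhds ?_ ?_), ?_⟩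
      · exact Fin.forall_fin_succ.2 ⟨a, fun k => (h4 k).1⟩
      · exact Fin.forall_fin_succ.2 ⟨by simpa using by linarith, fun k => (h4 k).2⟩
      · rw [HH_det hu χsm y p (χd _ h3)]
        exact mul_ne_zero (pow_ne_zero _ a.ne') h5)
  refine ⟨s, σ, fun p => (hs p).trans (hz p), hσ, ?_⟩
  set c := max c₀ (1 / (T * m)) with hc
  have c1 : 1 / (T * m) ≤ c := le_max_right _ _
  have c0 : 0 < c := lt_of_lt_of_le (by positivity) c1
  rw [← hint c c0 (le_max_left _ _), h1 V (fun q => c • HH u χ y q) hV (Hsm.const_smul c)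
    (fun k p => by rw [HH, HH, map_add, tl_succ, hp k (tl p)]; simp) 0 (T + 1) (by linarith)]
  have rows : ∀ (t : ℝ) (x : Fin 3 → ℝ) (k : Fin 3),
      pd (fun q => c • HH u χ y q) k.succ (Fin.cons t x) = (c * t) • pd u k x := by
    intro t x k
    rw [pd_smul Hsm, HH_succ hu χsm, tl_cons, smul_smul]
    rfl
  have f0 : flux V (fun q => c • HH u χ y q) 0 = 0 := by
    unfold flux
    refine integral_eq_zero_of_ae (Filter.Eventually.of_forall fun x => ?_)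
    refine det_eq_zero_of_row_eq_zero 1 fun j => ?_
    have := congrFun (rows 0 x 0) j
    simpa using this
  rw [f0, sub_zero]
  unfold flux
  refine setIntegral_congr_fun measurableSet_Icc fun x hx => ?_
  have e1 := rows (T + 1) x 0
  have e2 := rows (T + 1) x 1
  have e3 := rows (T + 1) x 2
  have e0 : c • HH u χ y (Fin.cons (T + 1) x) = (c * (T + 1)) • u x := by
    rw [HH, tl_cons, Fin.cons_zero, χ0, zero_smul, sub_zero, smul_smul]
  have b0 : 0 < c * (T + 1) := by positivity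
  have hn : 1 ≤ ‖(c * (T + 1)) • u x‖ := by
    rw [norm_smul, Real.norm_of_nonneg b0.le]
    have h3 := hmin x hx
    rw [div_le_iff₀ (by positivity)] at c1
    calc 1 ≤ c * (T * m) := c1
      _ ≤ c * ((T + 1) * ‖u x‖) := by gcongr; linarith
      _ = _ := by ring
  have hd : u x ⬝ᵥ u x ≠ 0 := fun h => hne x (dotProduct_self_eq_zero.1 h)
  simp only
  rw [show pd (fun q => c • HH u χ y q) 1 (Fin.cons (T + 1) x) = _ from e1,
    show pd (fun q => c • HH u χ y q) 2 (Fin.cons (T + 1) x) = _ from e2,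
    show pd (fun q => c • HH u χ y q) 3 (Fin.cons (T + 1) x) = _ from e3, e0,
    hV1 _ (one_le_dot hn), smul_smul, det_scale, DD, smul_dotProduct, dotProduct_smul,
    smul_eq_mul, smul_eq_mul]
  field_simp

/-- the coordinates of a quaternion -/
noncomputable def co : ℍ →L[ℝ] Fin 4 → ℝ :=
  LinearMap.toContinuousLinearMap
    { toFun := fun a => ![a.re, a.imI, a.imJ, a.imK]
      map_add' := fun a b => by
        funext i
        fin_cases i <;> simp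
      map_smul' := fun c a => by
        funext i
        fin_cases i <;> simp }

theorem co_apply (a : ℍ) : co a = ![a.re, a.imI, a.imJ, a.imK] := rfl

theorem co_inj {a b : ℍ} (h : co a = co b) : a = b :=
  Quaternion.ext a b (congrFun h 0) (congrFun h 1) (congrFun h 2) (congrFun h 3)

theorem regular {u : (Fin 3 → ℝ) → Fin 4 → ℝ} (hu : ContDiff ℝ ∞ u) :
    ∃ y : Fin 4 → ℝ, y ≠ 0 ∧ ∀ t : ℝ, 0 < t → ∀ x ∈ cube, t • u x = y →
      (∀ k, x k ∈ Ioo 0 (2 * π)) ∧ DD u x ≠ 0 := by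
  have χsm : ContDiff ℝ ∞ fun _ : ℝ => (0 : ℝ) := contDiff_const
  set Q := HH u (fun _ => 0) 0 with hQ
  have Qd : Differentiable ℝ Q := (HH_sm hu χsm 0).differentiable (by simp)
  have n1 : volume (Q '' {p | (fderiv ℝ Q p).det = 0}) = 0 :=
    addHaar_image_eq_zero_of_det_fderivWithin_eq_zero volume
      (fun p _ => (Qd p).hasFDerivAt.hasFDerivWithinAt) fun p hp => hp
  have n2 : volume (Q '' ⋃ k : Fin 3, ({p : Fin 4 → ℝ | p k.succ = 0} ∪
      {p : Fin 4 → ℝ | p k.succ = 2 * π})) = 0 := by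
    refine addHaar_image_eq_zero_of_differentiableOn_of_addHaar_eq_zero volume
      Qd.differentiableOn (measure_iUnion_null fun k => measure_union_null ?_ ?_) <;>
    exact Measure.pi_hyperplane (fun _ : Fin 4 => (volume : Measure ℝ)) _ _
  have n3 : volume ({0} : Set (Fin 4 → ℝ)) = 0 := measure_singleton _
  obtain ⟨y, hy⟩ := (Measure.dense_of_ae (μ := volume)
    (measure_eq_zero_iff_ae_notMem.1 (measure_union_null (measure_union_null n1 n2) n3))).nonempty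
  simp only [mem_ofPred_eq, mem_union, not_or] at hy
  refine ⟨y, hy.2, fun t ht x hx e => ?_⟩
  have eQ : Q (Fin.cons t x) = y := by
    rw [hQ, HH, tl_cons, Fin.cons_zero, e]
    simp
  refine ⟨fun k => ⟨lt_of_le_of_ne (hx.1 k) fun h => hy.1.2 ⟨_, mem_iUnion.2 ⟨k, Or.inl ?_⟩, eQ⟩,
    lt_of_le_of_ne (hx.2 k) fun h => hy.1.2 ⟨_, mem_iUnion.2 ⟨k, Or.inr ?_⟩, eQ⟩⟩,
    fun h => hy.1.1 ⟨_, ?_, eQ⟩⟩
  · exact h.symm
  · exact h
  · rw [mem_ofPred_eq, hQ, HH_det hu χsm 0 _ (deriv_const _ _), tl_cons, h, mul_zero]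

end PLink

open PLink

theorem p_link (h1 : S_Piola) (h2 : S_Count) (h3 : S_Field) (h4 : S_Jac) : ∃ κ, Link κ := by
  obtain ⟨V, hV, hV1, hV2, hV3⟩ := h3
  have pre : ∀ v : (Fin 3 → ℝ) → ℍ, Ad v → ContDiff ℝ ∞ (fun x => co (v x)) ∧
      Per (fun x => co (v x)) ∧ ∀ x, co (v x) ≠ 0 := fun v hv =>
    ⟨co.contDiff.comp hv.sm, fun k x => congrArg co (hv.per k x),
      fun x h => (hv.un x).ne_zero (co_inj (h.trans (map_zero co).symm))⟩
  refine ⟨-2 * ((∫ z, dv V z : ℝ) : ℂ), mul_ne_zero (by norm_num) (by exact_mod_cast hV3),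
    fun v hv => ?_, fun v hv x₀ hx₀ ha hb => ?_⟩
  · obtain ⟨a, b, c⟩ := pre v hv
    obtain ⟨y, hy, hreg⟩ := regular a
    obtain ⟨s, σ, -, -, e⟩ := key h1 h2 hV hV1 hV2 a b c hy hreg
    refine ⟨∑ p ∈ s, σ p, ?_⟩
    rw [h4 v hv (fun x => co (v x)) fun x => rfl]
    unfold DD at e
    rw [e]
    push_cast
    ring
  · obtain ⟨a, b, c⟩ := pre v hv
    have hx : x₀ ∈ cube := ⟨fun k => (hx₀ k).1.le, fun k => (hx₀ k).2.le⟩
    have ha' : ∀ t : ℝ, 0 < t → ∀ x ∈ cube, t • co (v x) = co (v x₀) → x = x₀ :=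
      fun t ht x hx e => ha t ht x hx (co_inj (by rw [map_smul, e]))
    have hD : DD (fun x => co (v x)) x₀ ≠ 0 := by
      intro h
      obtain ⟨w, hw, e⟩ := exists_vecMul_eq_zero_iff.2 h
      have hd := hv.sm.differentiable (by simp) x₀
      have e1 : co (w 0 • v x₀ + fderiv ℝ v x₀ (tl w)) = co 0 := by
        rw [pd_clm co hd, pd_clm co hd, pd_clm co hd] at e
        rw [map_zero, ← e, clm_eq_sum (fderiv ℝ v x₀), Fin.sum_univ_three]
        simp only [map_add, map_smul, pd, tl_apply]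
        funext j
        simp [vecMul, dotProduct, Fin.sum_univ_four, add_assoc]
      obtain ⟨e2, e3⟩ := hb _ _ (co_inj e1)
      refine hw (funext fun i => ?_)
      refine Fin.cases e2 (fun k => congrFun e3 k) i
    obtain ⟨s, σ, hs, hσ, e⟩ := key h1 h2 hV hV1 hV2 a b c (c x₀) fun t ht x hx e => by
      rw [ha' t ht x hx e]
      exact ⟨hx₀, hD⟩
    have hs1 : s = {Fin.cons 1 x₀} := by
      refine Finset.eq_singleton_iff_unique_mem.2 ⟨(hs _).2 ?_, fun p hp => ?_⟩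
      · rw [tl_cons]
        exact ⟨by simp, hx, by simp⟩
      · obtain ⟨p0, p1, p2⟩ := (hs p).1 hp
        have e1 := ha' _ p0 _ p1 p2
        rw [e1] at p2
        have e2 : p 0 = 1 := smul_left_injective ℝ (c x₀) (by simpa using p2)
        funext i
        exact Fin.cases e2 (fun k => congrFun e1 k) i
    rw [h4 v hv (fun x => co (v x)) fun x => rfl]
    unfold DD at e
    rw [e, hs1, Finset.sum_singleton]
    rcases hσ (Fin.cons 1 x₀) (by simp [hs1]) with h | h <;> simp [h]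

end Pool.Agent.P.MP_a67bd8_gt.N4
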