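import Pool.Agent.P.MP_a67bd8_gt.N4.Stmt

/-!
The divergence theorem for a pulled back vector field.
-/

namespace Pool.Agent.P.MP_a67bd8_gt.N4

open MeasureTheory Set Matrix Real
open scoped ContDiff Matrix.Norms.Operator Quaternion

namespace PPiola

/-- a two by two minor -/
def mn (i j : Fin 4) (a b : Fin 4 → ℝ) : ℝ := a i * b j - a j * b i

/-- the determinant through its Laplace expansion -/
def D4 (a b c d : Fin 4 → ℝ) : ℝ :=
  mn 0 1 a b * mn 2 3 c d - mn 0 2 a b * mn 1 3 c d + mn 0 3 a b * mn 1 2 c d +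
    mn 1 2 a b * mn 0 3 c d - mn 1 3 a b * mn 0 2 c d + mn 2 3 a b * mn 0 1 c d

theorem det_eq (a b c d : Fin 4 → ℝ) : (Matrix.of ![a, b, c, d]).det = D4 a b c d := by
  simp [det_succ_row_zero, Fin.sum_univ_succ, D4, mn, Fin.succAbove]
  ring

/-- a function with a given coordinate derivative -/
def Hd (f : (Fin 4 → ℝ) → ℝ) (μ : Fin 4) (p : Fin 4 → ℝ) (v : ℝ) : Prop :=
  DifferentiableAt ℝ f p ∧ pd f μ p = v

variable {f g : (Fin 4 → ℝ) → ℝ} {μ : Fin 4} {p : Fin 4 → ℝ} {u v : ℝ}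

theorem Hd.mul (hf : Hd f μ p u) (hg : Hd g μ p v) :
    Hd (fun q => f q * g q) μ p (u * g p + f p * v) :=
  ⟨hf.1.mul hg.1, by rw [pd_mul hf.1 hg.1, hf.2, hg.2]⟩

theorem Hd.add (hf : Hd f μ p u) (hg : Hd g μ p v) : Hd (fun q => f q + g q) μ p (u + v) :=
  ⟨hf.1.add hg.1, by
    rw [← hf.2, ← hg.2]
    unfold pd
    rw [fderiv_fun_add hf.1 hg.1]
    rfl⟩

theorem Hd.sub (hf : Hd f μ p u) (hg : Hd g μ p v) : Hd (fun q => f q - g q) μ p (u - v) :=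
  ⟨hf.1.sub hg.1, by
    rw [← hf.2, ← hg.2]
    unfold pd
    rw [fderiv_fun_sub hf.1 hg.1]
    rfl⟩

variable {a b c d : (Fin 4 → ℝ) → Fin 4 → ℝ}

theorem hd_entry (ha : DifferentiableAt ℝ a p) (μ i : Fin 4) :
    Hd (fun q => a q i) μ p (pd a μ p i) :=
  ⟨differentiableAt_pi.1 ha i,
    pd_clm (ContinuousLinearMap.proj (R := ℝ) (φ := fun _ : Fin 4 => ℝ) i) ha μ⟩

theorem hd_mn (ha : DifferentiableAt ℝ a p) (hb : DifferentiableAt ℝ b p) (μ i j : Fin 4) :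
    Hd (fun q => mn i j (a q) (b q)) μ p
      (mn i j (pd a μ p) (b p) + mn i j (a p) (pd b μ p)) := by
  have h := ((hd_entry ha μ i).mul (hd_entry hb μ j)).sub ((hd_entry ha μ j).mul (hd_entry hb μ i))
  refine ⟨h.1, h.2.trans ?_⟩
  simp only [mn]
  ring

theorem pd_D4 (ha : DifferentiableAt ℝ a p) (hb : DifferentiableAt ℝ b p)
    (hc : DifferentiableAt ℝ c p) (hd : DifferentiableAt ℝ d p) (μ : Fin 4) :
    pd (fun q => D4 (a q) (b q) (c q) (d q)) μ p =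
      D4 (pd a μ p) (b p) (c p) (d p) + D4 (a p) (pd b μ p) (c p) (d p) +
        D4 (a p) (b p) (pd c μ p) (d p) + D4 (a p) (b p) (c p) (pd d μ p) := by
  have m := hd_mn ha hb μ
  have n := hd_mn hc hd μ
  have h := ((((((m 0 1).mul (n 2 3)).sub ((m 0 2).mul (n 1 3))).add ((m 0 3).mul (n 1 2))).add
    ((m 1 2).mul (n 0 3))).sub ((m 1 3).mul (n 0 2))).add ((m 2 3).mul (n 0 1))
  refine h.2.trans ?_
  simp only [D4]
  ring

theorem cd_mn (ha : ContDiff ℝ ∞ a) (hb : ContDiff ℝ ∞ b) (i j : Fin 4) :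
    ContDiff ℝ ∞ fun q => mn i j (a q) (b q) :=
  ((contDiff_pi.1 ha i).mul (contDiff_pi.1 hb j)).sub
    ((contDiff_pi.1 ha j).mul (contDiff_pi.1 hb i))

theorem cd_D4 (ha : ContDiff ℝ ∞ a) (hb : ContDiff ℝ ∞ b) (hc : ContDiff ℝ ∞ c)
    (hd : ContDiff ℝ ∞ d) : ContDiff ℝ ∞ fun q => D4 (a q) (b q) (c q) (d q) :=
  have m := cd_mn ha hb
  have n := cd_mn hc hd
  ((((((m 0 1).mul (n 2 3)).sub ((m 0 2).mul (n 1 3))).add ((m 0 3).mul (n 1 2))).add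
    ((m 1 2).mul (n 0 3))).sub ((m 1 3).mul (n 0 2))).add ((m 2 3).mul (n 0 1))

theorem det_fderiv (H : (Fin 4 → ℝ) → Fin 4 → ℝ) (p : Fin 4 → ℝ) :
    (fderiv ℝ H p).det = D4 (pd H 0 p) (pd H 1 p) (pd H 2 p) (pd H 3 p) := by
  rw [← det_eq, ContinuousLinearMap.det, ← LinearMap.det_toMatrix', ← det_transpose]
  congr 1
  ext i j
  fin_cases i <;> simp [pd]

theorem pd_comp {V H : (Fin 4 → ℝ) → Fin 4 → ℝ} (hV : DifferentiableAt ℝ V (H p))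
    (hH : DifferentiableAt ℝ H p) (μ : Fin 4) :
    pd (fun q => V (H q)) μ p = ∑ k, pd H μ p k • pd V k (H p) := by
  have h := (hV.hasFDerivAt.comp p hH.hasFDerivAt).fderiv
  unfold pd
  rw [← clm_eq_sum]
  exact congrArg (fun T => T (Pi.single μ 1)) h

theorem trace_id (r0 r1 r2 r3 : Fin 4 → ℝ) (M : Fin 4 → Fin 4 → ℝ) :
    D4 (∑ k, r0 k • M k) r1 r2 r3 + D4 r0 (∑ k, r1 k • M k) r2 r3 +
      D4 r0 r1 (∑ k, r2 k • M k) r3 + D4 r0 r1 r2 (∑ k, r3 k • M k) =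
        (∑ i, M i i) * D4 r0 r1 r2 r3 := by
  simp only [D4, mn, Fin.sum_univ_four, Pi.add_apply, Pi.smul_apply, smul_eq_mul]
  ring

theorem cancel (w r0 r1 r2 r3 s01 s02 s03 s12 s13 s23 : Fin 4 → ℝ) :
    D4 w s01 r2 r3 + D4 w r1 s02 r3 + D4 w r1 r2 s03 +
      (D4 s01 w r2 r3 + D4 r0 w s12 r3 + D4 r0 w r2 s13) +
      (D4 s02 r1 w r3 + D4 r0 s12 w r3 + D4 r0 r1 w s23) +
      (D4 s03 r1 r2 w + D4 r0 s13 r2 w + D4 r0 r1 s23 w) = 0 := by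
  simp only [D4, mn]
  ring

/-- the pulled back field -/
noncomputable def pull (V H : (Fin 4 → ℝ) → Fin 4 → ℝ) : Fin 4 → (Fin 4 → ℝ) → ℝ :=
  ![fun q => D4 (V (H q)) (pd H 1 q) (pd H 2 q) (pd H 3 q),
    fun q => D4 (pd H 0 q) (V (H q)) (pd H 2 q) (pd H 3 q),
    fun q => D4 (pd H 0 q) (pd H 1 q) (V (H q)) (pd H 3 q),
    fun q => D4 (pd H 0 q) (pd H 1 q) (pd H 2 q) (V (H q))]

variable {V H : (Fin 4 → ℝ) → Fin 4 → ℝ}

theorem cd_pull (hV : ContDiff ℝ ∞ V) (hH : ContDiff ℝ ∞ H) (i : Fin 4) :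
    ContDiff ℝ ∞ (pull V H i) := by
  have hW : ContDiff ℝ ∞ fun q => V (H q) := hV.comp hH
  have hr := contDiff_pd hH
  fin_cases i
  · exact cd_D4 hW (hr 1) (hr 2) (hr 3)
  · exact cd_D4 (hr 0) hW (hr 2) (hr 3)
  · exact cd_D4 (hr 0) (hr 1) hW (hr 3)
  · exact cd_D4 (hr 0) (hr 1) (hr 2) hW

theorem per_pull {s : Fin 4 → ℝ} (h : ∀ p, H (p + s) = H p) (i : Fin 4) (p : Fin 4 → ℝ) :
    pull V H i (p + s) = pull V H i p := by
  fin_cases i <;> simp [pull, pd_shift h, h]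

theorem div_pull (hV : ContDiff ℝ ∞ V) (hH : ContDiff ℝ ∞ H) (p : Fin 4 → ℝ) :
    dv V (H p) * (fderiv ℝ H p).det = ∑ i, pd (pull V H i) i p := by
  have hW : ContDiff ℝ ∞ fun q => V (H q) := hV.comp hH
  have dW := hW.differentiable (by simp) p
  have dr := fun i => (contDiff_pd hH i).differentiable (by simp) p
  have c := pd_comp (hV.differentiable (by simp) (H p)) (hH.differentiable (by simp) p)
  rw [Fin.sum_univ_four]
  show _ = pd (fun q => D4 (V (H q)) (pd H 1 q) (pd H 2 q) (pd H 3 q)) 0 p +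
    pd (fun q => D4 (pd H 0 q) (V (H q)) (pd H 2 q) (pd H 3 q)) 1 p +
    pd (fun q => D4 (pd H 0 q) (pd H 1 q) (V (H q)) (pd H 3 q)) 2 p +
    pd (fun q => D4 (pd H 0 q) (pd H 1 q) (pd H 2 q) (V (H q))) 3 p
  rw [pd_D4 dW (dr 1) (dr 2) (dr 3), pd_D4 (dr 0) dW (dr 2) (dr 3), pd_D4 (dr 0) (dr 1) dW (dr 3),
    pd_D4 (dr 0) (dr 1) (dr 2) dW, c, c, c, c, det_fderiv, pd_comm hH 1 0, pd_comm hH 2 0,
    pd_comm hH 3 0, pd_comm hH 2 1, pd_comm hH 3 1, pd_comm hH 3 2]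
  have t := trace_id (pd H 0 p) (pd H 1 p) (pd H 2 p) (pd H 3 p) fun k => pd V k (H p)
  have z := cancel (V (H p)) (pd H 0 p) (pd H 1 p) (pd H 2 p) (pd H 3 p) (pd (pd H 1) 0 p)
    (pd (pd H 2) 0 p) (pd (pd H 3) 0 p) (pd (pd H 2) 1 p) (pd (pd H 3) 1 p) (pd (pd H 3) 2 p)
  unfold dv
  linarith

end PPiola

theorem p_piola : S_Piola := by
  intro V H hV hH hp a b hab
  have key := stokes (PPiola.pull V H) (PPiola.cd_pull hV hH)
    (fun k p => PPiola.per_pull (hp k) _ p) hab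
  unfold flux
  simp only [PPiola.det_eq, PPiola.div_pull hV hH]
  exact key

end Pool.Agent.P.MP_a67bd8_gt.N4
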