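import Pool.Agent.P.MP_a67bd8_gt.N4.Stmt

/-!
Lifting of orthonormal pairs of imaginary quaternions to unit quaternions.
-/

namespace Pool.Agent.P.MP_a67bd8_gt.N4

open MeasureTheory Set Matrix Real Filter Topology
open scoped ContDiff Matrix.Norms.Operator Quaternion

namespace PSpin

theorem add_self2 (a : ZMod 2) : a + a = 0 := by
  revert a
  decide

/-- on a simply connected space, locally constant mod two cocycles are trivial -/
theorem cech {X : Type} [TopologicalSpace X] [SimplyConnectedSpace X]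
    [LocallyPathConnectedSpace X] {ι : Type}
    (U : ι → Set X) (hU : ∀ i, IsOpen (U i)) (hc : ∀ x, ∃ i, x ∈ U i)
    (g : ι → ι → X → ZMod 2)
    (hl : ∀ i j x, x ∈ U i → x ∈ U j → ∀ᶠ y in 𝓝 x, g i j y = g i j x)
    (hg : ∀ i j k x, x ∈ U i → x ∈ U j → x ∈ U k → g i j x + g j k x = g i k x) :
    ∃ s : ι → X → ZMod 2, (∀ i, ∀ x ∈ U i, ∀ᶠ y in 𝓝 x, s i y = s i x) ∧
      ∀ i j x, x ∈ U i → x ∈ U j → s i x + s j x = g i j x := by
  choose idx hidx using hc
  have hself : ∀ i x, x ∈ U i → g i i x = 0 := fun i x hx => by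
    have := hg i i i x hx hx hx
    rw [add_self2] at this
    exact this.symm
  let Z : FiberBundleCore ι X (ZMod 2) :=
    { baseSet := U
      isOpen_baseSet := hU
      indexAt := idx
      mem_baseSet_at := hidx
      coordChange := fun i j x v => v + g i j x
      coordChange_self := fun i x hx v => by rw [hself i x hx, add_zero]
      continuousOn_coordChange := fun i j => by
        intro p hp
        refine ContinuousAt.continuousWithinAt
          ((continuousAt_const (y := p.2 + g i j p.1)).congr ?_)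
        filter_upwards [continuous_fst.continuousAt (hl i j p.1 hp.1.1 hp.1.2),
          continuous_snd.continuousAt ((isOpen_discrete {p.2}).mem_nhds rfl)] with q h1 h2
        have h1' : g i j q.1 = g i j p.1 := h1
        have h2' : q.2 = p.2 := h2
        rw [h1', h2']
      coordChange_comp := fun i j k x hx v => by
        rw [add_assoc, hg i j k x hx.1.1 hx.1.2 hx.2] }
  have cov : IsCoveringMap Z.proj :=
    IsCoveringMap.mk Z.proj (fun _ => ZMod 2) Z.localTrivAt Z.mem_localTrivAt_baseSet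
  obtain ⟨x₀⟩ : Nonempty X := inferInstance
  obtain ⟨F, ⟨-, hF⟩, -⟩ := cov.existsUnique_continuousMap_lifts (ContinuousMap.id X) x₀
    ⟨x₀, (0 : ZMod 2)⟩ rfl
  have hF' : ∀ x, (F x).1 = x := fun x => congrFun hF x
  refine ⟨fun i x => (Z.localTriv i (F x)).2, fun i x hx => ?_, fun i j x hi hj => ?_⟩
  · have h1 : ContinuousAt (fun x => (Z.localTriv i (F x)).2) x := by
      refine continuous_snd.continuousAt.comp (ContinuousAt.comp ?_ F.continuous.continuousAt)
      refine (Z.localTriv i).continuousAt ?_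
      rw [Z.mem_localTriv_source, hF']
      exact hx
    exact h1 ((isOpen_discrete {(Z.localTriv i (F x)).2}).mem_nhds rfl)
  · simp only [FiberBundleCore.localTriv_apply]
    change ((show ZMod 2 from (F x).2) + g (idx (F x).1) i (F x).1) +
      ((show ZMod 2 from (F x).2) + g (idx (F x).1) j (F x).1) = _
    generalize (show ZMod 2 from (F x).2) = v
    rw [hF']
    have h1 := hg (idx x) i j x (hidx x) hi hj
    have h2 := add_self2 v
    have h3 := add_self2 (g (idx x) i x)
    linear_combination h2 - h1 + h3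

/-- the first imaginary unit -/
def qi : ℍ := ⟨0, 1, 0, 0⟩

/-- the second imaginary unit -/
def qj : ℍ := ⟨0, 0, 1, 0⟩

/-- the third imaginary unit -/
def qk : ℍ := ⟨0, 0, 0, 1⟩

theorem qi_c : qi.re = 0 ∧ qi.imI = 1 ∧ qi.imJ = 0 ∧ qi.imK = 0 := ⟨rfl, rfl, rfl, rfl⟩

theorem qj_c : qj.re = 0 ∧ qj.imI = 0 ∧ qj.imJ = 1 ∧ qj.imK = 0 := ⟨rfl, rfl, rfl, rfl⟩

theorem qk_c : qk.re = 0 ∧ qk.imI = 0 ∧ qk.imJ = 0 ∧ qk.imK = 1 := ⟨rfl, rfl, rfl, rfl⟩

/-- the projection onto the solutions -/
noncomputable def pr (a b w : ℍ) : ℍ := w - a * w * qi - b * w * qj - a * b * w * qk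

/-- solutions of the intertwining equations -/
def Sol (a b q : ℍ) : Prop := a * q = q * qi ∧ b * q = q * qj

theorem sq_of {a : ℍ} (h0 : a.re = 0) (h1 : ‖a‖ = 1) : a * a = -1 := by
  have h2 : Quaternion.normSq a = 1 := by rw [Quaternion.normSq_eq_norm_mul_self, h1, mul_one]
  rw [Quaternion.normSq_def', h0] at h2
  ext <;> simp [h0] <;> linarith

theorem anti_of {a b : ℍ} (ha : a.re = 0) (hb : b.re = 0) (h : (a * b).re = 0) :
    b * a = -(a * b) := by
  simp [ha, hb] at h
  ext <;> simp [ha, hb] <;> linarith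

theorem pr_sol {a b : ℍ} (ha : a * a = -1) (hb : b * b = -1) (hab : b * a = -(a * b)) (w : ℍ) :
    Sol a b (pr a b w) := by
  have ii : qi * qi = -1 := by ext <;> simp [qi_c]
  have jj : qj * qj = -1 := by ext <;> simp [qj_c]
  have ij : qi * qj = qk := by ext <;> simp [qi_c, qj_c, qk_c]
  have ji : qj * qi = -qk := by ext <;> simp [qi_c, qj_c, qk_c]
  have ki : qk * qi = qj := by ext <;> simp [qi_c, qj_c, qk_c]
  have kj : qk * qj = -qi := by ext <;> simp [qi_c, qj_c, qk_c]
  constructor
  · have e1 : a * pr a b w = a * w - (a * a) * w * qi - a * b * w * qj - (a * a) * b * w * qk := by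
      unfold pr
      noncomm_ring
    have e2 : pr a b w * qi =
        w * qi - a * w * (qi * qi) - b * w * (qj * qi) - a * b * w * (qk * qi) := by
      unfold pr
      noncomm_ring
    rw [e1, e2, ha, ii, ji, ki]
    noncomm_ring
  · have e1 : b * pr a b w =
        b * w - (b * a) * w * qi - (b * b) * w * qj - (b * a) * b * w * qk := by
      unfold pr
      noncomm_ring
    have e2 : pr a b w * qj =
        w * qj - a * w * (qi * qj) - b * w * (qj * qj) - a * b * w * (qk * qj) := by
      unfold pr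
      noncomm_ring
    have e3 : -(a * b) * b = a := by
      rw [neg_mul, mul_assoc, hb]
      simp
    rw [e1, e2, hab, e3, hb, ij, jj, kj]
    noncomm_ring

theorem pr_ne (a b : ℍ) : ∃ w, pr a b w ≠ 0 := by
  by_contra h
  push Not at h
  have e : pr a b 1 - pr a b qi * qi - pr a b qj * qj - pr a b qk * qk = 1 + 1 + 1 + 1 := by
    ext <;> simp [pr, qi_c, qj_c, qk_c] <;> ring
  rw [h, h, h, h] at e
  have := congrArg QuaternionAlgebra.re e
  simp only [zero_mul, sub_zero, Quaternion.re_add, Quaternion.re_one, Quaternion.re_zero] at this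
  norm_num at this

theorem Sol.smul {a b q : ℍ} (h : Sol a b q) (c : ℝ) : Sol a b (c • q) :=
  ⟨by rw [mul_smul_comm, h.1, smul_mul_assoc], by rw [mul_smul_comm, h.2, smul_mul_assoc]⟩

theorem mul_star_of {q : ℍ} (h : ‖q‖ = 1) : q * star q = 1 := by
  rw [Quaternion.self_mul_star, Quaternion.normSq_eq_norm_mul_self, h, mul_one]
  rfl

theorem star_mul_of {q : ℍ} (h : ‖q‖ = 1) : star q * q = 1 := by
  rw [Quaternion.star_mul_self, Quaternion.normSq_eq_norm_mul_self, h, mul_one]
  rfl

theorem sol_sign {a b p q : ℍ} (hp : Sol a b p) (hq : Sol a b q) (np : ‖p‖ = 1) (nq : ‖q‖ = 1) :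
    q = p ∨ q = -p := by
  have key : ∀ c u : ℍ, c * p = p * u → c * q = q * u → star p * q * u = u * (star p * q) := by
    intro c u h1 h2
    have h3 : star p * c = u * star p := by
      calc star p * c = star p * (c * p) * star p := by
            rw [mul_assoc, mul_assoc, mul_star_of np, mul_one]
        _ = u * star p := by rw [h1, ← mul_assoc, star_mul_of np, one_mul]
    rw [mul_assoc, ← h2, ← mul_assoc, h3, mul_assoc]
  have h1 := key a qi hp.1 hq.1
  have h2 := key b qj hp.2 hq.2
  have hn : ‖star p * q‖ = 1 := by rw [norm_mul, norm_star, np, nq, mul_one]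
  have hq' : q = p * (star p * q) := by rw [← mul_assoc, mul_star_of np, one_mul]
  generalize star p * q = c at h1 h2 hn hq'
  have a1 := congrArg QuaternionAlgebra.imJ h1
  have a2 := congrArg QuaternionAlgebra.imK h1
  have a3 := congrArg QuaternionAlgebra.imK h2
  simp [qi_c, qj_c] at a1 a2 a3
  have b1 : c.imK = 0 := by linarith
  have b2 : c.imJ = 0 := by linarith
  have b3 : c.imI = 0 := by linarith
  have h4 : Quaternion.normSq c = 1 := by rw [Quaternion.normSq_eq_norm_mul_self, hn, mul_one]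
  rw [Quaternion.normSq_def', b1, b2, b3] at h4
  have h5 : (c.re - 1) * (c.re + 1) = 0 := by linarith
  rcases mul_eq_zero.1 h5 with h | h
  · left
    have : c = 1 := by ext <;> simp [b1, b2, b3]; linarith
    rw [hq', this, mul_one]
  · right
    have : c = -1 := by ext <;> simp [b1, b2, b3]; linarith
    rw [hq', this, mul_neg, mul_one]

theorem ne_neg {q : ℍ} (h : ‖q‖ = 1) : q ≠ -q := fun e => by
  have h2 : (2 : ℝ) • q = 0 := by
    rw [two_smul]
    exact eq_neg_iff_add_eq_zero.1 e
  have := congrArg norm h2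
  rw [norm_smul, h, norm_zero] at this
  norm_num at this

theorem far {p q : ℍ} (h : ‖p‖ = 1) (hq : q = p ∨ q = -p) (hd : ‖q - p‖ < 2) : q = p := by
  rcases hq with e | e
  · exact e
  · exfalso
    have : q - p = (-2 : ℝ) • p := by
      rw [e, neg_smul, two_smul]
      abel
    rw [this, norm_smul, h] at hd
    norm_num at hd

/-- the sign of a residue -/
noncomputable def sg (s : ZMod 2) : ℝ := if s = 0 then 1 else -1

theorem sg_abs (s : ZMod 2) : ‖sg s‖ = 1 := by
  unfold sg
  split_ifs <;> simp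

/-- a global smooth unit solution -/
theorem exists_sol {a b : (Fin 3 → ℝ) → ℍ} (sa : ContDiff ℝ ∞ a) (sb : ContDiff ℝ ∞ b)
    (ha : ∀ x, a x * a x = -1) (hb : ∀ x, b x * b x = -1)
    (hab : ∀ x, b x * a x = -(a x * b x)) :
    ∃ q : (Fin 3 → ℝ) → ℍ, ContDiff ℝ ∞ q ∧ (∀ x, ‖q x‖ = 1) ∧ ∀ x, Sol (a x) (b x) (q x) := by
  classical
  have sp : ∀ w, ContDiff ℝ ∞ fun x => pr (a x) (b x) w := fun w =>
    ((contDiff_const.sub ((sa.mul contDiff_const).mul contDiff_const)).sub
      ((sb.mul contDiff_const).mul contDiff_const)).sub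
      (((sa.mul sb).mul contDiff_const).mul contDiff_const)
  let U : ℍ → Set (Fin 3 → ℝ) := fun w => {x | pr (a x) (b x) w ≠ 0}
  have hU : ∀ w, IsOpen (U w) := fun w => isOpen_ne_fun (sp w).continuous continuous_const
  let n : ℍ → (Fin 3 → ℝ) → ℍ := fun w x => ‖pr (a x) (b x) w‖⁻¹ • pr (a x) (b x) w
  have nn : ∀ w, ∀ x ∈ U w, ‖n w x‖ = 1 := fun w x hx => norm_smul_inv_norm hx
  have ns : ∀ w x, Sol (a x) (b x) (n w x) := fun w x =>
    (pr_sol (ha x) (hb x) (hab x) w).smul _
  have nc : ∀ w, ∀ x ∈ U w, ContDiffAt ℝ ∞ (n w) x := fun w x hx =>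
    (((sp w).contDiffAt.norm ℝ hx).inv (norm_ne_zero_iff.2 hx)).smul (sp w).contDiffAt
  have sgn : ∀ v w x, x ∈ U v → x ∈ U w → n w x = n v x ∨ n w x = -n v x := fun v w x hv hw =>
    sol_sign (ns v x) (ns w x) (nn v x hv) (nn w x hw)
  obtain ⟨s, hs1, hs2⟩ := cech U hU (fun x => pr_ne _ _)
    (fun v w x => if n w x = n v x then 0 else 1)
    (fun v w x hv hw => by
      have cv := (nc v x hv).continuousAt
      have cw := (nc w x hw).continuousAt
      by_cases e : n w x = n v x
      · have c1 : ContinuousAt (fun y => ‖n w y - n v y‖) x := (cw.sub cv).norm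
        have l1 : ‖n w x - n v x‖ < 2 := by rw [e]; simp
        filter_upwards [c1.eventually (gt_mem_nhds l1), (hU v).mem_nhds hv, (hU w).mem_nhds hw]
          with y h1 h2 h3
        rw [if_pos e, if_pos (far (nn v y h2) (sgn v w y h2 h3) h1)]
      · have c1 : ContinuousAt (fun y => n w y - n v y) x := cw.sub cv
        filter_upwards [c1.eventually_ne (sub_ne_zero.2 e)] with y h1
        rw [if_neg e, if_neg (sub_ne_zero.1 h1)])
    (fun u v w x hu hv hw => by
      have k1 := ne_neg (nn u x hu)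
      rcases sgn u v x hu hv with e1 | e1 <;> rcases sgn u w x hu hw with e2 | e2 <;>
        simp only [e1, e2, k1, k1.symm, if_true, if_false] <;> decide)
  have agree : ∀ v w x, x ∈ U v → x ∈ U w → sg (s v x) • n v x = sg (s w x) • n w x := by
    intro v w x hv hw
    have h1 := hs2 v w x hv hw
    have k1 := ne_neg (nn v x hv)
    have z : ∀ p q : ZMod 2, (p + q = 0 → p = q) ∧ (p + q = 1 → (p = 0 ↔ ¬ q = 0)) := by decide
    rcases sgn v w x hv hw with e | e
    · simp only [e, if_true] at h1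
      rw [(z _ _).1 h1, e]
    · simp only [e, k1.symm, if_false] at h1
      have h2 := (z _ _).2 h1
      unfold sg
      by_cases h3 : s v x = 0
      · rw [if_pos h3, if_neg (h2.1 h3), e]
        simp
      · rw [if_neg h3, if_pos (by tauto), e]
        simp
  choose idx hidx using fun x => pr_ne (a x) (b x)
  refine ⟨fun x => sg (s (idx x) x) • n (idx x) x, ?_, fun x => ?_, fun x => (ns _ x).smul _⟩
  · refine contDiff_iff_contDiffAt.2 fun x => ?_
    refine ((nc (idx x) x (hidx x)).const_smul (sg (s (idx x) x))).congr_of_eventuallyEq ?_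
    filter_upwards [hs1 (idx x) x (hidx x), (hU (idx x)).mem_nhds (hidx x)] with y h1 h2
    rw [agree (idx y) (idx x) y (hidx y) h2, h1]
  · rw [norm_smul, sg_abs, nn _ x (hidx x), mul_one]

/-- a continuous choice of sign is constant -/
theorem sign_const {p q : (Fin 3 → ℝ) → ℍ} (cp : Continuous p) (cq : Continuous q)
    (np : ∀ x, ‖p x‖ = 1) (h : ∀ x, q x = p x ∨ q x = -p x) :
    ∃ n : ℤ, ∀ x, q x = cos (n * π) • p x := by
  have c1 : IsClosed {x | q x = p x} := isClosed_eq cq cp
  have c2 : IsClosed {x | q x = -p x} := isClosed_eq cq cp.neg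
  have e : {x | q x = p x}ᶜ = {x | q x = -p x} := by
    ext x
    constructor
    · intro hx
      exact (h x).resolve_left hx
    · intro hx h1
      exact ne_neg (np x) ((show q x = p x from h1).symm.trans hx)
  have cl : IsClopen {x | q x = p x} := ⟨c1, isClosed_compl_iff.1 (e ▸ c2)⟩
  rcases isClopen_iff.1 cl with h0 | h0
  · refine ⟨1, fun x => ?_⟩
    have : x ∈ {x | q x = p x}ᶜ := by
      rw [h0]
      simp
    rw [e] at this
    rw [show q x = -p x from this]
    simp
  · refine ⟨0, fun x => ?_⟩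
    have : x ∈ {x | q x = p x} := by
      rw [h0]
      trivial
    rw [show q x = p x from this]
    simp

/-- the rotation -/
noncomputable def ro (t : ℝ) : ℍ := cos t • (1 : ℍ) + sin t • qi

theorem ro_c (t : ℝ) :
    (ro t).re = cos t ∧ (ro t).imI = sin t ∧ (ro t).imJ = 0 ∧ (ro t).imK = 0 := by
  simp [ro, qi_c]

theorem ro_norm (t : ℝ) : ‖ro t‖ = 1 := by
  have h : ‖ro t‖ * ‖ro t‖ = 1 := by
    rw [← Quaternion.normSq_eq_norm_mul_self, Quaternion.normSq_def']
    simp [ro_c]
  nlinarith [norm_nonneg (ro t)]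

theorem ro_add (t : ℝ) (n : ℤ) : cos (n * π) • ro (t + n * π) = ro t := by
  have h1 : sin (n * π) = 0 := sin_int_mul_pi n
  have h2 : cos (n * π) * cos (n * π) = 1 := by
    have := sin_sq_add_cos_sq (n * π)
    rw [h1] at this
    linarith
  rw [ro, ro, cos_add, sin_add, h1, smul_add, smul_smul, smul_smul]
  congr 2
  · linear_combination cos t * h2
  · linear_combination sin t * h2

theorem ro_i (t : ℝ) : ro t * qi * star (ro t) = qi := by
  have := sin_sq_add_cos_sq t
  ext <;> simp [qi_c, ro_c] <;> linarith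

theorem ro_j (t : ℝ) (u : ℍ)
    (hu : u.re = 0 ∧ u.imI = 0 ∧ u.imJ = cos (-(2 * t)) ∧ u.imK = sin (-(2 * t))) :
    ro t * u * star (ro t) = qj := by
  have h := sin_sq_add_cos_sq t
  rw [cos_neg, sin_neg, cos_two_mul, sin_two_mul] at hu
  ext
  · simp [qj_c, ro_c, hu]
  · simp [qj_c, ro_c, hu]
  · simp [qj_c, ro_c, hu]
    linear_combination (1 + 2 * cos t ^ 2) * h
  · simp [qj_c, ro_c, hu]
    linear_combination (2 * cos t * sin t) * h

end PSpin

open PSpin in
theorem p_spin : S_Spin := by
  intro e₁ e₂ s1 s2 p1 p2 r1 r2 n1 n2 r12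
  obtain ⟨q, sq, nq, hq⟩ := exists_sol s1 s2 (fun x => sq_of (r1 x) (n1 x))
    (fun x => sq_of (r2 x) (n2 x)) fun x => anti_of (r1 x) (r2 x) (r12 x)
  have hk : ∀ k : Fin 3, ∃ n : ℤ, ∀ x, q (x + Pi.single k (2 * π)) = cos (n * π) • q x := by
    intro k
    refine sign_const sq.continuous (sq.continuous.comp (continuous_id.add continuous_const)) nq
      fun x => sol_sign (hq x) ?_ (nq x) (nq _)
    have := hq (x + Pi.single k (2 * π))
    rwa [p1 k x, p2 k x] at this
  choose n hn using hk
  let ψ : (Fin 3 → ℝ) → ℝ := fun x => (∑ k, n k * x k) / 2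
  have sψ : ContDiff ℝ ∞ ψ :=
    (ContDiff.sum fun k _ => contDiff_const.mul (contDiff_apply ℝ ℝ k)).div_const 2
  have pψ : ∀ k x, ψ (x + Pi.single k (2 * π)) = ψ x + n k * π := by
    intro k x
    have e : ∑ j, (n j : ℝ) * (Pi.single k (2 * π) : Fin 3 → ℝ) j = n k * (2 * π) := by
      rw [Finset.sum_eq_single k (fun j _ hj => by simp [hj]) (by simp), Pi.single_eq_same]
    simp only [ψ, Pi.add_apply, mul_add, Finset.sum_add_distrib]
    rw [e]
    ring
  have nq' : ∀ x, ‖q x * ro (ψ x)‖ = 1 := fun x => by rw [norm_mul, nq, ro_norm, mul_one]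
  have cj : ∀ x (u : ℍ), q x * ro (ψ x) * u * star (q x * ro (ψ x)) =
      q x * (ro (ψ x) * u * star (ro (ψ x))) * star (q x) := fun x u => by
    rw [star_mul]
    simp only [mul_assoc]
  refine ⟨fun x => q x * ro (ψ x), fun k => -n k, ⟨?_, fun x => ?_, fun k x => ?_⟩, nq',
    fun x => ?_, fun x => ?_⟩
  · exact sq.mul ((sψ.cos.smul contDiff_const).add (sψ.sin.smul contDiff_const))
  · refine IsUnit.mk0 _ fun h => ?_
    have := nq' x
    rw [h, norm_zero] at this
    exact zero_ne_one this
  · beta_reduce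
    rw [hn, pψ, smul_mul_assoc, ← mul_smul_comm, ro_add]
  · refine (cj x qi).trans ?_
    rw [ro_i, ← (hq x).1, mul_assoc, mul_star_of (nq x), mul_one]
  · have e : ∑ k, ((-n k : ℤ) : ℝ) * x k = -(2 * ψ x) := by
      simp only [ψ, Int.cast_neg, neg_mul, Finset.sum_neg_distrib]
      ring
    refine (cj x _).trans ?_
    refine (congrArg (fun u => q x * u * star (q x))
      (ro_j (ψ x) _ ⟨rfl, rfl, congrArg cos e, congrArg sin e⟩)).trans ?_
    beta_reduce
    rw [← (hq x).2, mul_assoc, mul_star_of (nq x), mul_one]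

end Pool.Agent.P.MP_a67bd8_gt.N4
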