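import Pool.Agent.P.MP_a67bd8_gt.N4.Stmt

/-! The Lagrangian suspension of an exact loop of Lagrangian immersions. -/

namespace Pool.Agent.P.MP_a67bd8_gt.N4

open MeasureTheory Set Matrix Real
open scoped ContDiff Matrix.Norms.Operator Quaternion

set_option linter.unusedSectionVars false

namespace PSus

open D

variable {n : ℕ} (w : (Fin (n + 1) → ℝ) → Fin n → ℂ) (τ : (Fin (n + 1) → ℝ) → ℝ) (R : ℝ)

/-- the radius -/
noncomputable def rr (y : Fin (n + 1) → ℝ) : ℝ := √(R + 2 * τ y)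

/-- the suspension -/
noncomputable def sus (y : Fin (n + 1) → ℝ) : Fin (n + 1) → ℂ :=
  Fin.cons ((rr τ R y : ℂ) * ex (y 0)) (w y)

/-- the weights of the columns -/
noncomputable def wt (s : ℝ) : Fin (n + 1) → ℝ := Fin.cons s fun _ => 1

/-- the deformation of the frame -/
noncomputable def Gs (s : ℝ) (y : Fin (n + 1) → ℝ) : Matrix (Fin (n + 1)) (Fin (n + 1)) ℂ :=
  Matrix.of fun j a => (Fin.cons
    ((((s * pd (rr τ R) a y : ℝ) : ℂ) +
      (((Pi.single a 1 : Fin (n + 1) → ℝ) 0 * rr τ R y : ℝ) : ℂ) * Complex.I) * ex (y 0))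
    (fun k => ((wt s a : ℝ) : ℂ) * pd w a y k) : Fin (n + 1) → ℂ) j

theorem Gs_zero (s : ℝ) (y : Fin (n + 1) → ℝ) (a : Fin (n + 1)) : Gs w τ R s y 0 a =
    (((s * pd (rr τ R) a y : ℝ) : ℂ) +
      (((Pi.single a 1 : Fin (n + 1) → ℝ) 0 * rr τ R y : ℝ) : ℂ) * Complex.I) * ex (y 0) := rfl

theorem Gs_succ (s : ℝ) (y : Fin (n + 1) → ℝ) (k : Fin n) (a : Fin (n + 1)) :
    Gs w τ R s y k.succ a = ((wt s a : ℝ) : ℂ) * pd w a y k := rfl

theorem wt_zero (s : ℝ) : wt (n := n) s 0 = s := rfl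

theorem wt_succ (s : ℝ) (m : Fin n) : wt s m.succ = 1 := rfl

theorem wt_one (a : Fin (n + 1)) : wt 1 a = 1 := by
  refine Fin.cases rfl (fun _ => rfl) a

variable {w τ R}

theorem exists_R (h : Loop w τ) : ∃ R : ℝ, ∀ y, 0 < R + 2 * τ y := by
  obtain ⟨C, hC⟩ := per_bdd h.pert h.smt.continuous
  exact ⟨2 * C + 1, fun y => by linarith [neg_abs_le (τ y), hC y]⟩

variable (h : Loop w τ) (hR : ∀ y, 0 < R + 2 * τ y)
include h hR

theorem cd_r : ContDiff ℝ ∞ (rr τ R) :=
  (contDiff_const.add (contDiff_const.mul h.smt)).sqrt fun y => (hR y).ne'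

theorem r_pos (y : Fin (n + 1) → ℝ) : 0 < rr τ R y := Real.sqrt_pos.mpr (hR y)

theorem r_sq (y : Fin (n + 1) → ℝ) : rr τ R y * rr τ R y = R + 2 * τ y :=
  Real.mul_self_sqrt (hR y).le

theorem per_r : Per (rr τ R) := fun k y => by rw [rr, h.pert k, rr]

theorem r_pd (a : Fin (n + 1)) (y : Fin (n + 1) → ℝ) : rr τ R y * pd (rr τ R) a y = pd τ a y := by
  have d := (cd_r h hR).differentiable (by simp) y
  have d2 := h.smt.differentiable (by simp) y
  have h1 := pd_mul d d a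
  rw [funext (r_sq h hR), pd, ((d2.hasFDerivAt.const_mul 2).const_add R).fderiv] at h1
  have h2 : (2 : ℝ) * pd τ a y = _ := h1
  linarith

theorem cd_sus : ContDiff ℝ ∞ (sus w τ R) := contDiff_pi.mpr fun j => by
  refine Fin.cases ?_ (fun k => ?_) j
  · exact (Complex.ofRealCLM.contDiff.comp (cd_r h hR)).mul (cd_ex _)
  · exact contDiff_pi.mp h.smw k

theorem per_sus : Per (sus w τ R) := fun k y => by
  have h2 := per_ex (0 : Fin (n + 1)) k y
  simp only [sus, h.perw k, per_r h hR k] at h2 ⊢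
  simp only [h2]

theorem Gs_one (y : Fin (n + 1) → ℝ) : Gs w τ R 1 y = frame (sus w τ R) y := by
  ext j a
  have d := (cd_r h hR).differentiable (by simp) y
  rw [frame, of_apply, pd_pi ((cd_sus h hR).differentiable (by simp) y)]
  refine Fin.cases ?_ (fun k => ?_) j
  · refine Eq.trans ?_ (pd_mul (Complex.ofRealCLM.differentiableAt.comp y d)
      ((cd_ex (0 : Fin (n + 1))).differentiable (by simp) y) a).symm
    rw [pd_ex, show pd (Complex.ofRealCLM ∘ rr τ R) a y = _ from pd_clm Complex.ofRealCLM d a,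
      Gs_zero]
    simp only [one_mul, Complex.ofReal_mul, Complex.ofRealCLM_apply, Function.comp_apply]
    ring
  · refine Eq.trans ?_ (pd_pi (h.smw.differentiable (by simp) y) a k)
    rw [Gs_succ, wt_one, Complex.ofReal_one, one_mul]

theorem iso_Gs (s : ℝ) (y : Fin (n + 1) → ℝ) (a b : Fin (n + 1)) :
    sympl (fun j => Gs w τ R s y j a) (fun j => Gs w τ R s y j b) = 0 := by
  have e : ∑ k : Fin n, ((Gs w τ R s y k.succ a).im * (Gs w τ R s y k.succ b).re -
      (Gs w τ R s y k.succ a).re * (Gs w τ R s y k.succ b).im) =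
      wt s a * wt s b * sympl (pd w a y) (pd w b y) := by
    simp only [Gs_succ, sympl, Finset.mul_sum, Complex.re_ofReal_mul, Complex.im_ofReal_mul]
    exact Finset.sum_congr rfl fun k _ => by ring
  rw [sympl, Fin.sum_univ_succ, e, Gs_zero, Gs_zero, sy2, h.lag, ← r_pd h hR a, ← r_pd h hR b]
  refine Fin.cases ?_ (fun a => ?_) a <;> refine Fin.cases ?_ (fun b => ?_) b <;>
    simp [wt_zero, wt_succ] <;> ring

theorem inj_Gs (hi : Imm w) (s : ℝ) (y v : Fin (n + 1) → ℝ)
    (hv : Gs w τ R s y *ᵥ (fun a => (v a : ℂ)) = 0) : v = 0 := by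
  have h1 : v 0 = 0 := by
    have := congrFun hv 0
    simp only [Gs_zero, mulVec, dotProduct, mul_right_comm _ (ex _),
      ← Finset.sum_mul, Pi.zero_apply, mul_eq_zero, ex_ne, or_false] at this
    have := congrArg Complex.im this
    simpa [Complex.im_sum, Pi.single_apply, (r_pos h hR y).ne'] using this
  have h2 := hi y (fun m => v m.succ) (by
    funext k
    have := congrFun hv k.succ
    simp only [Gs_succ, mulVec, dotProduct, Fin.sum_univ_succ, h1, wt_succ, Complex.ofReal_zero,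
      mul_zero, zero_add, Complex.ofReal_one, one_mul] at this
    simpa [Finset.sum_apply, mul_comm] using this)
  funext a
  exact Fin.cases h1 (fun m => congrFun h2 m) a

theorem unit_Gs (hi : Imm w) (s : ℝ) (y : Fin (n + 1) → ℝ) : IsUnit (Gs w τ R s y) :=
  isUnit_of_iso (iso_Gs h hR s y) (inj_Gs h hR hi s y)

theorem lag_sus (hi : Imm w) (hj : Inj w τ) : IsLagTorus (desc (sus w τ R)) := by
  have e : (fun x => desc (sus w τ R) (cov x)) = sus w τ R := funext (desc_cov (per_sus h hR))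
  refine ⟨?_, fun c c' hc => ?_, fun x => ?_, fun x u v => ?_⟩
  · rw [e]
    exact cd_sus h hR
  · have hx : ∀ c : Fin (n + 1) → Circle, ex (Complex.arg (c 0)) = c 0 := fun c =>
      congrArg Subtype.val (Circle.exp_arg (c 0))
    have e1 : (rr τ R (fun j => Complex.arg (c j)) : ℂ) * ex (Complex.arg (c 0)) =
        (rr τ R (fun j => Complex.arg (c' j)) : ℂ) * ex (Complex.arg (c' 0)) := congrFun hc 0
    rw [hx, hx] at e1
    have e2 := congrArg norm e1
    simp only [norm_mul, Circle.norm_coe, mul_one, Complex.norm_real, Real.norm_eq_abs,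
      abs_of_pos (r_pos h hR _)] at e2
    have e3 := r_sq h hR fun j => Complex.arg (c j)
    rw [e2, r_sq h hR] at e3
    rw [e2] at e1
    have h1 : c 0 = c' 0 :=
      Subtype.ext (mul_left_cancel₀ (Complex.ofReal_ne_zero.mpr (r_pos h hR _).ne') e1)
    have := hj (fun j => Complex.arg (c j)) (fun j => Complex.arg (c' j))
      (by rw [cov_arg, cov_arg, h1]) (by linarith) (funext fun k => congrFun hc k.succ)
    rwa [cov_arg, cov_arg] at this
  · rw [e]
    refine (injective_iff_map_eq_zero _).mpr fun v hv => inj_Gs h hR hi 1 x v ?_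
    rw [Gs_one h hR, ← fderiv_eq_frame, hv]
  · rw [e, fderiv_eq_frame, fderiv_eq_frame, ← Gs_one h hR]
    exact sympl_real (iso_Gs h hR 1 x) u v

theorem per_Gs (s : ℝ) : Per (Gs w τ R s) := fun k y => by
  have h2 := per_ex (0 : Fin (n + 1)) k y
  simp only [Gs, pd_shift (h.perw k), per_r h hR k, pd_shift (per_r h hR k)] at h2 ⊢
  simp only [h2]

theorem cd_Gs (ℓ : (Fin 3 → ℝ) →L[ℝ] Fin (n + 1) → ℝ) :
    ContDiff ℝ ∞ fun z : ℝ × (Fin 3 → ℝ) => Gs w τ R z.1 (ℓ z.2) := by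
  have c : ContDiff ℝ ∞ fun q : ℝ × (Fin 3 → ℝ) => ℓ q.2 := ℓ.contDiff.comp contDiff_snd
  refine contDiff_mat.mpr fun j a => ?_
  refine Fin.cases ?_ (fun k => ?_) j
  · exact ((Complex.ofRealCLM.contDiff.comp
      (contDiff_fst.mul ((contDiff_pd (cd_r h hR) a).comp c))).add
      ((Complex.ofRealCLM.contDiff.comp (contDiff_const.mul ((cd_r h hR).comp c))).mul
        contDiff_const)).mul ((cd_ex 0).comp c)
  · refine (Complex.ofRealCLM.contDiff.comp (f := fun q : ℝ × (Fin 3 → ℝ) => wt q.1 a) ?_).mul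
      ((contDiff_pi.mp (contDiff_pd h.smw a) k).comp c)
    exact Fin.cases contDiff_fst (fun _ => contDiff_const) a

theorem wm_sus (hi : Imm w) (ℓ : (Fin 3 → ℝ) →L[ℝ] Fin (n + 1) → ℝ) (hl : Lp ℓ) :
    Ad (fun b => fib w (ℓ b)) ∧
      wm (fun b => frame (sus w τ R) (ℓ b)) = wm fun b => fib w (ℓ b) := by
  have hp : ∀ s, Per fun b => Gs w τ R s (ℓ b) := fun s k b =>
    per_cov (per_Gs h hR s) (by rw [map_add, cov_add, hl k, mul_one])
  have h1 := wm_homotopy (fun s b => Gs w τ R s (ℓ b)) (cd_Gs h hR ℓ)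
    (fun s b => unit_Gs h hR hi s _) hp
  have a0 : Ad fun b => Gs w τ R 0 (ℓ b) :=
    ⟨(cd_Gs h hR ℓ).comp (contDiff_const.prodMk contDiff_id), fun b => unit_Gs h hR hi 0 _, hp 0⟩
  have h2 := wm_col0 a0 fun b i => by rw [Gs_succ, wt_zero, Complex.ofReal_zero, zero_mul]
  have e : (fun b => (Gs w τ R 0 (ℓ b)).submatrix Fin.succ Fin.succ) = fun b => fib w (ℓ b) := by
    funext b
    ext j m
    rw [submatrix_apply, Gs_succ, wt_succ, Complex.ofReal_one, one_mul, fib, of_apply]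
  rw [e] at h2
  simp only [Gs_one h hR] at h1
  exact ⟨h2.1, h1.symm.trans h2.2⟩

end PSus

theorem p_sus : S_Sus := fun _ w τ h hi hj => by
  obtain ⟨R, hR⟩ := PSus.exists_R h
  refine ⟨_, PSus.lag_sus h hR hi hj, fun ℓ hl => ?_⟩
  rw [funext (D.desc_cov (PSus.per_sus h hR))]
  exact PSus.wm_sus h hR hi ℓ hl

end Pool.Agent.P.MP_a67bd8_gt.N4
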