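import Pool.Agent.P.MP_a67bd8_gt.N4.Asm
import Pool.Agent.P.MP_a67bd8_gt.N4.PPiola
import Pool.Agent.P.MP_a67bd8_gt.N4.PCount
import Pool.Agent.P.MP_a67bd8_gt.N4.PField
import Pool.Agent.P.MP_a67bd8_gt.N4.PLink
import Pool.Agent.P.MP_a67bd8_gt.N4.PSpin
import Pool.Agent.P.MP_a67bd8_gt.N4.PEv4
import Pool.Agent.P.MP_a67bd8_gt.N4.PEvS
import Pool.Agent.P.MP_a67bd8_gt.N4.PIso
import Pool.Agent.P.MP_a67bd8_gt.N4.PSus
import Pool.Agent.P.MP_a67bd8_gt.N4.PExA
import Pool.Agent.P.MP_a67bd8_gt.N4.PExB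
import Pool.Agent.P.MP_a67bd8_gt.N4.PLag
import Pool.Agent.P.MP_a67bd8_gt.N4.PImm
import Pool.Agent.P.MP_a67bd8_gt.N4.PGapB
import Pool.Agent.P.MP_a67bd8_gt.N4.PInj

/-!
Lagrangian tori that are not Lagrangian isotopic to the Clifford torus in all dimensions from
four on.
-/

namespace Pool.Agent.P.MP_a67bd8_gt.N4

open Set

theorem final (n : ℕ) (hn : 4 ≤ n) : ∃ f : (Fin n → Circle) → Fin n → ℂ,
    IsLagTorus f ∧ ¬LagIsotopic (range f) (clifford (Fin n)) := by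
  obtain ⟨κ, hκ⟩ := p_link p_piola p_count p_field p_jac
  refine not_iso hκ.ne p_iso ?_ ?_
  · induction n, hn using Nat.le_induction with
    | base => exact p_ev4 κ hκ p_spin
    | succ n hn ih => exact p_evS κ n hn ih
  · induction n, hn using Nat.le_induction with
    | base => exact od_four hκ p_sus p_lag p_imm p_gapB p_inj p_exA (p_exB p_exA) p_exC
    | succ n hn ih => exact od_succ p_sus ih

end Pool.Agent.P.MP_a67bd8_gt.N4
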