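import Pool.Agent.P.MP_a67bd8_gt.N4.Stmt

/-!
The winding number of the example.
-/

namespace Pool.Agent.P.MP_a67bd8_gt.N4

open MeasureTheory Set Matrix Real
open scoped ContDiff Matrix.Norms.Operator Quaternion

set_option linter.unusedSectionVars false

namespace PDeg

section PD

variable {κ : Type} [Fintype κ] [DecidableEq κ] {V : Type} [NormedAddCommGroup V]
  [NormedSpace ℝ V]

theorem pd_of_deriv {S : (κ → ℝ) → V} {p : κ → ℝ} (h : DifferentiableAt ℝ S p) {μ : κ} {v : V}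
    (hv : HasDerivAt (fun s : ℝ => S (p + s • Pi.single μ 1)) v 0) : pd S μ p = v := by
  have h1 : HasDerivAt (fun s : ℝ => p + s • (Pi.single μ 1 : κ → ℝ)) (Pi.single μ 1) 0 := by
    simpa using ((hasDerivAt_id (0 : ℝ)).smul_const (Pi.single μ 1 : κ → ℝ)).const_add p
  have h2 : HasFDerivAt S (fderiv ℝ S p) (p + (0 : ℝ) • (Pi.single μ 1 : κ → ℝ)) := by
    simpa using h.hasFDerivAt
  exact (h2.comp_hasDerivAt 0 h1).unique hv

theorem pd_smul {f : (κ → ℝ) → ℝ} {S : (κ → ℝ) → V} {p : κ → ℝ} (hf : DifferentiableAt ℝ f p)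
    (h : DifferentiableAt ℝ S p) (μ : κ) :
    pd (fun q => f q • S q) μ p = pd f μ p • S p + f p • pd S μ p := by
  unfold pd
  rw [fderiv_fun_smul hf h]
  simp [add_comm]

theorem pd_add {S T : (κ → ℝ) → V} {p : κ → ℝ} (h : DifferentiableAt ℝ S p)
    (h' : DifferentiableAt ℝ T p) (μ : κ) :
    pd (fun q => S q + T q) μ p = pd S μ p + pd T μ p := by
  unfold pd
  rw [fderiv_fun_add h h']
  rfl

theorem pd_lin {ι : Type} [Fintype ι] [DecidableEq ι] {S : (κ → ℝ) → V} (L : (ι → ℝ) →L[ℝ] κ → ℝ)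
    {p : ι → ℝ} (h : DifferentiableAt ℝ S (L p)) (μ : ι) :
    pd (fun q => S (L q)) μ p = fderiv ℝ S (L p) (L (Pi.single μ 1)) :=
  congrArg (fun T => T (Pi.single μ 1)) (h.hasFDerivAt.comp p L.hasFDerivAt).fderiv

end PD

/-- the first angle set to zero -/
noncomputable def z0 : (Fin 3 → ℝ) →L[ℝ] Fin 3 → ℝ :=
  ContinuousLinearMap.pi ![0, ContinuousLinearMap.proj 1, ContinuousLinearMap.proj 2]

theorem z0_apply (b : Fin 3 → ℝ) : z0 b = ![0, b 1, b 2] := by
  funext i
  fin_cases i <;> rfl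

theorem z0_zero (t : ℝ) : z0 (Pi.single 0 t) = 0 := by
  funext i
  fin_cases i <;> simp [z0_apply]

theorem z0_succ (k : Fin 2) (t : ℝ) : z0 (Pi.single k.succ t) = Pi.single k.succ t := by
  funext i
  fin_cases k <;> fin_cases i <;> simp [z0_apply]

theorem pd_ind {V : Type} [NormedAddCommGroup V] [NormedSpace ℝ V] {S : (Fin 3 → ℝ) → V}
    (h : ContDiff ℝ ∞ S) (hi : ∀ b, S (z0 b) = S b) (b : Fin 3 → ℝ) :
    pd S 0 b = 0 ∧ pd S 1 (z0 b) = pd S 1 b := by
  have d : DifferentiableAt ℝ S (z0 b) := h.differentiable (by simp) _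
  constructor
  · rw [← funext hi, pd_lin z0 d, z0_zero, map_zero]
  · conv_rhs => rw [← funext hi, pd_lin z0 d]
    exact congrArg _ (z0_succ 0 1).symm

theorem ell_apply (b : Fin 3 → ℝ) : ell b = ![b 0, 0, b 1, b 2] := by
  funext i
  fin_cases i <;> rfl

theorem zz_ell (b : Fin 3 → ℝ) (s : ℝ) : zz (ell b + s • Pi.single 1 1) = b := by
  funext i
  fin_cases i <;> simp [zz, ell_apply]

variable (P g : (Fin 3 → ℝ) → Fin 3 → ℝ) (δ : ℝ)

/-- the radial factor on the three torus -/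
noncomputable def lz (z : Fin 3 → ℝ) : ℝ := (1 + δ) * mu P z

/-- the imaginary part -/
noncomputable def pv (z : Fin 3 → ℝ) : Fin 3 → ℝ := lz P δ z • P z

/-- the real part -/
noncomputable def qv (z : Fin 3 → ℝ) : Fin 3 → ℝ := (lz P δ z * lz P δ z) • g z

/-- the frame on the three torus -/
noncomputable def GG (b : Fin 3 → ℝ) : Matrix (Fin 3) (Fin 3) ℂ := fib (n := 3) (ww P g δ) (ell b)

variable {P g δ} {H : (Fin 3 → ℝ) → ℝ} (h : ExA P g H)
include h

theorem PP_pos (z : Fin 3 → ℝ) : 0 < P z ⬝ᵥ P z :=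
  lt_of_le_of_ne (Finset.sum_nonneg fun _ _ => mul_self_nonneg _) fun e =>
    h.ne z (dotProduct_self_eq_zero.mp e.symm)

theorem cd_mu : ContDiff ℝ ∞ (mu P) :=
  ((ContDiff.sum fun i _ => (contDiff_pi.mp h.smP i).mul
    (contDiff_pi.mp h.smP i)).sqrt fun x => (PP_pos h x).ne').inv
      fun x => (sqrt_pos.mpr (PP_pos h x)).ne'

theorem mu_pos (z : Fin 3 → ℝ) : 0 < mu P z := inv_pos.mpr (sqrt_pos.mpr (PP_pos h z))

theorem cd_lz : ContDiff ℝ ∞ (lz P δ) := contDiff_const.mul (cd_mu h)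

theorem cd_pv : ContDiff ℝ ∞ (pv P δ) := (cd_lz h).smul h.smP

theorem cd_qv : ContDiff ℝ ∞ (qv P g δ) := ((cd_lz h).mul (cd_lz h)).smul h.smg

theorem P_z0 (b : Fin 3 → ℝ) : P (z0 b) = P b := h.ind _ _ rfl rfl

theorem lz_z0 (b : Fin 3 → ℝ) : lz P δ (z0 b) = lz P δ b := by rw [lz, lz, mu, mu, P_z0 h]

theorem pv_z0 (b : Fin 3 → ℝ) : pv P δ (z0 b) = pv P δ b := by rw [pv, pv, lz_z0 h, P_z0 h]

theorem cd_ww : ContDiff ℝ ∞ (ww P g δ) := by
  have hz : ContDiff ℝ ∞ zz := contDiff_pi.mpr fun i => by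
    fin_cases i <;> exact contDiff_apply ℝ ℝ _
  have h1 : ContDiff ℝ ∞ fun y : Fin 4 → ℝ => y 1 := contDiff_apply ℝ ℝ 1
  have hl : ContDiff ℝ ∞ (lam P δ) :=
    (contDiff_const.add (contDiff_const.mul (contDiff_cos.comp h1))).mul ((cd_mu h).comp hz)
  refine contDiff_pi.mpr fun j => Complex.equivRealProdCLM.symm.contDiff.comp
    (f := fun y => (δ * sin (y 1) * mu P (zz y) * P (zz y) j + lam P δ y ^ 2 * g (zz y) j,
      lam P δ y * P (zz y) j)) (ContDiff.prodMk ?_ ?_)
  · exact (((contDiff_const.mul (contDiff_sin.comp h1)).mul ((cd_mu h).comp hz)).mul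
      ((contDiff_pi.mp h.smP j).comp hz)).add ((hl.pow 2).mul ((contDiff_pi.mp h.smg j).comp hz))
  · exact hl.mul ((contDiff_pi.mp h.smP j).comp hz)

theorem col_zero (b : Fin 3 → ℝ) (j : Fin 3) : GG P g δ b j 0 = (δ * mu P b * P b j : ℝ) := by
  have d := (cd_ww (δ := δ) h).differentiable (by simp) (ell b)
  change pd (ww P g δ) 1 (ell b) j = _
  rw [D.pd_pi d]
  refine pd_of_deriv (differentiableAt_pi.mp d j) ?_
  have e : (fun s : ℝ => ww P g δ (ell b + s • Pi.single 1 1) j) = fun s : ℝ =>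
      Complex.equivRealProdCLM.symm (δ * sin s * mu P b * P b j +
        ((1 + δ * cos s) * mu P b) ^ 2 * g b j, (1 + δ * cos s) * mu P b * P b j) := by
    funext s
    simp only [ww, lam, zz_ell]
    simp [ell_apply]
    rfl
  have hc := (((hasDerivAt_cos 0).const_mul δ).const_add 1).mul_const (mu P b)
  have h1 := Complex.equivRealProdCLM.symm.hasFDerivAt.comp_hasDerivAt (0 : ℝ)
    ((((((hasDerivAt_sin 0).const_mul δ).mul_const (mu P b)).mul_const (P b j)).add
      ((hc.pow 2).mul_const (g b j))).prodMk (hc.mul_const (P b j)))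
  rw [e]
  exact h1.congr_deriv (by apply Complex.ext <;> simp)

theorem col_one (b : Fin 3 → ℝ) (j : Fin 3) :
    GG P g δ b j 1 = ⟨pd (qv P g δ) 1 b j, pd (pv P δ) 1 b j⟩ := by
  have d := (cd_ww (δ := δ) h).differentiable (by simp) (ell b)
  have e1 : ell (Pi.single 1 1) = Pi.single 2 1 := by
    funext i
    fin_cases i <;> simp [ell_apply]
  have e2 : GG P g δ b j 1 = pd (fun z => ww P g δ (ell z)) 1 b j := by
    rw [pd_lin ell d, e1]
    rfl
  have e3 : ∀ z, ww P g δ (ell z) j = ⟨qv P g δ z j, pv P δ z j⟩ := fun z => by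
    have := zz_ell z 0
    simp only [zero_smul, add_zero] at this
    simp only [ww, lam, this]
    simp [ell_apply, qv, pv, lz, sq]
  have d2 : DifferentiableAt ℝ (fun z => ww P g δ (ell z)) b := d.comp b ell.differentiableAt
  have d3 := differentiableAt_pi.mp d2 j
  rw [e2, D.pd_pi d2]
  apply Complex.ext
  · refine (pd_clm Complex.reCLM d3 1).symm.trans ?_
    simp only [e3]
    exact pd_clm (ContinuousLinearMap.proj (R := ℝ) (φ := fun _ : Fin 3 => ℝ) j)
      ((cd_qv h).differentiable (by simp) b) 1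
  · refine (pd_clm Complex.imCLM d3 1).symm.trans ?_
    simp only [e3]
    exact pd_clm (ContinuousLinearMap.proj (R := ℝ) (φ := fun _ : Fin 3 => ℝ) j)
      ((cd_pv h).differentiable (by simp) b) 1

theorem pd_pv (k : Fin 3) (z : Fin 3 → ℝ) :
    pd (pv P δ) k z = pd (lz P δ) k z • P z + lz P δ z • pd P k z :=
  pd_smul ((cd_lz h).differentiable (by simp) z) (h.smP.differentiable (by simp) z) k

theorem pd_qv (k : Fin 3) (z : Fin 3 → ℝ) : pd (qv P g δ) k z =
    pd (fun q => lz P δ q * lz P δ q) k z • g z + (lz P δ z * lz P δ z) • pd g k z :=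
  pd_smul (((cd_lz h).mul (cd_lz h)).differentiable (by simp) z)
    (h.smg.differentiable (by simp) z) k

theorem pv_par (hδ : 0 < δ) {k : Fin 3} {z : Fin 3 → ℝ} {c : ℝ}
    (hc : pd (pv P δ) k z = c • P z) : c = 0 := by
  have d : ∀ i, DifferentiableAt ℝ (fun q => pv P δ q i) z := fun i =>
    (contDiff_pi.mp (cd_pv h) i).differentiable (by simp) z
  have e0 : (fun q => ∑ i, pv P δ q i * pv P δ q i) = fun _ => (1 + δ) ^ 2 := funext fun q => by
    have := sqrt_pos.mpr (PP_pos h q)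
    change pv P δ q ⬝ᵥ pv P δ q = _
    rw [pv, smul_dotProduct, dotProduct_smul, smul_eq_mul, smul_eq_mul, lz, mu]
    field_simp
    exact (sq_sqrt (PP_pos h q).le).symm
  have h0 : pd (fun q => ∑ i, pv P δ q i * pv P δ q i) k z = 0 := by
    rw [e0]
    simp [pd]
  rw [pd, fderiv_fun_sum fun i _ => (d i).fun_mul (d i), _root_.sum_apply] at h0
  have e : ∀ i, fderiv ℝ (fun q => pv P δ q i * pv P δ q i) z (Pi.single k 1) =
      2 * c * lz P δ z * (P z i * P z i) := fun i => by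
    have := pd_clm (ContinuousLinearMap.proj (R := ℝ) (φ := fun _ : Fin 3 => ℝ) i)
      ((cd_pv (δ := δ) h).differentiable (by simp) z) k
    rw [← pd, pd_mul (d i) (d i), show pd (fun q => pv P δ q i) k z = pd (pv P δ) k z i from this,
      hc]
    simp only [pv, Pi.smul_apply, smul_eq_mul]
    ring
  simp only [e, ← Finset.mul_sum] at h0
  have h1 := (mul_eq_zero.mp h0).resolve_right (PP_pos h z).ne'
  have h2 : 0 < lz P δ z := mul_pos (by linarith) (mu_pos h z)
  have := (mul_eq_zero.mp h1).resolve_right h2.ne'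
  linarith

omit h in
theorem ad_z0 {A : Type} [NormedRing A] [NormedAlgebra ℝ A] [CompleteSpace A]
    {S : (Fin 3 → ℝ) → A} (hS : Ad S) : Ad fun b => S (z0 b) :=
  ⟨hS.sm.comp z0.contDiff, fun _ => hS.un _, fun k x => by
    refine Fin.cases ?_ (fun k => ?_) k
    · simp only [map_add, z0_zero, add_zero]
    · simp only [map_add, z0_succ, hS.per k.succ]⟩

variable (P g δ) in
/-- the frame relative to the frame at angle zero -/
noncomputable def KK (b : Fin 3 → ℝ) : Matrix (Fin 3) (Fin 3) ℂ :=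
  Ring.inverse (GG P g δ (z0 b)) * GG P g δ b

omit h in
/-- two complex numbers as a quaternion -/
noncomputable def qc : (ℂ × ℂ) →L[ℝ] ℍ :=
  LinearMap.toContinuousLinearMap
    { toFun := fun a => ⟨a.1.re, a.1.im, a.2.re, -a.2.im⟩
      map_add' := fun a b => by ext <;> simp [add_comm]
      map_smul' := fun c a => by ext <;> simp }

omit h in
theorem qc_apply (a b : ℂ) : qc (a, b) = ⟨a.re, a.im, b.re, -b.im⟩ := rfl

variable (P g δ) in
/-- its second column as a quaternion -/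
noncomputable def kq (b : Fin 3 → ℝ) : ℍ := qc (KK P g δ b 1 1, KK P g δ b 2 1)

variable (hG : Ad (GG P g δ))
include hG

theorem ad_KK : Ad (KK P g δ) := (ad_z0 hG).inv.mul hG

theorem mul_KK (b : Fin 3 → ℝ) : GG P g δ (z0 b) * KK P g δ b = GG P g δ b := by
  rw [KK, ← mul_assoc, Ring.mul_inverse_cancel _ (hG.un _), one_mul]

theorem col_KK {b : Fin 3 → ℝ} {m : Fin 3} {v : Fin 3 → ℂ}
    (hv : ∀ j, ∑ i, GG P g δ (z0 b) j i * v i = GG P g δ b j m) (i : Fin 3) :
    KK P g δ b i m = v i := by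
  have := mulVec_injective_iff_isUnit.mpr (hG.un (z0 b))
    (a₁ := fun i => KK P g δ b i m) (a₂ := v) (funext fun j =>
      (congrFun₂ (mul_KK h hG b) j m).trans (hv j).symm)
  exact congrFun this i

theorem wm_GG : Ad (kq P g δ) ∧ wm (GG P g δ) = 2 * wq (kq P g δ) := by
  have a0 := ad_z0 hG
  have aK := ad_KK h hG
  have h1 := wm_mul a0 aK
  simp only [mul_KK h hG] at h1
  rw [show wm (fun b => GG P g δ (z0 b)) = 0 from wind3_indep _ fun x => by
    rw [pd_lin z0 (hG.sm.differentiable (by simp) _), z0_zero, map_zero], zero_add] at h1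
  obtain ⟨a2, h2⟩ := wm_col0 aK fun x i => by
    rw [col_KK h hG (v := Pi.single 0 1) fun j => by
      simp [Pi.single_apply, col_zero h, P_z0 h, mu]]
    simp
  have c := contDiff_mat.mp aK.sm
  have hk : ∀ x, kq P g δ x ≠ 0 := fun x e => by
    have h3 := (isUnit_iff_isUnit_det _).mp (a2.un x)
    have e1 : KK P g δ x 1 1 = 0 :=
      Complex.ext (congrArg QuaternionAlgebra.re e) (congrArg QuaternionAlgebra.imI e)
    have e2 : KK P g δ x 2 1 = 0 := Complex.ext (congrArg QuaternionAlgebra.imJ e)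
      (neg_eq_zero.mp (congrArg QuaternionAlgebra.imK e))
    rw [det_fin_two] at h3
    change IsUnit (KK P g δ x 1 1 * _ - _ * KK P g δ x 2 1) at h3
    simp [e1, e2] at h3
  have ak : Ad (kq P g δ) := by
    exact ⟨qc.contDiff.comp ((c 1 1).prodMk (c 2 1)), fun x => (hk x).isUnit,
      fun k x => by simp only [kq, aK.per k x]⟩
  obtain ⟨a3, h3⟩ := wm_LC ak
  have h4 := wm_mul a3.inv a2
  rw [wm_upper (a3.inv.mul a2), wm_inv a3, h3, eq_comm, neg_add_eq_zero] at h4
  · exact ⟨ak, h1.trans (h2.trans h4.symm)⟩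
  · intro x i j hij
    obtain ⟨rfl, rfl⟩ : i = 1 ∧ j = 0 := by omega
    have e : ∀ l, (KK P g δ x).submatrix Fin.succ Fin.succ l 0 = LC (kq P g δ x) l 0 := fun l => by
      fin_cases l <;> apply Complex.ext <;> simp [LC_apply, kq, qc_apply]
    have : (Ring.inverse (LC (kq P g δ x)) * LC (kq P g δ x)) 1 0 =
        (1 : Matrix (Fin 2) (Fin 2) ℂ) 1 0 := by rw [Ring.inverse_mul_cancel _ (a3.un x)]
    rw [mul_apply] at this ⊢
    simpa only [e, one_apply_ne (by decide : (1 : Fin 2) ≠ 0)] using this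

theorem rel (b : Fin 3 → ℝ) (j : Fin 3) : (δ * mu P b * P b j : ℝ) * KK P g δ b 0 1 +
    GG P g δ (z0 b) j 1 * KK P g δ b 1 1 + GG P g δ (z0 b) j 2 * KK P g δ b 2 1 =
      GG P g δ b j 1 := by
  have := congrFun₂ (mul_KK h hG b) j 1
  rwa [mul_apply, Fin.sum_univ_three, col_zero h, P_z0 h, show mu P (z0 b) = mu P b by
    rw [mu, mu, P_z0 h]] at this

variable (hC : ExC P g) (hδ : 0 < δ)
include hC hδ

omit h hG hC hδ in
theorem br_ctr : Br ctr := ⟨sin_pi, sin_pi⟩

omit hG in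
theorem pv_ctr : pd (lz P δ) 1 ctr = 0 ∧ pd (pv P δ) 1 ctr = 0 := by
  have e := pd_pv (δ := δ) h 1 ctr
  rw [hC.deg2.2.1, smul_zero, add_zero] at e
  have := pv_par h hδ e
  exact ⟨this, by rw [e, this, zero_smul]⟩

omit hG hC hδ in
theorem qv_br {z : Fin 3 → ℝ} (hz : Br z) :
    pd (qv P g δ) 1 z = (lz P δ z * lz P δ z) • pd g 1 z := by
  rw [pd_qv h, h.br0 z hz, smul_zero, zero_add]

theorem KK_ctr (i : Fin 3) : KK P g δ ctr i 1 = ![0, -1, 0] i := by
  refine col_KK h hG (fun j => ?_) i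
  have e := congrFun hC.deg2.1 j
  rw [Fin.sum_univ_three, col_one h, col_one h, (pd_ind (cd_pv h) (pv_z0 h) _).2,
    (pv_ctr h hC hδ).2, qv_br h br_ctr, qv_br h (z := z0 ctr) br_ctr, lz_z0 h, z0_apply]
  apply Complex.ext
  · simp only [show ∀ i, ctr i = π from fun _ => rfl, Pi.add_apply, Pi.zero_apply] at e ⊢
    simp
    linear_combination -(lz P δ ctr * lz P δ ctr) * e
  · simp

theorem kq_ctr : kq P g δ ctr = -1 := by
  ext <;> simp [kq, qc_apply, KK_ctr h hG hC hδ]

theorem uniq {t : ℝ} (ht : 0 < t) {x : Fin 3 → ℝ} (hx : x ∈ cube)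
    (e : t • kq P g δ x = kq P g δ ctr) : x = ctr := by
  rw [kq_ctr h hG hC hδ] at e
  have e1 : t * (KK P g δ x 1 1).re = -1 := by
    simpa [kq, qc_apply] using congrArg QuaternionAlgebra.re e
  have e2 : (KK P g δ x 1 1).im = 0 := by
    simpa [kq, qc_apply, ht.ne'] using congrArg QuaternionAlgebra.imI e
  have e3 : (KK P g δ x 2 1).re = 0 := by
    simpa [kq, qc_apply, ht.ne'] using congrArg QuaternionAlgebra.imJ e
  have e4 : (KK P g δ x 2 1).im = 0 := by
    simpa [kq, qc_apply, ht.ne'] using congrArg QuaternionAlgebra.imK e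
  have hl : 0 < lz P δ x := mul_pos (by linarith) (mu_pos h x)
  have r := rel h hG x
  simp only [col_one h, (pd_ind (cd_pv h) (pv_z0 h) _).2, Complex.ext_iff, Complex.add_re,
    Complex.add_im, Complex.mul_re, Complex.mul_im, e2, e3, e4, Complex.ofReal_re,
    Complex.ofReal_im] at r
  have h1 : pd (pv P δ) 1 x = (t * (δ * mu P x * (KK P g δ x 0 1).im) / (t + 1)) • P x := by
    funext j
    simp only [Pi.smul_apply, smul_eq_mul]
    field_simp
    linear_combination -t * (r j).2 + pd (pv P δ) 1 x j * e1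
  rw [pv_par h hδ h1, zero_smul, pd_pv h] at h1
  have hb : Br x := (h.reg x (lz P δ x) 0 (-pd (lz P δ) 1 x) (by
    rw [zero_smul, add_zero, neg_smul]
    exact eq_neg_of_add_eq_zero_right h1)).resolve_left fun e => hl.ne' e.1
  refine hC.deg1 x hx t (t * (δ * mu P x * (KK P g δ x 0 1).re) / (lz P δ x * lz P δ x)) hb ht ?_
  funext j
  have r1 := (r j).1
  rw [qv_br h hb, qv_br h (z := z0 x) hb, lz_z0 h, z0_apply] at r1
  simp only [Pi.smul_apply, Pi.add_apply, smul_eq_mul] at r1 ⊢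
  field_simp
  linear_combination -t * r1 + lz P δ x ^ 2 * pd g 1 ![0, x 1, x 2] j * e1

omit h hG hC hδ in
theorem fd_mul {f₁ f₂ : (Fin 3 → ℝ) → ℂ} {p : Fin 3 → ℝ} (h1 : DifferentiableAt ℝ f₁ p)
    (h2 : DifferentiableAt ℝ f₂ p) (u : Fin 3 → ℝ) :
    fderiv ℝ (fun q => f₁ q * f₂ q) p u = fderiv ℝ f₁ p u * f₂ p + f₁ p * fderiv ℝ f₂ p u := by
  rw [fderiv_fun_mul h1 h2]
  simp only [_root_.add_apply, _root_.smul_apply, smul_eq_mul]
  ring

theorem nondeg {a : ℝ} {u : Fin 3 → ℝ}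
    (e : a • kq P g δ ctr + fderiv ℝ (kq P g δ) ctr u = 0) : a = 0 ∧ u = 0 := by
  have dK : ∀ i j p, DifferentiableAt ℝ (fun q => KK P g δ q i j) p := fun i j p =>
    (contDiff_mat.mp (ad_KK h hG).sm i j).differentiable (by simp) p
  have dG : ∀ i j p, DifferentiableAt ℝ (fun q => GG P g δ q i j) p := fun i j p =>
    (contDiff_mat.mp hG.sm i j).differentiable (by simp) p
  have dG0 : ∀ i j p, DifferentiableAt ℝ (fun q => GG P g δ (z0 q) i j) p := fun i j p =>
    (dG i j _).comp p z0.differentiableAt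
  have hl : 0 < lz P δ ctr := mul_pos (by linarith) (mu_pos h _)
  have e0 : fderiv ℝ (kq P g δ) ctr u = qc (fderiv ℝ (fun q => KK P g δ q 1 1) ctr u,
      fderiv ℝ (fun q => KK P g δ q 2 1) ctr u) :=
    congrArg (fun T => T u) (qc.hasFDerivAt.comp ctr
      ((dK 1 1 ctr).hasFDerivAt.prodMk (dK 2 1 ctr).hasFDerivAt)).fderiv
  rw [e0, kq_ctr h hG hC hδ, qc_apply] at e
  have e1 : fderiv ℝ (fun q => KK P g δ q 1 1) ctr u = a := Complex.ext
    (by have := congrArg QuaternionAlgebra.re e; simp at this; simp; linarith)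
    (by simpa using congrArg QuaternionAlgebra.imI e)
  have e2 : fderiv ℝ (fun q => KK P g δ q 2 1) ctr u = 0 := Complex.ext
    (by simpa using congrArg QuaternionAlgebra.imJ e)
    (by simpa using congrArg QuaternionAlgebra.imK e)
  obtain ⟨β, hβ⟩ : ∃ β : ℂ, ∀ j, P ctr j * β + GG P g δ (z0 ctr) j 1 * a =
      fderiv ℝ (fun q => GG P g δ q j 1) ctr u +
        fderiv ℝ (fun q => GG P g δ q j 1) (z0 ctr) (z0 u) := by
    refine ⟨(δ * mu P ctr : ℝ) * fderiv ℝ (fun q => KK P g δ q 0 1) ctr u, fun j => ?_⟩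
    have d0 : DifferentiableAt ℝ (fun b => ((δ * mu P b * P b j : ℝ) : ℂ)) ctr := by
      simpa only [col_zero h] using dG j 0 ctr
    have m0 := d0.fun_mul (dK 0 1 ctr)
    have m1 := (dG0 j 1 ctr).fun_mul (dK 1 1 ctr)
    have m2 := (dG0 j 2 ctr).fun_mul (dK 2 1 ctr)
    have r := congrArg (fun f => fderiv ℝ f ctr u) (funext fun b => rel h hG b j)
    have c : fderiv ℝ (fun q => GG P g δ (z0 q) j 1) ctr u =
        fderiv ℝ (fun q => GG P g δ q j 1) (z0 ctr) (z0 u) :=
      congrArg (fun T => T u) ((dG j 1 _).hasFDerivAt.comp ctr z0.hasFDerivAt).fderiv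
    rw [fderiv_fun_add (m0.fun_add m1) m2, fderiv_fun_add m0 m1, _root_.add_apply,
      _root_.add_apply, fd_mul d0 (dK 0 1 ctr), fd_mul (dG0 j 1 ctr) (dK 1 1 ctr),
      fd_mul (dG0 j 2 ctr) (dK 2 1 ctr), e1, e2, c, KK_ctr h hG hC hδ, KK_ctr h hG hC hδ,
      KK_ctr h hG hC hδ] at r
    simp only [cons_val_zero, cons_val_one, cons_val] at r
    push_cast at r ⊢
    linear_combination r
  have cp := contDiff_pd (cd_pv (δ := δ) h) 1
  have cq := contDiff_pd (cd_qv (δ := δ) h) 1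
  have him : ∀ j p v, (fderiv ℝ (fun q => GG P g δ q j 1) p v).im =
      fderiv ℝ (pd (pv P δ) 1) p v j := fun j p v => by
    have h1 := (Complex.imCLM.hasFDerivAt.comp p (dG j 1 p).hasFDerivAt).unique
      (((ContinuousLinearMap.proj (R := ℝ) (φ := fun _ : Fin 3 => ℝ) j).hasFDerivAt.comp p
        (cp.differentiable (by simp) p).hasFDerivAt).congr_of_eventuallyEq
          (Filter.Eventually.of_forall fun q => congrArg Complex.im (col_one h q j)))
    exact congrArg (fun T => T v) h1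
  have hre : ∀ j p v, (fderiv ℝ (fun q => GG P g δ q j 1) p v).re =
      fderiv ℝ (pd (qv P g δ) 1) p v j := fun j p v => by
    have h1 := (Complex.reCLM.hasFDerivAt.comp p (dG j 1 p).hasFDerivAt).unique
      (((ContinuousLinearMap.proj (R := ℝ) (φ := fun _ : Fin 3 => ℝ) j).hasFDerivAt.comp p
        (cq.differentiable (by simp) p).hasFDerivAt).congr_of_eventuallyEq
          (Filter.Eventually.of_forall fun q => congrArg Complex.re (col_one h q j)))
    exact congrArg (fun T => T v) h1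
  have i1 : ∀ b, pd (pv P δ) 1 (z0 b) = pd (pv P δ) 1 b := fun b =>
    (pd_ind (cd_pv h) (pv_z0 h) b).2
  have i2 : fderiv ℝ (pd (pv P δ) 1) (z0 ctr) (z0 u) = fderiv ℝ (pd (pv P δ) 1) ctr u := by
    conv_rhs => rw [← funext i1]
    exact (congrArg (fun T => T u) ((cp.differentiable (by simp) _).hasFDerivAt.comp ctr
      z0.hasFDerivAt).fderiv).symm
  have dl := (cd_lz (δ := δ) h).differentiable (by simp)
  have dl1 := (contDiff_pd (cd_lz (δ := δ) h) 1).differentiable (by simp)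
  have dP := h.smP.differentiable (by simp)
  have dP1 := (contDiff_pd h.smP 1).differentiable (by simp)
  have p0 : ∀ k, pd P k ctr = 0 := fun k => by
    fin_cases k
    exacts [(pd_ind h.smP (P_z0 h) _).1, hC.deg2.2.1, hC.deg2.2.2]
  have i3 : ∀ k, pd (pd (pv P δ) 1) k ctr =
      pd (pd (lz P δ) 1) k ctr • P ctr + lz P δ ctr • pd (pd P 1) k ctr := fun k => by
    rw [funext (pd_pv h 1), pd_add ((dl1 _).fun_smul (dP _)) ((dl _).fun_smul (dP1 _)),
      pd_smul (dl1 _) (dP _), pd_smul (dl _) (dP1 _), p0, p0]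
    simp
  have i4 : pd (pd P 1) 0 ctr = 0 :=
    (pd_ind (contDiff_pd h.smP 1) (fun b => (pd_ind h.smP (P_z0 h) b).2) _).1
  obtain ⟨u1, u2⟩ := hC.deg3 (2 * lz P δ ctr * u 1) (2 * lz P δ ctr * u 2)
    (β.im - 2 * ∑ k, u k * pd (pd (lz P δ) 1) k ctr) (funext fun j => by
      have r := congrArg Complex.im (hβ j)
      rw [Complex.add_im, Complex.add_im, him, him, i2, clm_eq_sum _ u, col_one h, i1,
        (pv_ctr h hC hδ).2] at r
      change _ = (∑ k, u k • pd (pd (pv P δ) 1) k ctr) j + (∑ k, u k • pd (pd (pv P δ) 1) k ctr) j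
        at r
      simp only [i3, Fin.sum_univ_three, i4] at r ⊢
      simp at r ⊢
      linear_combination -r)
  have u1' : u 1 = 0 := (mul_eq_zero.mp u1).resolve_left (by positivity)
  have u2' : u 2 = 0 := (mul_eq_zero.mp u2).resolve_left (by positivity)
  have hu : u = u 0 • Pi.single 0 1 := by
    funext i
    fin_cases i <;> simp [u1', u2']
  have dL := ((cd_lz (δ := δ) h).mul (cd_lz (δ := δ) h))
  have j1 : pd (pd (qv P g δ) 1) 0 ctr = (lz P δ ctr * lz P δ ctr) • pd (pd g 1) 0 ctr := by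
    rw [funext (pd_qv h 1), pd_add (((contDiff_pd dL 1).differentiable (by simp) _).fun_smul
      (h.smg.differentiable (by simp) _)) ((dL.differentiable (by simp) _).fun_smul
      ((contDiff_pd h.smg 1).differentiable (by simp) _)),
      pd_smul ((contDiff_pd dL 1).differentiable (by simp) _) (h.smg.differentiable (by simp) _),
      pd_smul (dL.differentiable (by simp) _) ((contDiff_pd h.smg 1).differentiable (by simp) _),
      h.br0 _ br_ctr, pd_mul (dl _) (dl _), pd_mul (dl _) (dl _), (pv_ctr h hC hδ).1,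
      (pd_ind (cd_lz h) (lz_z0 h) _).1]
    simp
  obtain ⟨a1, a2⟩ := hC.deg4 (lz P δ ctr * lz P δ ctr * a) (-(lz P δ ctr * lz P δ ctr * u 0))
    (-β.re) (funext fun j => by
      have r := congrArg Complex.re (hβ j)
      rw [Complex.add_re, Complex.add_re, hre, hre, hu, map_smul z0, z0_zero, map_smul, ← pd, j1,
        col_one h, qv_br h (z := z0 ctr) br_ctr, lz_z0 h, z0_apply] at r
      simp [show ∀ i, ctr i = π from fun _ => rfl] at r ⊢
      linear_combination r)
  refine ⟨(mul_eq_zero.mp a1).resolve_left (by positivity), ?_⟩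
  rw [hu, (mul_eq_zero.mp (neg_eq_zero.mp a2)).resolve_left (by positivity), zero_smul]

end PDeg

theorem p_deg : S_Deg := fun κ hκ P g H h hC δ hδ hG => by
  obtain ⟨a, e⟩ := PDeg.wm_GG h hG
  have := hκ.one _ a ctr (fun k => ⟨pi_pos, by linarith [pi_pos, show ctr k = π from rfl]⟩)
    (fun t ht x hx => PDeg.uniq h hG hC hδ ht hx) fun _ _ => PDeg.nondeg h hG hC hδ
  change wm (PDeg.GG P g δ) = _ ∨ wm (PDeg.GG P g δ) = _
  rw [e]
  rcases this with h1 | h1 <;> rw [h1]
  · exact Or.inl rfl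
  · exact Or.inr (mul_neg _ _)

end Pool.Agent.P.MP_a67bd8_gt.N4
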