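import Pool.Agent.P.MP_a67bd8_gt.N4.Stmt

/-!
Global properties of the explicit two valued cubic.
-/

namespace Pool.Agent.P.MP_a67bd8_gt.N4

open MeasureTheory Set Matrix Real
open scoped ContDiff Matrix.Norms.Operator Quaternion

namespace PExB

/-- the real part of the cube of `p + i q` -/
def cr (p q : ℝ) : ℝ := p ^ 3 - 3 * p * q ^ 2

/-- the imaginary part of the cube of `p + i q` -/
def ci (p q : ℝ) : ℝ := 3 * p ^ 2 * q - q ^ 3

theorem cube_norm (p q : ℝ) : cr p q ^ 2 + ci p q ^ 2 = (p ^ 2 + q ^ 2) ^ 3 := by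
  unfold cr ci
  ring

theorem scale_one {l c d s u c' d' s' u' : ℝ} (hl : 0 < l) (h1 : s ^ 2 + c ^ 2 = 1)
    (h2 : u ^ 2 + d ^ 2 = 1) (h1' : s' ^ 2 + c' ^ 2 = 1) (h2' : u' ^ 2 + d' ^ 2 = 1)
    (e1 : c = l * c') (e2 : d = l * d') (e3 : s * u = l * (s' * u')) : l = 1 := by
  have a1 : s ^ 2 = 1 - l ^ 2 * c' ^ 2 := by rw [e1] at h1; linear_combination h1
  have a2 : u ^ 2 = 1 - l ^ 2 * d' ^ 2 := by rw [e2] at h2; linear_combination h2
  have a3 : s' ^ 2 = 1 - c' ^ 2 := by linear_combination h1'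
  have a4 : u' ^ 2 = 1 - d' ^ 2 := by linear_combination h2'
  have a5 : s ^ 2 * u ^ 2 = l ^ 2 * (s' ^ 2 * u' ^ 2) := by
    rw [← mul_pow, e3]
    ring
  rw [a1, a2, a3, a4] at a5
  have key : (1 - l ^ 2) * (1 - l ^ 2 * c' ^ 2 * d' ^ 2) = 0 := by linear_combination a5
  have hL : l ^ 2 = 1 := by
    rcases mul_eq_zero.1 key with k | k
    · linear_combination -k
    · have b1 : l ^ 2 * c' ^ 2 ≤ 1 := by nlinarith [sq_nonneg s]
      have b2 : l ^ 2 * d' ^ 2 ≤ 1 := by nlinarith [sq_nonneg u]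
      have b3 : c' ^ 2 ≤ 1 := by nlinarith [sq_nonneg s']
      have b4 : d' ^ 2 ≤ 1 := by nlinarith [sq_nonneg u']
      have n1 : 0 ≤ l ^ 2 * c' ^ 2 := by positivity
      have n2 : 0 ≤ d' ^ 2 := by positivity
      have n3 : 0 ≤ c' ^ 2 := by positivity
      have c1 : 1 ≤ d' ^ 2 := by nlinarith [mul_le_mul_of_nonneg_right b1 n2]
      have c2 : 1 ≤ c' ^ 2 := by nlinarith [mul_le_mul_of_nonneg_right b2 n3]
      have d1 : d' ^ 2 = 1 := le_antisymm b4 c1
      have d2 : c' ^ 2 = 1 := le_antisymm b3 c2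
      rw [d1, d2] at k
      linear_combination -k
  have : (l - 1) * (l + 1) = 0 := by linear_combination hL
  rcases mul_eq_zero.1 this with k | k
  · linear_combination k
  · linarith

theorem signs {s u s' u' : ℝ} (h1 : s ^ 2 = s' ^ 2) (h2 : u ^ 2 = u' ^ 2) (h3 : s * u = s' * u') :
    (s = s' ∧ u = u') ∨ (s = -s' ∧ u = -u') := by
  rcases sq_eq_sq_iff_eq_or_eq_neg.1 h1 with a | a <;>
    rcases sq_eq_sq_iff_eq_or_eq_neg.1 h2 with b | b
  · exact Or.inl ⟨a, b⟩
  · have : s' * u' = 0 := by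
      rw [a, b] at h3
      linear_combination (-1 / 2) * h3
    rcases mul_eq_zero.1 this with k | k
    · exact Or.inr ⟨by rw [a, k, neg_zero], b⟩
    · exact Or.inl ⟨a, by rw [b, k, neg_zero]⟩
  · have : s' * u' = 0 := by
      rw [a, b] at h3
      linear_combination (-1 / 2) * h3
    rcases mul_eq_zero.1 this with k | k
    · exact Or.inl ⟨by rw [a, k, neg_zero], b⟩
    · exact Or.inr ⟨a, by rw [b, k, neg_zero]⟩
  · exact Or.inr ⟨a, b⟩

theorem no_sol {R I R' I' m m' J : ℝ} (hJ : 0 < J) (n1 : R ^ 2 + I ^ 2 = J ^ 3)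
    (n2 : R' ^ 2 + I' ^ 2 = J ^ 3) (n3 : m ^ 2 + m' ^ 2 = J ^ 3) (h0 : m' = 0) (h1 : R + I = 0)
    (h2 : R' + I' = 0) (h3 : R - I + m + (R' - I') = 0) : False := by
  have e1 : I = -R := by linear_combination h1
  have e2 : I' = -R' := by linear_combination h2
  have e3 : m = -(2 * R + 2 * R') := by linear_combination h3 + h1 + h2
  rw [e1] at n1
  rw [e2] at n2
  rw [e3, h0] at n3
  have k1 : 2 * R ^ 2 = J ^ 3 := by linear_combination n1
  have k2 : 2 * R' ^ 2 = J ^ 3 := by linear_combination n2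
  have k3 : 8 * (R * R') = -3 * J ^ 3 := by linear_combination n3 - 2 * k1 - 2 * k2
  have k4 : 7 * (J ^ 3) ^ 2 = 0 := by
    have : 64 * (R * R') ^ 2 = 9 * (J ^ 3) ^ 2 := by
      linear_combination (8 * (R * R') - 3 * J ^ 3) * k3
    linear_combination this - 32 * R' ^ 2 * k1 - 16 * J ^ 3 * k2
  have : 0 < 7 * (J ^ 3) ^ 2 := by positivity
  linarith

theorem crit_alg {x y c s d u A B : ℝ} (h0 : y ^ 2 + x ^ 2 = 1) (h1 : s ^ 2 + c ^ 2 = 1)
    (h2 : u ^ 2 + d ^ 2 = 1) (hA : A = (1 + x) * (s * d) - (1 + y) * u)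
    (hB : B = (1 + x) * u + (1 + y) * (s * d))
    (g0 : -(c * A) - ((s - c * u) * c + (s + c * u) * (s * u)) = 0)
    (g1 : A * d - B * (s * u) + (s - c * u) * d = 0)
    (g2 : -(A * (s * u) + B * d) - ((s + c * u) * c - (s - c * u) * (s * u)) = 0)
    (hm : y * cr (s * d) u + x * ci (s * d) u = 0) : s = 0 ∧ u = 0 := by
  by_cases hu : u = 0
  · refine ⟨?_, hu⟩
    by_contra hs
    subst hu
    have hd : d ^ 2 = 1 := by linear_combination h2
    have e1 : y * s ^ 3 * d ^ 3 = 0 := by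
      unfold cr ci at hm
      linear_combination hm
    have e2 : y * s ^ 3 = 0 := by linear_combination d * e1 - y * s ^ 3 * (d ^ 2 + 1) * hd
    have hy : y = 0 := (mul_eq_zero.1 e2).resolve_right (pow_ne_zero 3 hs)
    subst hy
    have e3 : s * (1 + c) = 0 := by
      rw [hB] at g2
      linear_combination -g2 - s * hd
    have hc : 1 + c = 0 := (mul_eq_zero.1 e3).resolve_left hs
    have : s ^ 2 = 0 := by linear_combination h1 + (1 - c) * hc
    exact hs (pow_eq_zero_iff two_ne_zero |>.1 this)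
  by_cases hs : s = 0
  · exfalso
    subst hs
    have hc : c ^ 2 = 1 := by linear_combination h1
    have e1 : x * u ^ 3 = 0 := by
      unfold cr ci at hm
      linear_combination -hm
    have hx : x = 0 := (mul_eq_zero.1 e1).resolve_right (pow_ne_zero 3 hu)
    subst hx
    have e3 : u * (1 + d) = 0 := by
      rw [hB] at g2
      linear_combination -g2 - u * hc
    have hd : 1 + d = 0 := (mul_eq_zero.1 e3).resolve_left hu
    have : u ^ 2 = 0 := by linear_combination h2 + (1 - d) * hd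
    exact hu (pow_eq_zero_iff two_ne_zero |>.1 this)
  exfalso
  have ht : s * u ≠ 0 := mul_ne_zero hs hu
  obtain ⟨a, ha⟩ : ∃ a, a = s - c * u := ⟨_, rfl⟩
  obtain ⟨b, hb⟩ : ∃ b, b = s + c * u := ⟨_, rfl⟩
  obtain ⟨t, hT⟩ : ∃ t, t = s * u := ⟨_, rfl⟩
  rw [← ha, ← hb, ← hT] at g0 g2
  rw [← ha, ← hT] at g1
  rw [← hT] at ht
  have t2 : t ^ 2 = (1 - c ^ 2) * (1 - d ^ 2) := by
    rw [hT]
    linear_combination u ^ 2 * h1 + (1 - c ^ 2) * h2
  have w1 : (s * d) ^ 2 - u ^ 2 = d ^ 2 - c ^ 2 - t ^ 2 := by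
    linear_combination d ^ 2 * h1 - h2 + t2
  have w2 : s ^ 2 - (c * u) ^ 2 = d ^ 2 - c ^ 2 + t ^ 2 := by
    linear_combination h1 - c ^ 2 * h2 - t2
  have e1 : c * B + d * b = 0 := by
    apply mul_left_cancel₀ ht
    linear_combination -d * g0 - c * g1
  have e2 : 2 * d * t * A + B * ((s * d) ^ 2 - u ^ 2) = 0 := by
    rw [w1]
    linear_combination t * g1 - d * g2 - c * e1
  have e3 : 2 * c * t * a + b * (s ^ 2 - (c * u) ^ 2) = 0 := by
    rw [w2]
    linear_combination -t * g0 + c * g2 + d * e1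
  have e4 : A * ((s * d) ^ 2 - u ^ 2) - 2 * d * t * B +
      (a * (s ^ 2 - (c * u) ^ 2) - 2 * c * t * b) = 0 := by
    rw [w1, w2]
    linear_combination c * g0 + d * g1 + t * g2
  have hJ : 0 < (s * d) ^ 2 + u ^ 2 := by positivity
  have hJ' : s ^ 2 + (c * u) ^ 2 = (s * d) ^ 2 + u ^ 2 := by
    linear_combination (1 - d ^ 2) * h1 + (c ^ 2 - 1) * h2
  refine no_sol (m := x * cr (s * d) u - y * ci (s * d) u) hJ (cube_norm (s * d) u)
    (hJ' ▸ cube_norm s (c * u)) ?_ hm ?_ ?_ ?_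
  · linear_combination (cr (s * d) u ^ 2 + ci (s * d) u ^ 2) * h0 + cube_norm (s * d) u
  · rw [hA, hB, hT] at e2
    unfold cr ci at hm ⊢
    linear_combination e2 - hm
  · rw [ha, hb, hT] at e3
    unfold cr ci
    linear_combination e3
  · rw [hA, hB, ha, hb, hT] at e4
    unfold cr ci
    linear_combination e4

theorem pd_HH (h : ExA PP gg HH) (z : Fin 3 → ℝ) :
    pd HH 0 z = -(sin (z 0) * cr (sin (z 1) * cos (z 2)) (sin (z 2)) +
      cos (z 0) * ci (sin (z 1) * cos (z 2)) (sin (z 2))) / 3 := by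
  have hd : DifferentiableAt ℝ HH z := h.smH.differentiable (by simp) z
  unfold pd
  rw [← hd.lineDeriv_eq_fderiv]
  obtain ⟨K, hK⟩ : ∃ K : ℝ, ∀ t : ℝ, HH (z + t • Pi.single 0 1) =
      K + cr (sin (z 1) * cos (z 2)) (sin (z 2)) / 3 * cos (z 0 + t) -
        ci (sin (z 1) * cos (z 2)) (sin (z 2)) / 3 * sin (z 0 + t) := by
    refine ⟨HH z - cr (sin (z 1) * cos (z 2)) (sin (z 2)) / 3 * cos (z 0) +
      ci (sin (z 1) * cos (z 2)) (sin (z 2)) / 3 * sin (z 0), fun t => ?_⟩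
    have e0 : (z + t • (Pi.single 0 1 : Fin 3 → ℝ)) 0 = z 0 + t := by simp
    have e1 : (z + t • (Pi.single 0 1 : Fin 3 → ℝ)) 1 = z 1 := by simp
    have e2 : (z + t • (Pi.single 0 1 : Fin 3 → ℝ)) 2 = z 2 := by simp
    have h1 := sin_sq_add_cos_sq (z 1)
    have h2 := sin_sq_add_cos_sq (z 2)
    simp only [HH, gg, PP, a1, b1, a2, b2, e0, e1, e2, dotProduct, Fin.sum_univ_three,
      cons_val_zero, cons_val_one, cons_val_two, head_cons, tail_cons, cr, ci]
    generalize cos (z 0 + t) = X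
    generalize sin (z 0 + t) = Y
    generalize cos (z 0) = x
    generalize sin (z 0) = y
    generalize sin (z 1) = s at h1 ⊢
    generalize cos (z 1) = c at h1 ⊢
    generalize sin (z 2) = u at h2 ⊢
    generalize cos (z 2) = d at h2 ⊢
    have w1 : d ^ 2 - c ^ 2 - (s * u) ^ 2 = (s * d) ^ 2 - u ^ 2 := by
      linear_combination (-1) * h1 + (1 - s ^ 2) * h2
    linear_combination ((X - x) * (s * d) - (Y - y) * u) / 3 * w1
  have hc : HasDerivAt (fun t : ℝ => cos (z 0 + t)) (-sin (z 0)) 0 := by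
    simpa using (hasDerivAt_cos (z 0 + 0)).comp_const_add (z 0) 0
  have hs : HasDerivAt (fun t : ℝ => sin (z 0 + t)) (cos (z 0)) 0 := by
    simpa using (hasDerivAt_sin (z 0 + 0)).comp_const_add (z 0) 0
  unfold lineDeriv
  rw [funext hK]
  rw [(((hc.const_mul _).const_add K).fun_sub (hs.const_mul _)).deriv]
  ring

end PExB

open PExB

theorem p_exB (h : ExA PP gg HH) : ExB PP gg HH where
  two := fun z z' l hl e => by
    have e1 : cos (z 1) = l * cos (z' 1) := congrFun e 0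
    have e2 : cos (z 2) = l * cos (z' 2) := congrFun e 1
    have e3 : sin (z 1) * sin (z 2) = l * (sin (z' 1) * sin (z' 2)) := congrFun e 2
    have h1 := sin_sq_add_cos_sq (z 1)
    have h2 := sin_sq_add_cos_sq (z 2)
    have h1' := sin_sq_add_cos_sq (z' 1)
    have h2' := sin_sq_add_cos_sq (z' 2)
    have hl1 := scale_one hl h1 h2 h1' h2' e1 e2 e3
    rw [hl1, one_mul] at e1 e2 e3
    refine ⟨e1, e2, signs ?_ ?_ e3⟩
    · rw [e1] at h1
      linear_combination h1 - h1'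
    · rw [e2] at h2
      linear_combination h2 - h2'
  evP := fun z => by
    funext i
    fin_cases i <;> simp [PP]
  odg := fun z => by
    funext i
    fin_cases i <;> simp [gg, a1, b1, a2, b2] <;> ring
  odH := fun z => by
    rw [pd_HH h, pd_HH h]
    simp [cr, ci]
    ring
  crit := fun z hg hH => by
    rw [pd_HH h] at hH
    exact crit_alg (sin_sq_add_cos_sq (z 0)) (sin_sq_add_cos_sq (z 1)) (sin_sq_add_cos_sq (z 2))
      (A := a1 z) (B := b1 z) rfl rfl (congrFun hg 0) (congrFun hg 1) (congrFun hg 2)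
      (by linear_combination (-3) * hH)

end Pool.Agent.P.MP_a67bd8_gt.N4
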