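import Pool.Agent.P.MP_a67bd8_gt.N4.W3

/-!
Definitions and intermediate statements for the four dimensional torus.
-/

namespace Pool.Agent.P.MP_a67bd8_gt.N4

open MeasureTheory Set Matrix Real
open scoped ContDiff Matrix.Norms.Operator Quaternion

set_option linter.unusedSectionVars false

/-- removal of the first row and column -/
theorem wm_col0 {n : ℕ} {S : (Fin 3 → ℝ) → Matrix (Fin (n + 1)) (Fin (n + 1)) ℂ} (h : Ad S)
    (h0 : ∀ x (i : Fin n), S x i.succ 0 = 0) :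
    Ad (fun x => (S x).submatrix Fin.succ Fin.succ) ∧
      wm S = wm fun x => (S x).submatrix Fin.succ Fin.succ := by
  let e : Unit ⊕ Fin n ≃ Fin (n + 1) :=
    { toFun := Sum.elim (fun _ => 0) Fin.succ
      invFun := Fin.cases (Sum.inl ()) Sum.inr
      left_inv := by rintro (i | i) <;> rfl
      right_inv := fun i => by refine Fin.cases rfl (fun _ => rfl) i }
  obtain ⟨a, h1⟩ := wm_reindex e.symm h
  obtain ⟨a1, a2, h2⟩ := wm_tri a (Or.inl fun x => by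
    ext i j
    exact h0 x i)
  rw [wm_diag a1 fun x i j hij => absurd rfl hij, zero_add] at h2
  exact ⟨a2, h1.symm.trans h2⟩

/-- the real part of a quaternion -/
noncomputable def reQ : ℍ →L[ℝ] ℂ :=
  LinearMap.toContinuousLinearMap
    { toFun := fun a => (a.re : ℂ)
      map_add' := fun a b => by simp
      map_smul' := fun c a => by simp }

theorem reQ_apply (a : ℍ) : reQ a = (a.re : ℂ) := rfl

theorem reQ_comm (a b : ℍ) : reQ (a * b) = reQ (b * a) := by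
  simp only [reQ_apply, Quaternion.re_mul]
  congr 1
  ring

/-- the winding number of a quaternion valued map -/
noncomputable def wq (v : (Fin 3 → ℝ) → ℍ) : ℂ := wind3 reQ v

/-- quaternions as complex two by two matrices -/
noncomputable def LC : ℍ →L[ℝ] Matrix (Fin 2) (Fin 2) ℂ :=
  LinearMap.toContinuousLinearMap
    { toFun := fun a => !![⟨a.re, a.imI⟩, ⟨-a.imJ, -a.imK⟩; ⟨a.imJ, -a.imK⟩, ⟨a.re, -a.imI⟩]
      map_add' := fun a b => by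
        ext i j
        fin_cases i <;> fin_cases j <;> apply Complex.ext <;> simp <;> ring
      map_smul' := fun c a => by
        ext i j
        fin_cases i <;> fin_cases j <;> apply Complex.ext <;> simp }

theorem LC_apply (a : ℍ) :
    LC a = !![⟨a.re, a.imI⟩, ⟨-a.imJ, -a.imK⟩; ⟨a.imJ, -a.imK⟩, ⟨a.re, -a.imI⟩] := rfl

theorem LC_one : LC 1 = 1 := by
  ext i j
  fin_cases i <;> fin_cases j <;> apply Complex.ext <;> simp [LC_apply]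

theorem LC_mul (a b : ℍ) : LC (a * b) = LC a * LC b := by
  ext i j
  fin_cases i <;> fin_cases j <;> apply Complex.ext <;>
    simp [LC_apply, mul_apply, Fin.sum_univ_two] <;> ring

theorem wm_LC {v : (Fin 3 → ℝ) → ℍ} (h : Ad v) :
    Ad (fun x => LC (v x)) ∧ wm (fun x => LC (v x)) = 2 * wq v :=
  have e : ∀ a, (LC a).trace = 2 * reQ a := fun a => by
    apply Complex.ext <;> simp [LC_apply, reQ_apply, two_mul]
  wind3_map reQ (trL (Fin 2)) LC LC_one LC_mul (c := 2) e h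

/-- the coordinates of a quaternion -/
def vec (a : ℍ) : Fin 4 → ℂ := ![a.re, a.imI, a.imJ, a.imK]

/-- left multiplication by a quaternion -/
noncomputable def LR : ℍ →L[ℝ] Matrix (Fin 4) (Fin 4) ℂ :=
  LinearMap.toContinuousLinearMap
    { toFun := fun a => !![a.re, -a.imI, -a.imJ, -a.imK; a.imI, a.re, -a.imK, a.imJ;
        a.imJ, a.imK, a.re, -a.imI; a.imK, -a.imJ, a.imI, a.re]
      map_add' := fun a b => by
        ext i j
        fin_cases i <;> fin_cases j <;> simp <;> ring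
      map_smul' := fun c a => by
        ext i j
        fin_cases i <;> fin_cases j <;> simp }

theorem LR_apply (a : ℍ) : LR a = !![(a.re : ℂ), -a.imI, -a.imJ, -a.imK;
    a.imI, a.re, -a.imK, a.imJ; a.imJ, a.imK, a.re, -a.imI; a.imK, -a.imJ, a.imI, a.re] := rfl

theorem LR_one : LR 1 = 1 := by
  ext i j
  fin_cases i <;> fin_cases j <;> simp [LR_apply]

theorem LR_mul (a b : ℍ) : LR (a * b) = LR a * LR b := by
  ext i j
  fin_cases i <;> fin_cases j <;> simp [LR_apply, mul_apply, Fin.sum_univ_four] <;> ring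

theorem LR_vec (a b : ℍ) : LR a *ᵥ vec b = vec (a * b) := by
  funext i
  fin_cases i <;> simp [LR_apply, vec, mulVec, dotProduct, Fin.sum_univ_four] <;> ring

theorem wm_LR {v : (Fin 3 → ℝ) → ℍ} (h : Ad v) :
    Ad (fun x => LR (v x)) ∧ wm (fun x => LR (v x)) = 4 * wq v :=
  have e : ∀ a, (LR a).trace = 4 * reQ a := fun a => by
    simp [LR_apply, reQ_apply, trace, Fin.sum_univ_four]
    ring
  wind3_map reQ (trL (Fin 4)) LR LR_one LR_mul (c := 4) e h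

/-- integrality of the winding number and its value when a ray is met once -/
structure Link (κ : ℂ) : Prop where
  ne : κ ≠ 0
  int : ∀ v : (Fin 3 → ℝ) → ℍ, Ad v → ∃ m : ℤ, wq v = κ * m
  one : ∀ v : (Fin 3 → ℝ) → ℍ, Ad v → ∀ x₀ : Fin 3 → ℝ, (∀ k, x₀ k ∈ Ioo 0 (2 * π)) →
    (∀ t : ℝ, 0 < t → ∀ x ∈ cube, t • v x = v x₀ → x = x₀) →
    (∀ (a : ℝ) (u : Fin 3 → ℝ), a • v x₀ + fderiv ℝ v x₀ u = 0 → a = 0 ∧ u = 0) →
    wq v = κ ∨ wq v = -κ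

/-- real matrix valued maps have even winding number -/
def Ev (κ : ℂ) (n : ℕ) : Prop :=
  ∀ A : (Fin 3 → ℝ) → Matrix (Fin n) (Fin n) ℂ, Ad A → (∀ x i j, (A x i j).im = 0) →
    ∃ m : ℤ, wm A = 4 * κ * m

/-- the divergence -/
noncomputable def dv (V : (Fin 4 → ℝ) → Fin 4 → ℝ) (y : Fin 4 → ℝ) : ℝ := ∑ i, pd V i y i

/-- the flux through a time slice -/
noncomputable def flux (V H : (Fin 4 → ℝ) → Fin 4 → ℝ) (t : ℝ) : ℝ :=
  ∫ x in cube, (Matrix.of ![V (H (Fin.cons t x)), pd H 1 (Fin.cons t x), pd H 2 (Fin.cons t x),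
    pd H 3 (Fin.cons t x)]).det

/-- the divergence theorem for a pulled back vector field -/
def S_Piola : Prop :=
  ∀ V H : (Fin 4 → ℝ) → Fin 4 → ℝ, ContDiff ℝ ∞ V → ContDiff ℝ ∞ H →
    (∀ (k : Fin 3) p, H (p + Pi.single k.succ (2 * π)) = H p) → ∀ a b : ℝ, a ≤ b →
    ∫ p in box a b, dv V (H p) * (fderiv ℝ H p).det = flux V H b - flux V H a

/-- the signed count of nondegenerate zeros -/
def S_Count : Prop :=
  ∀ η : (Fin 4 → ℝ) → ℝ, Continuous η → (∀ y, 1 ≤ ‖y‖ → η y = 0) →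
    ∀ H : (Fin 4 → ℝ) → Fin 4 → ℝ, ContDiff ℝ ∞ H → ∀ K : Set (Fin 4 → ℝ), IsCompact K →
    (∀ p ∈ K, H p = 0 → p ∈ interior K ∧ (fderiv ℝ H p).det ≠ 0) →
    ∃ (s : Finset (Fin 4 → ℝ)) (σ : (Fin 4 → ℝ) → ℤ) (c₀ : ℝ),
      (∀ p, p ∈ s ↔ p ∈ K ∧ H p = 0) ∧ (∀ p ∈ s, σ p = 1 ∨ σ p = -1) ∧
      ∀ c : ℝ, 0 < c → c₀ ≤ c →
        ∫ p in K, η (c • H p) * (fderiv ℝ (fun q => c • H q) p).det =
          (∫ y, η y) * ((∑ p ∈ s, σ p : ℤ) : ℝ)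

/-- a smoothing of the fundamental field -/
def S_Field : Prop :=
  ∃ V : (Fin 4 → ℝ) → Fin 4 → ℝ, ContDiff ℝ ∞ V ∧
    (∀ y, 1 ≤ y ⬝ᵥ y → V y = ((y ⬝ᵥ y) ^ 2)⁻¹ • y) ∧ (∀ y, 1 ≤ y ⬝ᵥ y → dv V y = 0) ∧
    ∫ y, dv V y ≠ 0

/-- the winding number of a quaternion valued map as an integral of a determinant -/
def S_Jac : Prop :=
  ∀ v : (Fin 3 → ℝ) → ℍ, Ad v → ∀ u : (Fin 3 → ℝ) → Fin 4 → ℝ,
    (∀ x, u x = ![(v x).re, (v x).imI, (v x).imJ, (v x).imK]) →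
    wq v = -2 * ((∫ x in cube, (Matrix.of ![u x, pd u 0 x, pd u 1 x, pd u 2 x]).det /
      (u x ⬝ᵥ u x) ^ 2 : ℝ) : ℂ)

/-- lifting of orthonormal pairs to unit quaternions -/
def S_Spin : Prop :=
  ∀ e₁ e₂ : (Fin 3 → ℝ) → ℍ, ContDiff ℝ ∞ e₁ → ContDiff ℝ ∞ e₂ → Per e₁ → Per e₂ →
    (∀ x, (e₁ x).re = 0) → (∀ x, (e₂ x).re = 0) → (∀ x, ‖e₁ x‖ = 1) → (∀ x, ‖e₂ x‖ = 1) →
    (∀ x, (e₁ x * e₂ x).re = 0) →
    ∃ (q : (Fin 3 → ℝ) → ℍ) (m : Fin 3 → ℤ), Ad q ∧ (∀ x, ‖q x‖ = 1) ∧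
      (∀ x, q x * ⟨0, 1, 0, 0⟩ * star (q x) = e₁ x) ∧
      ∀ x, q x * ⟨0, 0, cos (∑ k, m k * x k), sin (∑ k, m k * x k)⟩ * star (q x) = e₂ x

/-- closed three tori inside the torus -/
def Lp {n : ℕ} (ℓ : (Fin 3 → ℝ) →L[ℝ] Fin n → ℝ) : Prop :=
  ∀ k, cov (ℓ (Pi.single k (2 * π))) = 1

/-- the winding number is even on tori isotopic to the Clifford torus -/
def S_Iso : Prop :=
  ∀ (κ : ℂ) (n : ℕ), Ev κ n → ∀ f : (Fin n → Circle) → Fin n → ℂ, IsLagTorus f →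
    LagIsotopic (range f) (clifford (Fin n)) → ∀ ℓ : (Fin 3 → ℝ) →L[ℝ] Fin n → ℝ, Lp ℓ →
    ∃ m : ℤ, wm (fun b => frame (fun x => f (cov x)) (ℓ b)) = 4 * κ * m

/-- the frame along the fibres -/
noncomputable def fib {n : ℕ} (w : (Fin (n + 1) → ℝ) → Fin n → ℂ) (y : Fin (n + 1) → ℝ) :
    Matrix (Fin n) (Fin n) ℂ := Matrix.of fun j m => pd w m.succ y j

/-- exact loops of Lagrangian maps -/
structure Loop {n : ℕ} (w : (Fin (n + 1) → ℝ) → Fin n → ℂ) (τ : (Fin (n + 1) → ℝ) → ℝ) :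
    Prop where
  smw : ContDiff ℝ ∞ w
  smt : ContDiff ℝ ∞ τ
  perw : Per w
  pert : Per τ
  lag : ∀ y a b, sympl (pd w a y) (pd w b y) =
    (if b = 0 then pd τ a y else 0) - if a = 0 then pd τ b y else 0

/-- the members of the loop are immersions -/
def Imm {n : ℕ} (w : (Fin (n + 1) → ℝ) → Fin n → ℂ) : Prop :=
  ∀ y (v : Fin n → ℝ), ∑ m, v m • pd w m.succ y = 0 → v = 0

/-- the suspension is injective -/
def Inj {n : ℕ} (w : (Fin (n + 1) → ℝ) → Fin n → ℂ) (τ : (Fin (n + 1) → ℝ) → ℝ) : Prop :=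
  ∀ y y', cov y 0 = cov y' 0 → τ y = τ y' → w y = w y' → cov y = cov y'

/-- the Lagrangian suspension -/
def S_Sus : Prop :=
  ∀ (n : ℕ) (w : (Fin (n + 1) → ℝ) → Fin n → ℂ) (τ : (Fin (n + 1) → ℝ) → ℝ),
    Loop w τ → Imm w → Inj w τ →
    ∃ f : (Fin (n + 1) → Circle) → Fin (n + 1) → ℂ, IsLagTorus f ∧
      ∀ ℓ : (Fin 3 → ℝ) →L[ℝ] Fin (n + 1) → ℝ, Lp ℓ → Ad (fun b => fib w (ℓ b)) ∧
        wm (fun b => frame (fun x => f (cov x)) (ℓ b)) = wm fun b => fib w (ℓ b)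

/-- tori with odd winding number -/
def Od (κ : ℂ) (n : ℕ) : Prop :=
  ∃ f : (Fin n → Circle) → Fin n → ℂ, IsLagTorus f ∧ ∃ ℓ : (Fin 3 → ℝ) →L[ℝ] Fin n → ℝ, Lp ℓ ∧
    (wm (fun b => frame (fun x => f (cov x)) (ℓ b)) = 2 * κ ∨
      wm (fun b => frame (fun x => f (cov x)) (ℓ b)) = -(2 * κ))

/-- the branch circles -/
def Br (z : Fin 3 → ℝ) : Prop := sin (z 1) = 0 ∧ sin (z 2) = 0

/-- the centre of the cube -/
noncomputable def ctr : Fin 3 → ℝ := fun _ => π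

/-- differential properties of the two valued cubic -/
structure ExA (P g : (Fin 3 → ℝ) → Fin 3 → ℝ) (H : (Fin 3 → ℝ) → ℝ) : Prop where
  smP : ContDiff ℝ ∞ P
  smg : ContDiff ℝ ∞ g
  smH : ContDiff ℝ ∞ H
  perP : Per P
  perg : Per g
  perH : Per H
  ne : ∀ z, P z ≠ 0
  ind : ∀ z z', z 1 = z' 1 → z 2 = z' 2 → P z = P z'
  gP : ∀ z, g z ⬝ᵥ P z = 3 * H z
  g1 : ∀ z, g z ⬝ᵥ pd P 1 z = pd H 1 z
  g2 : ∀ z, g z ⬝ᵥ pd P 2 z = pd H 2 z
  reg : ∀ z (a b c : ℝ), a • pd P 1 z + b • pd P 2 z = c • P z → (a = 0 ∧ b = 0) ∨ Br z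
  br0 : ∀ z, Br z → g z = 0
  br1 : ∀ z (a b c : ℝ), Br z → a • pd g 1 z + b • pd g 2 z = c • P z → a = 0 ∧ b = 0

/-- global properties of the two valued cubic -/
structure ExB (P g : (Fin 3 → ℝ) → Fin 3 → ℝ) (H : (Fin 3 → ℝ) → ℝ) : Prop where
  two : ∀ z z' (l : ℝ), 0 < l → P z = l • P z' → cos (z 1) = cos (z' 1) ∧ cos (z 2) = cos (z' 2) ∧
    ((sin (z 1) = sin (z' 1) ∧ sin (z 2) = sin (z' 2)) ∨
      (sin (z 1) = -sin (z' 1) ∧ sin (z 2) = -sin (z' 2)))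
  evP : ∀ z : Fin 3 → ℝ, P ![z 0, -z 1, -z 2] = P z
  odg : ∀ z : Fin 3 → ℝ, g ![z 0, -z 1, -z 2] = -g z
  odH : ∀ z : Fin 3 → ℝ, pd H 0 ![z 0, -z 1, -z 2] = -pd H 0 z
  crit : ∀ z, g z = 0 → pd H 0 z = 0 → Br z

/-- the twisted branch circle -/
structure ExC (P g : (Fin 3 → ℝ) → Fin 3 → ℝ) : Prop where
  deg1 : ∀ z ∈ cube, ∀ t c : ℝ, Br z → 0 < t →
    t • pd g 1 z + pd g 1 ![0, z 1, z 2] = c • P z → z = ctr
  deg2 : pd g 1 ctr + pd g 1 ![0, π, π] = 0 ∧ pd P 1 ctr = 0 ∧ pd P 2 ctr = 0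
  deg3 : ∀ a b c : ℝ, a • pd (pd P 1) 1 ctr + b • pd (pd P 1) 2 ctr = c • P ctr → a = 0 ∧ b = 0
  deg4 : ∀ a b c : ℝ, a • pd g 1 ![0, π, π] + b • pd (pd g 1) 0 ctr = c • P ctr → a = 0 ∧ b = 0

/-- the pillowcase -/
noncomputable def PP (z : Fin 3 → ℝ) : Fin 3 → ℝ := ![cos (z 1), cos (z 2), sin (z 1) * sin (z 2)]

/-- the real part of `U Y` -/
noncomputable def a1 (z : Fin 3 → ℝ) : ℝ :=
  (1 + cos (z 0)) * (sin (z 1) * cos (z 2)) - (1 + sin (z 0)) * sin (z 2)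

/-- the imaginary part of `U Y` -/
noncomputable def b1 (z : Fin 3 → ℝ) : ℝ :=
  (1 + cos (z 0)) * sin (z 2) + (1 + sin (z 0)) * (sin (z 1) * cos (z 2))

/-- the real part of `V Y'` -/
noncomputable def a2 (z : Fin 3 → ℝ) : ℝ := sin (z 1) - cos (z 1) * sin (z 2)

/-- the imaginary part of `V Y'` -/
noncomputable def b2 (z : Fin 3 → ℝ) : ℝ := sin (z 1) + cos (z 1) * sin (z 2)

/-- the gradient of the cubic -/
noncomputable def gg (z : Fin 3 → ℝ) : Fin 3 → ℝ :=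
  ![-(cos (z 1) * a1 z) - (a2 z * cos (z 1) + b2 z * (sin (z 1) * sin (z 2))),
    a1 z * cos (z 2) - b1 z * (sin (z 1) * sin (z 2)) + a2 z * cos (z 2),
    -(a1 z * (sin (z 1) * sin (z 2)) + b1 z * cos (z 2)) -
      (b2 z * cos (z 1) - a2 z * (sin (z 1) * sin (z 2)))]

/-- the cubic -/
noncomputable def HH (z : Fin 3 → ℝ) : ℝ := gg z ⬝ᵥ PP z / 3

/-- three of the four angles -/
def zz (y : Fin 4 → ℝ) : Fin 3 → ℝ := ![y 0, y 2, y 3]

/-- the inverse length -/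
noncomputable def mu (P : (Fin 3 → ℝ) → Fin 3 → ℝ) (z : Fin 3 → ℝ) : ℝ := (√(P z ⬝ᵥ P z))⁻¹

/-- the radial factor -/
noncomputable def lam (P : (Fin 3 → ℝ) → Fin 3 → ℝ) (δ : ℝ) (y : Fin 4 → ℝ) : ℝ :=
  (1 + δ * cos (y 1)) * mu P (zz y)

/-- the loop of immersed three tori -/
noncomputable def ww (P g : (Fin 3 → ℝ) → Fin 3 → ℝ) (δ : ℝ) (y : Fin 4 → ℝ) (j : Fin 3) : ℂ :=
  ⟨δ * sin (y 1) * mu P (zz y) * P (zz y) j + lam P δ y ^ 2 * g (zz y) j,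
    lam P δ y * P (zz y) j⟩

/-- its Hamiltonian -/
noncomputable def tt (P : (Fin 3 → ℝ) → Fin 3 → ℝ) (H : (Fin 3 → ℝ) → ℝ) (δ : ℝ)
    (y : Fin 4 → ℝ) : ℝ := lam P δ y ^ 3 * pd H 0 (zz y)

/-- the loop is an exact loop of Lagrangian maps -/
def S_Lag : Prop := ∀ P g H, ExA P g H → ∀ δ, Loop (n := 3) (ww P g δ) (tt P H δ)

/-- the members of the loop are immersions -/
def S_Imm : Prop := ∀ P g H, ExA P g H → ∀ δ, 0 < δ → δ < 1 → Imm (n := 3) (ww P g δ)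

/-- critical values stay away from zero -/
def Gap (P g : (Fin 3 → ℝ) → Fin 3 → ℝ) (H : (Fin 3 → ℝ) → ℝ) : Prop :=
  ∃ μ₀ : ℝ, 0 < μ₀ ∧ ∀ z (μ : ℝ), g z = μ • P z → pd H 0 z = 0 → |μ| < μ₀ → Br z

/-- the gap -/
def S_Gap : Prop := ∀ P g H, ExA P g H → ExB P g H → Gap P g H

/-- injectivity for a thin circle -/
def S_Inj : Prop := ∀ P g H, ExA P g H → ExB P g H → Gap P g H →
  ∃ δ, 0 < δ ∧ δ < 1 ∧ Inj (n := 3) (ww P g δ) (tt P H δ)

/-- the three torus in the four torus -/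
noncomputable def ell : (Fin 3 → ℝ) →L[ℝ] Fin 4 → ℝ :=
  ContinuousLinearMap.pi ![ContinuousLinearMap.proj 0, 0, ContinuousLinearMap.proj 1,
    ContinuousLinearMap.proj 2]

/-- the winding number of the example -/
def S_Deg : Prop := ∀ κ, Link κ → ∀ P g H, ExA P g H → ExC P g → ∀ δ, 0 < δ →
  Ad (fun b => fib (n := 3) (ww P g δ) (ell b)) →
    wm (fun b => fib (n := 3) (ww P g δ) (ell b)) = 2 * κ ∨
      wm (fun b => fib (n := 3) (ww P g δ) (ell b)) = -(2 * κ)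

end Pool.Agent.P.MP_a67bd8_gt.N4
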