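import Pool.Agent.P.MP_a67bd8_gt.T

/-!
The closed three form `tr (S⁻¹ dS)³` and its integral over the three dimensional torus.
-/

namespace Pool.Agent.P.MP_a67bd8_gt.N4

open MeasureTheory Set Matrix
open scoped ContDiff Matrix.Norms.Operator

set_option linter.unusedSectionVars false

/-- the fundamental cube -/
def cube : Set (Fin 3 → ℝ) := Icc 0 fun _ => 2 * Real.pi

/-- the cube times an interval -/
def box (a b : ℝ) : Set (Fin 4 → ℝ) := Icc (Fin.cons a 0) (Fin.cons b fun _ => 2 * Real.pi)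

theorem stokes {V : Type} [NormedAddCommGroup V] [NormedSpace ℝ V] [CompleteSpace V]
    (f : Fin 4 → (Fin 4 → ℝ) → V) (hf : ∀ i, ContDiff ℝ ∞ (f i))
    (hp : ∀ (k : Fin 3) p, f k.succ (p + Pi.single k.succ (2 * Real.pi)) = f k.succ p)
    {a b : ℝ} (hab : a ≤ b) :
    ∫ p in box a b, ∑ i, pd (f i) i p =
      (∫ x in cube, f 0 (Fin.cons b x)) - ∫ x in cube, f 0 (Fin.cons a x) := by
  have hd := integral_divergence_of_hasFDerivAt_off_countable' (Fin.cons a 0 : Fin 4 → ℝ)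
    (Fin.cons b fun _ => 2 * Real.pi) (fun i => by
      refine Fin.cases ?_ (fun j => ?_) i
      · simpa using hab
      · simp [Real.pi_pos.le])
    f (fun i p => fderiv ℝ (f i) p) ∅ countable_empty
    (fun i => (hf i).continuous.continuousOn)
    (fun p _ i => ((hf i).differentiable (by simp) p).hasFDerivAt)
    (continuous_finsetSum _ fun i _ => (contDiff_pd (hf i) i).continuous).continuousOn.integrableOn_Icc
  rw [Fin.sum_univ_succ, Finset.sum_eq_zero, add_zero] at hd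
  · simp only [Fin.insertNth_zero', Fin.cons_zero] at hd
    exact hd
  · intro k _
    rw [sub_eq_zero]
    congr 1
    funext x
    have e : (Fin.insertNth k.succ ((Fin.cons b fun _ => 2 * Real.pi : Fin 4 → ℝ) k.succ) x :
        Fin 4 → ℝ) = Fin.insertNth k.succ ((Fin.cons a 0 : Fin 4 → ℝ) k.succ) x +
          Pi.single k.succ (2 * Real.pi) := by
      funext i
      refine Fin.succAboveCases k.succ ?_ (fun j => ?_) i
      · simp
      · simp
    rw [e, hp]

theorem pd_cons {V : Type} [NormedAddCommGroup V] [NormedSpace ℝ V] {H : (Fin 4 → ℝ) → V}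
    {t : ℝ} {x : Fin 3 → ℝ} (h : DifferentiableAt ℝ H (Fin.cons t x)) (k : Fin 3) :
    pd (fun y => H (Fin.cons t y)) k x = pd H k.succ (Fin.cons t x) := by
  unfold pd
  have h1 : HasFDerivAt (fun y : Fin 3 → ℝ => (Fin.cons t y : Fin 4 → ℝ))
      (ContinuousLinearMap.pi fun i : Fin 4 => Fin.cases 0
        (fun j => ContinuousLinearMap.proj (R := ℝ) (φ := fun _ : Fin 3 => ℝ) j) i) x :=
    hasFDerivAt_pi.mpr fun i => by
      refine Fin.cases ?_ (fun j => ?_) i
      · exact hasFDerivAt_const t x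
      · exact (ContinuousLinearMap.proj (R := ℝ) (φ := fun _ : Fin 3 => ℝ) j).hasFDerivAt
  have h2 := (h.hasFDerivAt.comp x h1).fderiv
  rw [show (fun y => H (Fin.cons t y)) = H ∘ fun y : Fin 3 → ℝ => (Fin.cons t y : Fin 4 → ℝ)
    from rfl, h2, ContinuousLinearMap.comp_apply]
  congr 1
  funext i
  refine Fin.cases ?_ (fun j => ?_) i
  · simp
  · simp [Pi.single_apply]

section HI

variable {A : Type} [NormedRing A] [NormedAlgebra ℝ A]

/-- the alternating trace of three factors -/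
noncomputable def t3 (τ : A →L[ℝ] ℂ) (x y z : A) : ℂ := τ (x * y * z) - τ (x * z * y)

/-- the coefficient of the three form -/
noncomputable def om3 (τ : A →L[ℝ] ℂ) (S : (Fin 3 → ℝ) → A) (x : Fin 3 → ℝ) : ℂ :=
  t3 τ (mc S 0 x) (mc S 1 x) (mc S 2 x)

/-- the integral over the torus -/
noncomputable def wind3 (τ : A →L[ℝ] ℂ) (S : (Fin 3 → ℝ) → A) : ℂ := ∫ x in cube, om3 τ S x

theorem closed3 (τ : A →L[ℝ] ℂ) (hτ : ∀ a b, τ (a * b) = τ (b * a))
    (a0 a1 a2 a3 c01 c02 c03 c12 c13 c23 : A) :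
    (t3 τ (c01 - a0 * a1) a2 a3 + t3 τ a1 (c02 - a0 * a2) a3 + t3 τ a1 a2 (c03 - a0 * a3)) -
    (t3 τ (c01 - a1 * a0) a2 a3 + t3 τ a0 (c12 - a1 * a2) a3 + t3 τ a0 a2 (c13 - a1 * a3)) +
    (t3 τ (c02 - a2 * a0) a1 a3 + t3 τ a0 (c12 - a2 * a1) a3 + t3 τ a0 a1 (c23 - a2 * a3)) -
    (t3 τ (c03 - a3 * a0) a1 a2 + t3 τ a0 (c13 - a3 * a1) a2 + t3 τ a0 a1 (c23 - a3 * a2)) = 0 := by
  have h1 : ∀ x y z, τ (x * (y * z)) = τ (y * (z * x)) := fun x y z => by
    rw [hτ, mul_assoc]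
  have h2 : ∀ x y z, τ (x * (a0 * (y * z))) = τ (a0 * (y * (z * x))) := fun x y z => by
    rw [hτ]; simp only [mul_assoc]
  have h3 : ∀ x y z, τ (x * (y * (a0 * z))) = τ (a0 * (z * (x * y))) := fun x y z => by
    rw [← mul_assoc, hτ]; simp only [mul_assoc]
  simp only [t3, sub_mul, mul_sub, mul_assoc, map_sub, h2, h3]
  rw [h1 a1 c02 a3, h1 a1 a3 c02, h1 a3 c02 a1, h1 a1 a2 c03, h1 a2 c03 a1, h1 a1 c03 a2]
  ring

variable [CompleteSpace A]

theorem contDiff_t3 {E : Type} [NormedAddCommGroup E] [NormedSpace ℝ E] (τ : A →L[ℝ] ℂ)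
    {f g h : E → A} (hf : ContDiff ℝ ∞ f) (hg : ContDiff ℝ ∞ g) (hh : ContDiff ℝ ∞ h) :
    ContDiff ℝ ∞ fun p => t3 τ (f p) (g p) (h p) :=
  (τ.contDiff.comp ((hf.mul hg).mul hh)).sub (τ.contDiff.comp ((hf.mul hh).mul hg))

theorem pd_t3 (τ : A →L[ℝ] ℂ) {f g h : (Fin 4 → ℝ) → A} {p : Fin 4 → ℝ}
    (hf : DifferentiableAt ℝ f p) (hg : DifferentiableAt ℝ g p) (hh : DifferentiableAt ℝ h p)
    (i : Fin 4) : pd (fun p => t3 τ (f p) (g p) (h p)) i p =
      t3 τ (pd f i p) (g p) (h p) + t3 τ (f p) (pd g i p) (h p) + t3 τ (f p) (g p) (pd h i p) := by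
  have e : (fun p => t3 τ (f p) (g p) (h p)) = fun p => τ (f p * g p * h p - f p * h p * g p) :=
    funext fun p => (map_sub τ _ _).symm
  have d1 := (hf.fun_mul hg).fun_mul hh
  have d2 := (hf.fun_mul hh).fun_mul hg
  rw [e, pd_clm τ (d1.fun_sub d2), pd, fderiv_fun_sub d1 d2, _root_.sub_apply, ← pd,
    ← pd, pd_mul (hf.fun_mul hg) hh, pd_mul hf hg, pd_mul (hf.fun_mul hh) hg, pd_mul hf hh]
  simp only [t3, add_mul, map_add, map_sub]
  ring

theorem hi4 (τ : A →L[ℝ] ℂ) (hτ : ∀ a b, τ (a * b) = τ (b * a)) {H : (Fin 4 → ℝ) → A}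
    (h : ContDiff ℝ ∞ H) (hu : ∀ p, IsUnit (H p))
    (hp : ∀ (k : Fin 3) p, H (p + Pi.single k.succ (2 * Real.pi)) = H p) :
    wind3 τ (fun y => H (Fin.cons 0 y)) = wind3 τ fun y => H (Fin.cons 1 y) := by
  have m := contDiff_mc h hu
  have md : ∀ i p, DifferentiableAt ℝ (mc H i) p := fun i p => (m i).differentiable (by simp) p
  have hs := stokes (V := ℂ) ![fun p => t3 τ (mc H 1 p) (mc H 2 p) (mc H 3 p),
      fun p => t3 (-τ) (mc H 0 p) (mc H 2 p) (mc H 3 p),
      fun p => t3 τ (mc H 0 p) (mc H 1 p) (mc H 3 p),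
      fun p => t3 (-τ) (mc H 0 p) (mc H 1 p) (mc H 2 p)]
    (fun i => by fin_cases i <;> exact contDiff_t3 _ (m _) (m _) (m _))
    (fun k p => by
      have e : ∀ i, mc H i (p + Pi.single k.succ (2 * Real.pi)) = mc H i p := fun i => by
        simp only [mc, hp, pd_shift (hp k)]
      generalize p + Pi.single k.succ (2 * Real.pi) = q at e
      generalize k.succ = j
      fin_cases j <;> simp [e]) zero_le_one
  have key : ∀ t x, t3 τ (mc H 1 (Fin.cons t x)) (mc H 2 (Fin.cons t x)) (mc H 3 (Fin.cons t x)) =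
      om3 τ (fun y => H (Fin.cons t y)) x := fun t x => by
    simp only [om3, mc, pd_cons (h.differentiable (by simp) _)]
    rfl
  rw [setIntegral_eq_zero_of_forall_eq_zero, eq_comm, sub_eq_zero] at hs
  · simp only [cons_val_zero, key] at hs
    exact hs.symm
  · intro p _
    have hn : ∀ x y z, t3 (-τ) x y z = -t3 τ x y z := fun x y z => by
      simp only [t3, _root_.neg_apply]
      ring
    rw [Fin.sum_univ_four]
    simp only [cons_val_zero, cons_val_one, cons_val]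
    rw [pd_t3 _ (md _ p) (md _ p) (md _ p), pd_t3 _ (md _ p) (md _ p) (md _ p),
      pd_t3 _ (md _ p) (md _ p) (md _ p), pd_t3 _ (md _ p) (md _ p) (md _ p)]
    simp only [hn, pd_mc h hu]
    rw [pd_comm h 1 0, pd_comm h 2 0, pd_comm h 3 0, pd_comm h 2 1, pd_comm h 3 1, pd_comm h 3 2]
    linear_combination closed3 τ hτ (mc H 0 p) (mc H 1 p) (mc H 2 p) (mc H 3 p)
      (Ring.inverse (H p) * pd (pd H 1) 0 p) (Ring.inverse (H p) * pd (pd H 2) 0 p)
      (Ring.inverse (H p) * pd (pd H 3) 0 p) (Ring.inverse (H p) * pd (pd H 2) 1 p)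
      (Ring.inverse (H p) * pd (pd H 3) 1 p) (Ring.inverse (H p) * pd (pd H 3) 2 p)

/-- homotopy invariance -/
theorem wind3_homotopy (τ : A →L[ℝ] ℂ) (hτ : ∀ a b, τ (a * b) = τ (b * a))
    (H : ℝ → (Fin 3 → ℝ) → A)
    (h : ContDiffOn ℝ ∞ (fun z : ℝ × (Fin 3 → ℝ) => H z.1 z.2) (Icc 0 1 ×ˢ univ))
    (hu : ∀ t ∈ Icc (0 : ℝ) 1, ∀ x, IsUnit (H t x)) (hp : ∀ t ∈ Icc (0 : ℝ) 1, Per (H t)) :
    wind3 τ (H 0) = wind3 τ (H 1) := by
  have hm : ∀ t, Real.smoothTransition t ∈ Icc (0 : ℝ) 1 := fun t =>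
    ⟨Real.smoothTransition.nonneg t, Real.smoothTransition.le_one t⟩
  have := hi4 τ hτ (H := fun p => H (Real.smoothTransition (p 0)) (Fin.tail p))
    (h.comp_contDiff (f := fun p : Fin 4 → ℝ => (Real.smoothTransition (p 0), Fin.tail p))
      ((Real.smoothTransition.contDiff.comp (contDiff_apply ℝ ℝ 0)).prodMk
        (contDiff_pi.mpr fun j => contDiff_apply ℝ ℝ j.succ)) fun p => ⟨hm _, trivial⟩)
    (fun p => hu _ (hm _) _) fun k p => by
      have e : Fin.tail (p + Pi.single k.succ (2 * Real.pi) : Fin 4 → ℝ) =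
          Fin.tail p + Pi.single k (2 * Real.pi) := by
        funext j
        simp [Fin.tail, Pi.single_apply]
      simp only [e, Pi.add_apply, Pi.single_eq_of_ne (Fin.succ_ne_zero k).symm, add_zero]
      exact hp _ (hm _) k _
  simpa using this

/-- smooth periodic maps with invertible values -/
structure Ad (S : (Fin 3 → ℝ) → A) : Prop where
  sm : ContDiff ℝ ∞ S
  un : ∀ x, IsUnit (S x)
  per : Per S

theorem Ad.mul {S T : (Fin 3 → ℝ) → A} (h : Ad S) (h' : Ad T) : Ad fun x => S x * T x :=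
  ⟨h.sm.mul h'.sm, fun x => (h.un x).mul (h'.un x), fun k x => by simp only [h.per k x, h'.per k x]⟩

theorem Ad.inv {S : (Fin 3 → ℝ) → A} (h : Ad S) : Ad fun x => Ring.inverse (S x) :=
  ⟨contDiff_iff_contDiffAt.mpr fun p => ContDiffAt.rinv h.sm.contDiffAt (h.un p),
    fun x => (h.un x).ringInverse, fun k x => by simp only [h.per k x]⟩

theorem ad_const {a : A} (ha : IsUnit a) : Ad fun _ => a :=
  ⟨contDiff_const, fun _ => ha, fun _ _ => rfl⟩

theorem Ad.cont (τ : A →L[ℝ] ℂ) {S : (Fin 3 → ℝ) → A} (h : Ad S) : Continuous (om3 τ S) :=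
  have m := contDiff_mc h.sm h.un
  (contDiff_t3 τ (m 0) (m 1) (m 2)).continuous

theorem wind3_comm (τ : A →L[ℝ] ℂ) {S : (Fin 3 → ℝ) → A}
    (h : ∀ x, Commute (mc S 1 x) (mc S 2 x)) : wind3 τ S = 0 :=
  setIntegral_eq_zero_of_forall_eq_zero fun x _ => by
    rw [om3, t3, mul_assoc, mul_assoc, (h x).eq, sub_self]

theorem wind3_const (τ : A →L[ℝ] ℂ) (a : A) : wind3 τ (fun _ => a) = 0 :=
  wind3_comm τ fun x => by simp [mc, pd]

/-- maps that do not depend on the first coordinate -/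
theorem wind3_indep (τ : A →L[ℝ] ℂ) {S : (Fin 3 → ℝ) → A} (h : ∀ x, pd S 0 x = 0) :
    wind3 τ S = 0 :=
  setIntegral_eq_zero_of_forall_eq_zero fun x _ => by simp [om3, t3, mc, h]

/-- unipotent maps -/
theorem wind3_unip (τ : A →L[ℝ] ℂ) (hτ : ∀ a b, τ (a * b) = τ (b * a)) {N : (Fin 3 → ℝ) → A}
    (h : ContDiff ℝ ∞ N) (hp : Per N) (h2 : ∀ x, N x * N x = 0) :
    Ad (fun x => 1 + N x) ∧ wind3 τ (fun x => 1 + N x) = 0 := by
  have hu : ∀ (t : ℝ) x, IsUnit (1 + t • N x) := fun t x =>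
    ⟨⟨1 + t • N x, 1 - t • N x, by simp [add_mul, mul_sub, h2], by simp [mul_add, sub_mul, h2]⟩,
      rfl⟩
  refine ⟨⟨contDiff_const.add h, fun x => by simpa using hu 1 x, fun k x => by rw [hp]⟩, ?_⟩
  have := wind3_homotopy τ hτ (fun t x => 1 + t • N x)
    (contDiff_const.add (contDiff_fst.smul (h.comp contDiff_snd))).contDiffOn
    (fun t _ => hu t) fun t _ k x => by simp only [hp k x]
  simp only [zero_smul, add_zero, one_smul, wind3_const] at this
  exact this.symm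

/-- change of the algebra -/
theorem wind3_map {B : Type} [NormedRing B] [NormedAlgebra ℝ B] [CompleteSpace B]
    (τ : A →L[ℝ] ℂ) (σ : B →L[ℝ] ℂ) (ρ : A →L[ℝ] B) (h1 : ρ 1 = 1)
    (hm : ∀ a b, ρ (a * b) = ρ a * ρ b) {c : ℂ} (hc : ∀ a, σ (ρ a) = c * τ a)
    {S : (Fin 3 → ℝ) → A} (h : Ad S) :
    Ad (fun x => ρ (S x)) ∧ wind3 σ (fun x => ρ (S x)) = c * wind3 τ S := by
  have hu : ∀ x, IsUnit (ρ (S x)) := fun x => (h.un x).map (⟨⟨ρ, h1⟩, hm⟩ : A →* B)
  refine ⟨⟨ρ.contDiff.comp h.sm, hu, fun k x => by simp only [h.per k x]⟩, ?_⟩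
  have key : ∀ k x, mc (fun x => ρ (S x)) k x = ρ (mc S k x) := fun k x =>
    mc_eq (hu x) (by
      rw [← hm, mul_mc (h.un x)]
      exact (pd_clm ρ (h.sm.differentiable (by simp) x) k).symm)
  rw [wind3, wind3, ← integral_const_mul]
  congr 1
  funext x
  simp only [om3, t3, key, ← hm, hc]
  ring

end HI

variable {ι κ : Type} [Fintype ι] [DecidableEq ι] [Fintype κ] [DecidableEq κ]

/-- the winding number of a matrix valued map -/
noncomputable def wm (S : (Fin 3 → ℝ) → Matrix ι ι ℂ) : ℂ := wind3 (trL ι) S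

theorem wm_diag {S : (Fin 3 → ℝ) → Matrix ι ι ℂ} (h : Ad S) (hd : ∀ x, (S x).IsDiag) :
    wm S = 0 := by
  have hc : ∀ a b : Matrix ι ι ℂ, a.IsDiag → b.IsDiag → Commute a b := fun a b ha hb => by
    rw [← ha.diagonal_diag, ← hb.diagonal_diag]
    exact commute_diagonal _ _
  have hp : ∀ k x, (pd S k x).IsDiag := fun k x i j hij => by
    refine (pd_entry (h.sm.differentiable (by simp) x) k i j).symm.trans ?_
    rw [show (fun q => S q i j) = fun _ => 0 from funext fun q => hd q hij]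
    simp [pd]
  refine wind3_comm _ fun x => ?_
  obtain ⟨u, hu⟩ := h.un x
  have h1 : ∀ m, Commute (↑u⁻¹ : Matrix ι ι ℂ) (pd S m x) := fun m =>
    Commute.units_inv_left (hu ▸ hc _ _ (hd x) (hp m x))
  simp only [mc, ← hu, Ring.inverse_unit]
  exact ((Commute.refl _).mul_right (h1 2)).mul_left
    ((h1 1).symm.mul_right (hc _ _ (hp 1 x) (hp 2 x)))

theorem Ad.blocks {S : (Fin 3 → ℝ) → Matrix ι ι ℂ} {T : (Fin 3 → ℝ) → Matrix κ κ ℂ} (h : Ad S)
    (h' : Ad T) : Ad fun x => fromBlocks (S x) 0 0 (T x) :=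
  ⟨(blk ι κ).contDiff.comp (h.sm.prodMk h'.sm),
    fun x => isUnit_fromBlocks_zero₂₁.mpr ⟨h.un x, h'.un x⟩,
    fun k x => by simp only [h.per k x, h'.per k x]⟩

theorem wm_blocks {S : (Fin 3 → ℝ) → Matrix ι ι ℂ} {T : (Fin 3 → ℝ) → Matrix κ κ ℂ} (h : Ad S)
    (h' : Ad T) : wm (fun x => fromBlocks (S x) 0 0 (T x)) = wm S + wm T := by
  have key : ∀ k x, mc (fun x => fromBlocks (S x) 0 0 (T x)) k x =
      fromBlocks (mc S k x) 0 0 (mc T k x) := fun k x => mc_eq ((h.blocks h').un x) (by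
    have d1 := h.sm.differentiable (by simp) x
    have d2 := h'.sm.differentiable (by simp) x
    refine Eq.trans ?_ (pd_clm (blk ι κ) (d1.prodMk d2) k).symm
    simp only [fromBlocks_multiply, mul_mc (h.un x), mul_mc (h'.un x), Matrix.mul_zero,
      Matrix.zero_mul, add_zero, zero_add]
    rw [pd, pd, pd, d1.fderiv_prodMk d2]
    rfl)
  unfold wm wind3 cube
  rw [← integral_add (h.cont _).continuousOn.integrableOn_Icc
    (h'.cont _).continuousOn.integrableOn_Icc]
  congr 1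
  funext x
  simp only [om3, t3, key, fromBlocks_multiply, Matrix.mul_zero,
    Matrix.zero_mul, add_zero, zero_add]
  exact (congrArg₂ (· - ·) (trL_blk _ _) (trL_blk _ _)).trans (add_sub_add_comm _ _ _ _)

theorem wm_homotopy (H : ℝ → (Fin 3 → ℝ) → Matrix ι ι ℂ)
    (h : ContDiff ℝ ∞ fun z : ℝ × (Fin 3 → ℝ) => H z.1 z.2)
    (hu : ∀ t x, IsUnit (H t x)) (hp : ∀ t, Per (H t)) : wm (H 0) = wm (H 1) :=
  wind3_homotopy _ trL_comm H h.contDiffOn (fun t _ => hu t) fun t _ => hp t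

theorem wm_const (a : Matrix ι ι ℂ) : wm (fun _ => a) = 0 := wind3_const _ a

theorem wm_mul {S T : (Fin 3 → ℝ) → Matrix ι ι ℂ} (h : Ad S) (h' : Ad T) :
    wm (fun x => S x * T x) = wm S + wm T := by
  have one : Ad fun _ : Fin 3 → ℝ => (1 : Matrix ι ι ℂ) := ad_const isUnit_one
  have a1 := h.blocks one
  have a2 := h'.blocks one
  have a3 := h.blocks h'
  have h1 := wm_homotopy
    (fun t x => fromBlocks (S x) 0 0 1 * rot ι t * fromBlocks (T x) 0 0 1)
    (((a1.sm.comp contDiff_snd).mul (contDiff_rot.comp contDiff_fst)).mul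
      (a2.sm.comp contDiff_snd))
    (fun t x => ((a1.un x).mul (rot_unit t)).mul (a2.un x))
    fun t k x => by simp only [h.per k x, h'.per k x]
  have h2 := wm_homotopy (fun t x => fromBlocks (S x) 0 0 (T x) * rot ι t)
    ((a3.sm.comp contDiff_snd).mul (contDiff_rot.comp contDiff_fst))
    (fun t x => (a3.un x).mul (rot_unit t))
    fun t k x => by simp only [h.per k x, h'.per k x]
  simp only [rot, sub_zero, one_smul, zero_smul, add_zero, mul_one, sub_self, zero_add,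
    fromBlocks_multiply, mul_zero, zero_mul, mul_neg, one_mul, neg_zero] at h1 h2
  rw [wm_blocks (h.mul h') one, wm_const, add_zero, ← h2, wm_blocks h h'] at h1
  exact h1

theorem wm_inv {S : (Fin 3 → ℝ) → Matrix ι ι ℂ} (h : Ad S) :
    wm (fun x => Ring.inverse (S x)) = -wm S := by
  have := wm_mul h.inv h
  simp only [Ring.inverse_mul_cancel _ (h.un _), wm_const] at this
  exact eq_neg_of_add_eq_zero_left this.symm

theorem wm_reindex (e : ι ≃ κ) {S : (Fin 3 → ℝ) → Matrix ι ι ℂ} (h : Ad S) :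
    Ad (fun x => reindex e e (S x)) ∧ wm (fun x => reindex e e (S x)) = wm S := by
  let ψ := reindexAlgEquiv ℝ ℂ e
  have := wind3_map (trL ι) (trL κ) (LinearMap.toContinuousLinearMap ψ.toLinearEquiv.toLinearMap)
    (map_one ψ) (map_mul ψ) (c := 1) (fun M => (e.symm.sum_comp fun i => M i i).trans
      (one_mul _).symm) h
  rw [one_mul] at this
  exact this

/-- block triangular maps -/
theorem wm_tri {S : (Fin 3 → ℝ) → Matrix (ι ⊕ κ) (ι ⊕ κ) ℂ} (h : Ad S)
    (h0 : (∀ x, (S x).toBlocks₂₁ = 0) ∨ ∀ x, (S x).toBlocks₁₂ = 0) :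
    Ad (fun x => (S x).toBlocks₁₁) ∧ Ad (fun x => (S x).toBlocks₂₂) ∧
      wm S = wm (fun x => (S x).toBlocks₁₁) + wm fun x => (S x).toBlocks₂₂ := by
  have hu : ∀ x, IsUnit (S x).toBlocks₁₁ ∧ IsUnit (S x).toBlocks₂₂ := fun x => by
    have := h.un x
    rw [← fromBlocks_toBlocks (S x)] at this
    rcases h0 with h0 | h0
    · rwa [h0, isUnit_fromBlocks_zero₂₁] at this
    · rwa [h0, isUnit_fromBlocks_zero₁₂] at this
  have c := contDiff_mat.mp h.sm
  have a1 : Ad fun x => (S x).toBlocks₁₁ := ⟨contDiff_mat.mpr fun i j => c _ _,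
    fun x => (hu x).1, fun k x => by simp only [h.per k x]⟩
  have a2 : Ad fun x => (S x).toBlocks₂₂ := ⟨contDiff_mat.mpr fun i j => c _ _,
    fun x => (hu x).2, fun k x => by simp only [h.per k x]⟩
  refine ⟨a1, a2, ?_⟩
  have := wm_homotopy (fun t x => fromBlocks (S x).toBlocks₁₁ (t • (S x).toBlocks₁₂)
      (t • (S x).toBlocks₂₁) (S x).toBlocks₂₂)
    (contDiff_mat.mpr (by
      rintro (i | i) (j | j)
      · exact (c _ _).comp contDiff_snd
      · exact contDiff_fst.smul ((c _ _).comp contDiff_snd)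
      · exact contDiff_fst.smul ((c _ _).comp contDiff_snd)
      · exact (c _ _).comp contDiff_snd))
    (fun t x => by
      rcases h0 with h0 | h0
      · rw [h0, smul_zero, isUnit_fromBlocks_zero₂₁]
        exact hu x
      · rw [h0, smul_zero, isUnit_fromBlocks_zero₁₂]
        exact hu x)
    fun t k x => by simp only [h.per k x]
  simp only [zero_smul, one_smul, fromBlocks_toBlocks] at this
  rw [← wm_blocks a1 a2, this]

/-- upper triangular maps -/
theorem wm_upper {n : ℕ} {S : (Fin 3 → ℝ) → Matrix (Fin n) (Fin n) ℂ} (h : Ad S)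
    (h0 : ∀ x i j, j < i → S x i j = 0) : wm S = 0 := by
  have c := contDiff_mat.mp h.sm
  let H : ℝ → (Fin 3 → ℝ) → Matrix (Fin n) (Fin n) ℂ := fun t x =>
    Matrix.of fun i j => if i = j then S x i j else t • S x i j
  have hc : ContDiff ℝ ∞ fun z : ℝ × (Fin 3 → ℝ) => H z.1 z.2 := contDiff_mat.mpr fun i j => by
    by_cases e : i = j
    · simp only [H, of_apply, if_pos e]
      exact (c _ _).comp contDiff_snd
    · simp only [H, of_apply, if_neg e]
      exact contDiff_fst.smul ((c _ _).comp contDiff_snd)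
  have hu : ∀ t x, IsUnit (H t x) := fun t x => by
    have h1 := (isUnit_iff_isUnit_det _).mp (h.un x)
    rw [det_of_isUpperTriangular fun i j hij => h0 x i j hij] at h1
    rw [isUnit_iff_isUnit_det, det_of_isUpperTriangular fun i j hij => by
      simp [H, h0 x i j hij]]
    simpa [H] using h1
  have hp : ∀ t, Per (H t) := fun t k x => by simp only [H, h.per k x]
  have := wm_homotopy H hc hu hp
  rw [wm_diag (S := H 0) ⟨hc.comp (contDiff_const.prodMk contDiff_id), hu 0, hp 0⟩ fun x i j hij => by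
    simp [H, hij]] at this
  rw [this]
  congr 1
  funext x
  ext i j
  simp [H]

end Pool.Agent.P.MP_a67bd8_gt.N4
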